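import Mathlib

set_option autoImplicit false

namespace Pool.Agent.R993.CE

open Complex

variable {K : Type*} [NormedAddCommGroup K] [InnerProductSpace ℂ K] [CompleteSpace K]

/-- A coercive operator (after multiplication by a complex number) is invertible. -/
lemma coercive_inv (T : K →L[ℂ] K) (α : ℂ) (c : ℝ) (hc : 0 < c)
    (h : ∀ v : K, c * ‖v‖ ^ 2 ≤ (α * inner ℂ v (T v)).re) :
    ∃ T' : K →L[ℂ] K, (∀ v, T (T' v) = v) ∧ (∀ v, T' (T v) = v) ∧ ∀ v, ‖T' v‖ ≤ ‖α‖ / c * ‖v‖ := by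
  by_cases hα : α = 0
  · have h0 : ∀ v : K, v = 0 := by
      intro v
      have := h v
      rw [hα, zero_mul, Complex.zero_re] at this
      have h2 : ‖v‖ ^ 2 ≤ 0 := by nlinarith [sq_nonneg ‖v‖]
      have h3 : ‖v‖ = 0 := by nlinarith [norm_nonneg v]
      exact norm_eq_zero.1 h3
    refine ⟨0, fun v => by rw [h0 v]; simp, fun v => by rw [h0 v]; simp, fun v => by rw [h0 v]; simp⟩
  set T1 : K →L[ℂ] K := α • T with hT1
  have h1 : ∀ v : K, c * ‖v‖ ^ 2 ≤ (inner ℂ v (T1 v)).re := by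
    intro v
    rw [hT1, ContinuousLinearMap.smul_apply, inner_smul_right]
    exact h v
  set L : ℝ := ‖T1‖ + c with hL
  have hLpos : 0 < L := by positivity
  set τ : ℝ := c / L ^ 2 with hτ
  have hτpos : 0 < τ := by positivity
  have hcL : c ≤ L := by rw [hL]; linarith [norm_nonneg T1]
  have hq : c ^ 2 / L ^ 2 ≤ 1 := by
    rw [div_le_one (by positivity)]
    exact pow_le_pow_left₀ hc.le hcL 2
  have hbound : ∀ v : K, ‖v - (τ : ℂ) • T1 v‖ ≤ √(1 - c ^ 2 / L ^ 2) * ‖v‖ := by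
    intro v
    have e1 : ‖v - (τ : ℂ) • T1 v‖ ^ 2 =
        ‖v‖ ^ 2 - 2 * τ * (inner ℂ v (T1 v)).re + τ ^ 2 * ‖T1 v‖ ^ 2 := by
      have := @norm_sub_sq ℂ K _ _ _ v ((τ : ℂ) • T1 v)
      rw [this, inner_smul_right, norm_smul]
      simp only [RCLike.re_to_complex, Complex.re_ofReal_mul, Complex.norm_real, Real.norm_eq_abs,
        abs_of_pos hτpos]
      ring
    have e2 : ‖T1 v‖ ≤ L * ‖v‖ := by
      refine (T1.le_opNorm v).trans ?_
      gcongr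
      rw [hL]; linarith
    have e3 : ‖T1 v‖ ^ 2 ≤ L ^ 2 * ‖v‖ ^ 2 := by
      rw [← mul_pow]
      exact pow_le_pow_left₀ (norm_nonneg _) e2 2
    have e4 : ‖v - (τ : ℂ) • T1 v‖ ^ 2 ≤ (1 - c ^ 2 / L ^ 2) * ‖v‖ ^ 2 := by
      rw [e1]
      have e5 := h1 v
      have e6 : τ ^ 2 * ‖T1 v‖ ^ 2 ≤ τ ^ 2 * (L ^ 2 * ‖v‖ ^ 2) :=
        mul_le_mul_of_nonneg_left e3 (by positivity)
      have e7 : τ ^ 2 * (L ^ 2 * ‖v‖ ^ 2) = c ^ 2 / L ^ 2 * ‖v‖ ^ 2 := by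
        rw [hτ]; field_simp
      have e8 : 2 * τ * (c * ‖v‖ ^ 2) = 2 * (c ^ 2 / L ^ 2 * ‖v‖ ^ 2) := by
        rw [hτ]; field_simp
      have e9 : 2 * τ * (c * ‖v‖ ^ 2) ≤ 2 * τ * (inner ℂ v (T1 v)).re :=
        mul_le_mul_of_nonneg_left e5 (by positivity)
      linarith
    have e5 : ‖v - (τ : ℂ) • T1 v‖ ≤ √((1 - c ^ 2 / L ^ 2) * ‖v‖ ^ 2) :=
      Real.le_sqrt_of_sq_le e4
    rwa [Real.sqrt_mul (by linarith), Real.sqrt_sq (norm_nonneg v)] at e5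
  have hnorm : ‖(1 : K →L[ℂ] K) - (τ : ℂ) • T1‖ < 1 := by
    have h2 : ‖(1 : K →L[ℂ] K) - (τ : ℂ) • T1‖ ≤ √(1 - c ^ 2 / L ^ 2) :=
      ContinuousLinearMap.opNorm_le_bound _ (Real.sqrt_nonneg _) fun v => by
        simpa using hbound v
    refine lt_of_le_of_lt h2 ?_
    rw [Real.sqrt_lt' one_pos]
    have : 0 < c ^ 2 / L ^ 2 := by positivity
    linarith
  have hunit : IsUnit ((τ : ℂ) • T1) := by
    have := isUnit_one_sub_of_norm_lt_one hnorm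
    rwa [sub_sub_cancel] at this
  obtain ⟨R, hR⟩ := hunit
  have hR1 : ∀ v, (τ : ℂ) • T1 ((↑R⁻¹ : K →L[ℂ] K) v) = v := by
    intro v
    have := congrArg (fun A : K →L[ℂ] K => A v) R.mul_inv
    simp only [hR] at this
    simpa using this
  have hR2 : ∀ v, (↑R⁻¹ : K →L[ℂ] K) ((τ : ℂ) • T1 v) = v := by
    intro v
    have := congrArg (fun A : K →L[ℂ] K => A v) R.inv_mul
    simp only [hR] at this
    simpa using this
  have hTT : ∀ v, T (((τ : ℂ) * α) • (↑R⁻¹ : K →L[ℂ] K) v) = v := by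
    intro v
    rw [map_smul, mul_smul]
    have := hR1 v
    rwa [hT1, ContinuousLinearMap.smul_apply] at this
  refine ⟨((τ : ℂ) * α) • (↑R⁻¹ : K →L[ℂ] K), ?_, ?_, ?_⟩
  · intro v
    exact hTT v
  · intro v
    rw [ContinuousLinearMap.smul_apply, ← map_smul, mul_smul]
    have := hR2 v
    rwa [hT1, ContinuousLinearMap.smul_apply] at this
  · intro v
    set w := (((τ : ℂ) * α) • (↑R⁻¹ : K →L[ℂ] K)) v with hw
    have hTw : T w = v := hTT v
    have h3 := h w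
    rw [hTw] at h3
    have h4 : (α * inner ℂ w v).re ≤ ‖α‖ * (‖w‖ * ‖v‖) := by
      refine (Complex.re_le_norm _).trans ?_
      rw [norm_mul]
      gcongr
      exact norm_inner_le_norm w v
    have h5 : c * ‖w‖ ^ 2 ≤ ‖α‖ * (‖w‖ * ‖v‖) := h3.trans h4
    rcases (norm_nonneg w).eq_or_lt with h6 | h6
    · rw [← h6]; positivity
    · rw [div_mul_eq_mul_div, le_div_iff₀ hc]
      have : c * ‖w‖ * ‖w‖ ≤ ‖α‖ * ‖v‖ * ‖w‖ := by nlinarith
      have := le_of_mul_le_mul_right this h6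
      linarith

end Pool.Agent.R993.CE
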