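import Mathlib
import Pool.Agent.R993.CE.Abs0

set_option autoImplicit false

namespace Pool.Agent.R993.CE

open Complex

variable {K : Type*} [NormedAddCommGroup K] [InnerProductSpace ℂ K] [CompleteSpace K]

/-- projection off an orthonormal family -/
noncomputable def QQ {N : ℕ} (e : Fin N → K) : K →L[ℂ] K :=
  1 - ∑ m, (innerSL ℂ (e m)).smulRight (e m)

lemma QQ_apply {N : ℕ} (e : Fin N → K) (v : K) :
    QQ e v = v - ∑ m, inner ℂ (e m) v • e m := by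
  simp [QQ]

lemma inner_QQ {N : ℕ} (e : Fin N → K) (he : Orthonormal ℂ e) (k : Fin N) (v : K) :
    inner ℂ (e k) (QQ e v) = 0 := by
  rw [QQ_apply, inner_sub_right, he.inner_right_fintype, sub_self]

lemma QQ_of_inner {N : ℕ} (e : Fin N → K) (v : K) (h : ∀ m, inner ℂ (e m) v = 0) :
    QQ e v = v := by
  rw [QQ_apply]
  simp [h]

lemma QQ_symm {N : ℕ} (e : Fin N → K) (v u : K) :
    inner ℂ (QQ e v) u = inner ℂ v (QQ e u) := by
  rw [QQ_apply, QQ_apply, inner_sub_left, inner_sub_right, sum_inner, inner_sum]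
  congr 1
  refine Finset.sum_congr rfl fun m _ => ?_
  rw [inner_smul_left, inner_smul_right, inner_conj_symm]
  ring

lemma norm_QQ_le {N : ℕ} (e : Fin N → K) (he : Orthonormal ℂ e) (v : K) :
    ‖QQ e v‖ ≤ ‖v‖ := by
  have h1 : inner ℂ (QQ e v) (QQ e v) = inner ℂ v (QQ e v) := by
    rw [QQ_symm, QQ_of_inner e (QQ e v) (fun m => inner_QQ e he m v)]
  have h2 : ‖QQ e v‖ ^ 2 ≤ ‖v‖ * ‖QQ e v‖ := by
    rw [← inner_self_eq_norm_sq (𝕜 := ℂ), h1]
    exact (Complex.re_le_norm _).trans (norm_inner_le_norm _ _)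
  rcases (norm_nonneg (QQ e v)).eq_or_lt with h | h
  · rw [← h]; exact norm_nonneg v
  · have : ‖QQ e v‖ * ‖QQ e v‖ ≤ ‖v‖ * ‖QQ e v‖ := by rw [← sq]; exact h2
    exact le_of_mul_le_mul_right this h

lemma QQ_comm {N : ℕ} (e : Fin N → K) (S : K →L[ℂ] K) (hS : ∀ u v, inner ℂ (S u) v = inner ℂ u (S v))
    (r : Fin N → ℝ) (hr : ∀ n, S (e n) = (r n : ℂ) • e n) (v : K) :
    S (QQ e v) = QQ e (S v) := by
  rw [QQ_apply, QQ_apply, map_sub, map_sum]
  congr 1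
  refine Finset.sum_congr rfl fun m _ => ?_
  rw [map_smul, ← hS, hr, inner_smul_left, smul_smul]
  congr 1
  simp [mul_comm]

lemma inner_real (S : K →L[ℂ] K) (hS : ∀ u v, inner ℂ (S u) v = inner ℂ u (S v)) (v : K) :
    inner ℂ v (S v) = (((inner ℂ v (S v)).re : ℝ) : ℂ) := by
  have h : (starRingEnd ℂ) (inner ℂ v (S v)) = inner ℂ v (S v) := by
    rw [inner_conj_symm, hS]
  exact (Complex.conj_eq_iff_re.1 h).symm

/-- coercivity of the reduced operator, and its inverse -/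
lemma reduced_inv (S B : K →L[ℂ] K) (hS : ∀ u v, inner ℂ (S u) v = inner ℂ u (S v))
    (hB : ∀ u v, inner ℂ (B u) v = inner ℂ u (B v)) (hB0 : ∀ v, 0 ≤ (inner ℂ v (B v)).re)
    (M' : ℝ) {N : ℕ} (e : Fin N → K) (he : Orthonormal ℂ e) (r : Fin N → ℝ)
    (hr : ∀ n, S (e n) = (r n : ℂ) • e n) (ρ₁ ρ₂ : ℝ) (h0 : 0 ≤ ρ₁) (h12 : ρ₁ < ρ₂) (h2 : ρ₂ ≤ 1)
    (hgap : ∀ v, (∀ n, inner ℂ (e n) v = 0) → (inner ℂ v (S v)).re ≤ ρ₁ * ‖v‖ ^ 2)
    (s : ℝ) (hs : ρ₂ ≤ s) :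
    ∃ T' : K →L[ℂ] K, (∀ v, T' v - (s⁻¹ : ℂ) • S (QQ e (T' v)) -
        ((M' : ℂ) + I) • QQ e (B (QQ e (T' v))) = v) ∧
      ∀ v, ‖T' v‖ ≤ ‖(M' : ℂ) + I‖ / (ρ₂ - ρ₁) * ‖v‖ := by
  set T : K →L[ℂ] K := 1 - (s⁻¹ : ℂ) • (S * QQ e) - ((M' : ℂ) + I) • (QQ e * (B * QQ e)) with hT
  have hTv : ∀ v, T v = v - (s⁻¹ : ℂ) • S (QQ e v) - ((M' : ℂ) + I) • QQ e (B (QQ e v)) := by
    intro v
    simp [hT]
  have hs0 : 0 < s := lt_of_le_of_lt h0 (h12.trans_le hs)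
  obtain ⟨T', h1, -, h3⟩ := coercive_inv T (I * (starRingEnd ℂ) ((M' : ℂ) + I)) (ρ₂ - ρ₁)
    (by linarith) (by
      intro v
      set x : ℝ := (inner ℂ (QQ e v) (S (QQ e v))).re with hx
      set y : ℝ := (inner ℂ (QQ e v) (B (QQ e v))).re with hy
      have e1 : inner ℂ v (S (QQ e v)) = (x : ℂ) := by
        have : S (QQ e v) = QQ e (S (QQ e v)) := by
          rw [← QQ_comm e S hS r hr, QQ_of_inner e (QQ e v) (fun m => inner_QQ e he m v)]
        rw [this, ← QQ_symm]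
        exact inner_real S hS (QQ e v)
      have e2 : inner ℂ v (QQ e (B (QQ e v))) = (y : ℂ) := by
        rw [← QQ_symm]
        exact inner_real B hB (QQ e v)
      have e3 : inner ℂ v (T v) = ((‖v‖ ^ 2 - s⁻¹ * x : ℝ) : ℂ) - ((M' : ℂ) + I) * (y : ℂ) := by
        rw [hTv, inner_sub_right, inner_sub_right, inner_smul_right, inner_smul_right, e1, e2,
          inner_self_eq_norm_sq_to_K]
        push_cast
        rfl
      have e4 : (I * (starRingEnd ℂ) ((M' : ℂ) + I) * inner ℂ v (T v)).re =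
          ‖v‖ ^ 2 - s⁻¹ * x := by
        rw [e3]
        simp only [map_add, Complex.conj_ofReal, Complex.conj_I, Complex.mul_re, Complex.mul_im,
          Complex.add_re, Complex.add_im, Complex.sub_re, Complex.sub_im, Complex.ofReal_re,
          Complex.ofReal_im, Complex.I_re, Complex.I_im, Complex.neg_re, Complex.neg_im]
        ring
      rw [e4]
      have e5 : x ≤ ρ₁ * ‖v‖ ^ 2 := by
        refine (hgap (QQ e v) (fun n => inner_QQ e he n v)).trans ?_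
        exact mul_le_mul_of_nonneg_left (pow_le_pow_left₀ (norm_nonneg _) (norm_QQ_le e he v) 2) h0
      have e6 : s⁻¹ * x ≤ ρ₂⁻¹ * (ρ₁ * ‖v‖ ^ 2) := by
        have hs' : 0 < s⁻¹ := by positivity
        have : s⁻¹ * x ≤ s⁻¹ * (ρ₁ * ‖v‖ ^ 2) := mul_le_mul_of_nonneg_left e5 hs'.le
        refine this.trans (mul_le_mul_of_nonneg_right ?_ (by positivity))
        exact inv_anti₀ (lt_of_le_of_lt h0 h12) hs
      have h2' : 0 < ρ₂ := lt_of_le_of_lt h0 h12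
      have e7 : ρ₂ - ρ₁ ≤ 1 - ρ₂⁻¹ * ρ₁ := by
        rw [inv_mul_eq_div, le_sub_iff_add_le, ← sub_nonneg]
        have : 1 - (ρ₂ - ρ₁ + ρ₁ / ρ₂) = (1 - ρ₂) * (ρ₂ - ρ₁) / ρ₂ := by
          field_simp
          ring
        rw [this]
        apply div_nonneg (mul_nonneg (by linarith) (by linarith)) h2'.le
      nlinarith [sq_nonneg ‖v‖])
  refine ⟨T', fun v => ?_, fun v => ?_⟩
  · rw [← hTv]
    exact h1 v
  · have := h3 v
    rwa [norm_mul, Complex.norm_I, one_mul, RCLike.norm_conj] at this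

end Pool.Agent.R993.CE
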