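import Mathlib
import Pool.Agent.R993.CE.Abs1

set_option autoImplicit false

namespace Pool.Agent.R993.CE

open Complex

variable {K : Type*} [NormedAddCommGroup K] [InnerProductSpace ℂ K] [CompleteSpace K]

/-- An invariant subspace near the span of approximate eigenvectors, by a fixed point argument. -/
theorem riccati (S B : K →L[ℂ] K) (hS : ∀ u v, inner ℂ (S u) v = inner ℂ u (S v))
    (hB : ∀ u v, inner ℂ (B u) v = inner ℂ u (B v)) (hB0 : ∀ v, 0 ≤ (inner ℂ v (B v)).re)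
    (hSn : ∀ v, ‖S v‖ ≤ ‖v‖)
    (M' : ℝ) {N : ℕ} (e : Fin N → K) (he : Orthonormal ℂ e) (r : Fin N → ℝ)
    (hr : ∀ n, S (e n) = (r n : ℂ) • e n) (ρ₁ ρ₂ : ℝ) (h0 : 0 ≤ ρ₁) (h12 : ρ₁ < ρ₂) (h2 : ρ₂ ≤ 1)
    (hρ : ∀ n, ρ₂ ≤ r n)
    (hgap : ∀ v, (∀ n, inner ℂ (e n) v = 0) → (inner ℂ v (S v)).re ≤ ρ₁ * ‖v‖ ^ 2)
    (ε : ℝ) (hε : 0 ≤ ε) (hBe : ∀ n, ‖B (e n)‖ ≤ ε) (κ : ℂ) (hκ : κ = (M' : ℂ) + I)
    (hsmall : ‖κ‖ / (ρ₂ - ρ₁) * (‖κ‖ * ε * (1 + 3 * N / ρ₂)) ≤ 1 / 4) :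
    ∃ (w : Fin N → K) (Z : Fin N → Fin N → ℂ),
      (∀ n, w n - S (w n) - κ • B (w n) = S (∑ m, Z m n • w m)) ∧
      (∀ m n, inner ℂ (e m) (w n) = if m = n then (1 : ℂ) else 0) ∧
      (∀ m n, ‖Z m n - if m = n then (((r n)⁻¹ - 1 : ℝ) : ℂ) else 0‖ ≤ 2 * ‖κ‖ * ε / ρ₂) := by
  have h2' : 0 < ρ₂ := lt_of_le_of_lt h0 h12
  have hr0 : ∀ n, 0 < r n := fun n => h2'.trans_le (hρ n)
  have hT : ∀ n, ∃ T' : K →L[ℂ] K, (∀ v, T' v - ((r n)⁻¹ : ℂ) • S (QQ e (T' v)) -
        κ • QQ e (B (QQ e (T' v))) = v) ∧ ∀ v, ‖T' v‖ ≤ ‖κ‖ / (ρ₂ - ρ₁) * ‖v‖ := by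
    intro n
    rw [hκ]
    exact reduced_inv S B hS hB hB0 M' e he r hr ρ₁ ρ₂ h0 h12 h2 hgap (r n) (hρ n)
  choose T hT1 hT2 using hT
  set β : Fin N → (Fin N → K) → Fin N → ℂ := fun m x n =>
    ((r m)⁻¹ : ℂ) * inner ℂ (e m) (B (e n + x n)) with hβ
  set g : (Fin N → K) → Fin N → K := fun x n =>
    κ • B (e n) - κ • ∑ m, β m x n • S (x m) with hg
  set Φ : (Fin N → K) → (Fin N → K) := fun x n => T n (QQ e (g x n)) with hΦ
  set L : ℝ := ‖κ‖ / (ρ₂ - ρ₁) with hL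
  have hL0 : 0 ≤ L := div_nonneg (norm_nonneg _) (by linarith)
  have hinv : ∀ m, ‖((r m)⁻¹ : ℂ)‖ ≤ ρ₂⁻¹ := by
    intro m
    rw [norm_inv, Complex.norm_real, Real.norm_of_nonneg (hr0 m).le]
    exact inv_anti₀ h2' (hρ m)
  have hin : ∀ m (v : K), ‖inner ℂ (e m) (B v)‖ ≤ ε * ‖v‖ := by
    intro m v
    rw [← hB]
    refine (norm_inner_le_norm _ _).trans ?_
    exact mul_le_mul_of_nonneg_right (hBe m) (norm_nonneg _)
  have hβn : ∀ m x n, ‖β m x n‖ ≤ ρ₂⁻¹ * (ε * (1 + ‖x n‖)) := by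
    intro m x n
    rw [hβ]
    simp only
    rw [norm_mul]
    have h3 : ‖e n + x n‖ ≤ 1 + ‖x n‖ := by
      refine (norm_add_le _ _).trans ?_
      rw [he.1 n]
    have h4 : ‖inner ℂ (e m) (B (e n + x n))‖ ≤ ε * (1 + ‖x n‖) :=
      (hin m _).trans (mul_le_mul_of_nonneg_left h3 hε)
    exact mul_le_mul (hinv m) h4 (norm_nonneg _) (by positivity)
  have hgn : ∀ x : Fin N → K, ‖x‖ ≤ 1 → ∀ n, ‖g x n‖ ≤ ‖κ‖ * ε * (1 + 3 * N / ρ₂) := by
    intro x hx n
    have h3 : ‖∑ m, β m x n • S (x m)‖ ≤ N * (ρ₂⁻¹ * (ε * 2)) := by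
      refine (norm_sum_le _ _).trans ?_
      have h4 : ∀ m ∈ (Finset.univ : Finset (Fin N)), ‖β m x n • S (x m)‖ ≤ ρ₂⁻¹ * (ε * 2) := by
        intro m _
        rw [norm_smul]
        have h5 : ‖S (x m)‖ ≤ 1 := (hSn _).trans ((norm_le_pi_norm x m).trans hx)
        have h6 : ‖β m x n‖ ≤ ρ₂⁻¹ * (ε * 2) := by
          refine (hβn m x n).trans ?_
          have := (norm_le_pi_norm x n).trans hx
          gcongr
          linarith
        have h7 := mul_le_mul h6 h5 (norm_nonneg _) (by positivity)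
        linarith
      refine (Finset.sum_le_sum h4).trans ?_
      simp
    have h5 : ‖g x n‖ ≤ ‖κ‖ * ε + ‖κ‖ * (N * (ρ₂⁻¹ * (ε * 2))) := by
      rw [hg]
      simp only
      refine (norm_sub_le _ _).trans ?_
      rw [norm_smul, norm_smul]
      exact add_le_add (mul_le_mul_of_nonneg_left (hBe n) (norm_nonneg _))
        (mul_le_mul_of_nonneg_left h3 (norm_nonneg _))
    refine h5.trans ?_
    have h6 : ‖κ‖ * ε * (1 + 3 * N / ρ₂) = ‖κ‖ * ε + ‖κ‖ * (N * (ρ₂⁻¹ * (ε * 2))) +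
        ‖κ‖ * (N * (ρ₂⁻¹ * ε)) := by
      field_simp
      ring
    rw [h6]
    have : 0 ≤ ‖κ‖ * (N * (ρ₂⁻¹ * ε)) := by positivity
    linarith
  have hgd : ∀ x y : Fin N → K, ‖x‖ ≤ 1 → ‖y‖ ≤ 1 → ∀ n,
      ‖g x n - g y n‖ ≤ ‖κ‖ * ε * (1 + 3 * N / ρ₂) * ‖x - y‖ := by
    intro x y hx hy n
    have h3 : g x n - g y n = -(κ • ∑ m, (β m x n • S (x m) - β m y n • S (y m))) := by
      rw [hg]
      simp only [Finset.sum_sub_distrib, smul_sub]
      abel
    rw [h3, norm_neg, norm_smul]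
    have h4 : ∀ m ∈ (Finset.univ : Finset (Fin N)),
        ‖β m x n • S (x m) - β m y n • S (y m)‖ ≤ ρ₂⁻¹ * (ε * (3 * ‖x - y‖)) := by
      intro m _
      have h5 : β m x n • S (x m) - β m y n • S (y m) =
          (β m x n - β m y n) • S (x m) + β m y n • S (x m - y m) := by
        rw [map_sub, smul_sub, sub_smul]
        abel
      have hxy : ∀ k, ‖x k - y k‖ ≤ ‖x - y‖ := fun k => norm_le_pi_norm (x - y) k
      have h6 : ‖β m x n - β m y n‖ ≤ ρ₂⁻¹ * (ε * ‖x - y‖) := by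
        have : β m x n - β m y n = ((r m)⁻¹ : ℂ) * inner ℂ (e m) (B (x n - y n)) := by
          rw [hβ]
          simp only [map_add, map_sub, inner_add_right, inner_sub_right]
          ring
        rw [this, norm_mul]
        refine mul_le_mul (hinv m) ((hin m _).trans ?_) (norm_nonneg _) (by positivity)
        exact mul_le_mul_of_nonneg_left (hxy n) hε
      have h7 : ‖S (x m)‖ ≤ 1 := (hSn _).trans ((norm_le_pi_norm x m).trans hx)
      have h8 : ‖β m y n‖ ≤ ρ₂⁻¹ * (ε * 2) := by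
        refine (hβn m y n).trans ?_
        have := (norm_le_pi_norm y n).trans hy
        gcongr
        linarith
      have h9 : ‖S (x m - y m)‖ ≤ ‖x - y‖ := (hSn _).trans (hxy m)
      rw [h5]
      refine (norm_add_le _ _).trans ?_
      rw [norm_smul, norm_smul]
      have h10 := mul_le_mul h6 h7 (norm_nonneg _) (by positivity)
      have h11 := mul_le_mul h8 h9 (norm_nonneg _) (by positivity)
      calc _ ≤ ρ₂⁻¹ * (ε * ‖x - y‖) * 1 + ρ₂⁻¹ * (ε * 2) * ‖x - y‖ := add_le_add h10 h11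
        _ = _ := by ring
    have h12 : ‖∑ m, (β m x n • S (x m) - β m y n • S (y m))‖ ≤
        N * (ρ₂⁻¹ * (ε * (3 * ‖x - y‖))) := by
      refine (norm_sum_le _ _).trans ((Finset.sum_le_sum h4).trans ?_)
      simp
    refine (mul_le_mul_of_nonneg_left h12 (norm_nonneg _)).trans ?_
    have h13 : ‖κ‖ * ε * (1 + 3 * N / ρ₂) * ‖x - y‖ =
        ‖κ‖ * (N * (ρ₂⁻¹ * (ε * (3 * ‖x - y‖)))) + ‖κ‖ * ε * ‖x - y‖ := by
      field_simp
      ring
    rw [h13]
    have : 0 ≤ ‖κ‖ * ε * ‖x - y‖ := by positivity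
    linarith
  have hΦn : ∀ x : Fin N → K, ‖x‖ ≤ 1 → ‖Φ x‖ ≤ 1 / 4 := by
    intro x hx
    rw [pi_norm_le_iff_of_nonneg (by norm_num)]
    intro n
    refine (hT2 n _).trans ?_
    refine (mul_le_mul_of_nonneg_left ((norm_QQ_le e he _).trans (hgn x hx n)) hL0).trans hsmall
  have hΦd : ∀ x y : Fin N → K, ‖x‖ ≤ 1 → ‖y‖ ≤ 1 → ‖Φ x - Φ y‖ ≤ 1 / 4 * ‖x - y‖ := by
    intro x y hx hy
    rw [pi_norm_le_iff_of_nonneg (by positivity)]
    intro n
    have h3 : (Φ x - Φ y) n = T n (QQ e (g x n - g y n)) := by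
      rw [map_sub, map_sub]
      rfl
    rw [h3]
    refine (hT2 n _).trans ?_
    refine (mul_le_mul_of_nonneg_left ((norm_QQ_le e he _).trans (hgd x y hx hy n)) hL0).trans ?_
    rw [← mul_assoc]
    exact mul_le_mul_of_nonneg_right hsmall (norm_nonneg _)
  have hmaps : Set.MapsTo Φ (Metric.closedBall (0 : Fin N → K) 1) (Metric.closedBall 0 1) := by
    intro x hx
    rw [mem_closedBall_zero_iff] at hx ⊢
    exact (hΦn x hx).trans (by norm_num)
  have hcontr : ContractingWith (1 / 4 : NNReal)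
      (hmaps.restrict Φ (Metric.closedBall (0 : Fin N → K) 1) (Metric.closedBall 0 1)) := by
    constructor
    · rw [← NNReal.coe_lt_coe]
      norm_num
    · apply LipschitzWith.of_dist_le_mul
      intro x y
      have hx := x.2
      have hy := y.2
      rw [mem_closedBall_zero_iff] at hx hy
      have := hΦd x y hx hy
      rw [Subtype.dist_eq, Subtype.dist_eq, dist_eq_norm, dist_eq_norm]
      simpa using this
  obtain ⟨x, hxs, hfix, -⟩ := ContractingWith.exists_fixedPoint'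
    (Metric.isClosed_closedBall.isComplete) hmaps hcontr
    (x := (0 : Fin N → K)) (by simp) (edist_ne_top _ _)
  rw [mem_closedBall_zero_iff] at hxs
  have hx : ∀ n, x n = T n (QQ e (g x n)) := fun n => (congrFun hfix n).symm
  have heq : ∀ n, x n - ((r n)⁻¹ : ℂ) • S (QQ e (x n)) - κ • QQ e (B (QQ e (x n))) =
      QQ e (g x n) := by
    intro n
    have := hT1 n (QQ e (g x n))
    rw [← hx n] at this
    exact this
  have hperp : ∀ m n, inner ℂ (e m) (x n) = 0 := by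
    intro m n
    have h3 := congrArg (fun z => inner ℂ (e m) z) (heq n)
    simp only [inner_sub_right, inner_smul_right, inner_QQ e he] at h3
    rw [← hS, hr, inner_smul_left, inner_QQ e he] at h3
    simpa using h3
  have hQx : ∀ n, QQ e (x n) = x n := fun n => QQ_of_inner e _ (fun m => hperp m n)
  refine ⟨fun n => e n + x n, fun m n => (if m = n then (((r n)⁻¹ - 1 : ℝ) : ℂ) else 0) -
    κ * β m x n, ?_, ?_, ?_⟩
  · intro n
    have h3 := heq n
    rw [hQx n] at h3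
    have h4 : QQ e (g x n) = κ • QQ e (B (e n)) - κ • ∑ m, β m x n • S (x m) := by
      rw [hg]
      simp only [map_sub, map_smul, map_sum]
      congr 2
      refine Finset.sum_congr rfl fun m _ => ?_
      rw [← QQ_comm e S hS r hr, hQx]
    rw [h4] at h3
    have h5 : QQ e (B (e n)) + QQ e (B (x n)) = B (e n + x n) - ∑ m, (r m * β m x n) • e m := by
      rw [← map_add, ← map_add, QQ_apply]
      congr 1
      refine Finset.sum_congr rfl fun m _ => ?_
      rw [hβ]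
      simp only
      rw [mul_inv_cancel_left₀ (by exact_mod_cast (hr0 m).ne')]
    have h6 : S (∑ m, ((if m = n then (((r n)⁻¹ - 1 : ℝ) : ℂ) else 0) - κ * β m x n) •
        (e m + x m)) = (((r n)⁻¹ - 1 : ℝ) : ℂ) • ((r n : ℂ) • e n + S (x n)) -
          κ • (∑ m, (r m * β m x n) • e m + ∑ m, β m x n • S (x m)) := by
      simp only [sub_smul, Finset.sum_sub_distrib, map_sub, map_sum, map_smul, map_add, ite_smul,
        zero_smul, hr]
      congr 1
      · rw [Finset.sum_eq_single n (by intro b _ hb; simp [hb]) (by simp)]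
        simp [hr]
      · rw [← Finset.sum_add_distrib, Finset.smul_sum]
        refine Finset.sum_congr rfl fun m _ => ?_
        rw [smul_add, smul_add, smul_smul, smul_smul, smul_smul]
        congr 2
        ring
    rw [h6]
    have h7 : (((r n)⁻¹ - 1 : ℝ) : ℂ) • ((r n : ℂ) • e n + S (x n)) =
        e n - (r n : ℂ) • e n + ((r n)⁻¹ : ℂ) • S (x n) - S (x n) := by
      have hne : (r n : ℂ) ≠ 0 := by exact_mod_cast (hr0 n).ne'
      push_cast
      rw [smul_add, smul_smul, sub_mul, inv_mul_cancel₀ hne, sub_smul, sub_smul, one_smul,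
        one_mul, one_smul]
      abel
    rw [h7]
    have h8 : x n - ((r n)⁻¹ : ℂ) • S (x n) =
        κ • (QQ e (B (e n)) + QQ e (B (x n))) - κ • ∑ m, β m x n • S (x m) := by
      rw [smul_add]
      have : x n - ((r n)⁻¹ : ℂ) • S (x n) = (x n - ((r n)⁻¹ : ℂ) • S (x n) -
        κ • QQ e (B (x n))) + κ • QQ e (B (x n)) := by abel
      rw [this, h3]
      abel
    rw [h5] at h8
    rw [map_add, hr, smul_add]
    have h9 : e n + x n - ((r n : ℂ) • e n + S (x n)) - κ • B (e n + x n) =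
        (x n - ((r n)⁻¹ : ℂ) • S (x n)) + (e n - (r n : ℂ) • e n + ((r n)⁻¹ : ℂ) • S (x n) -
          S (x n)) - κ • B (e n + x n) := by abel
    rw [h9, h8, smul_sub]
    abel
  · intro m n
    rw [inner_add_right, hperp, add_zero]
    exact (orthonormal_iff_ite.1 he) m n
  · intro m n
    have h3 : (if m = n then (((r n)⁻¹ - 1 : ℝ) : ℂ) else 0) - κ * β m x n -
        (if m = n then (((r n)⁻¹ - 1 : ℝ) : ℂ) else 0) = -(κ * β m x n) := by ring
    rw [h3, norm_neg, norm_mul]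
    have h4 : ‖β m x n‖ ≤ ρ₂⁻¹ * (ε * 2) := by
      refine (hβn m x n).trans ?_
      have := (norm_le_pi_norm x n).trans hxs
      gcongr
      linarith
    refine (mul_le_mul_of_nonneg_left h4 (norm_nonneg _)).trans (le_of_eq ?_)
    field_simp

end Pool.Agent.R993.CE
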