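import Mathlib

set_option autoImplicit false

namespace Pool.Agent.R993.CE

open Complex

variable {K : Type*} [NormedAddCommGroup K] [InnerProductSpace ℂ K] [CompleteSpace K]

/-- the part of a self-adjoint operator above a level -/
lemma exists_cut (S : K →L[ℂ] K) (hS : IsSelfAdjoint S) (ρ : ℝ) :
    ∃ G : K →L[ℂ] K, IsSelfAdjoint G ∧ (∀ v, G (S v) = S (G v)) ∧
      (∀ v, ρ * ‖G v‖ ^ 2 ≤ (inner ℂ (G v) (S (G v))).re) ∧
      (∀ v, G v = 0 → (inner ℂ v (S v)).re ≤ ρ * ‖v‖ ^ 2) := by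
  set f : ℝ → ℝ := fun x => max (x - ρ) 0 with hf
  have hfc : Continuous f := by fun_prop
  set G : K →L[ℂ] K := cfc f S with hG
  have hGs : IsSelfAdjoint G := cfc_predicate f S
  have hlin : cfc (fun x : ℝ => x - ρ) S = S - (ρ : ℂ) • (1 : K →L[ℂ] K) := by
    have h1 : cfc (fun x : ℝ => x - ρ) S = cfc (fun x : ℝ => x) S - cfc (fun _ : ℝ => ρ) S :=
      cfc_sub (fun x : ℝ => x) (fun _ : ℝ => ρ) S
    rw [h1, cfc_id' ℝ S, cfc_const ρ S]
    congr 1
  refine ⟨G, hGs, ?_, ?_, ?_⟩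
  · intro v
    have h1 : Commute G S := by
      have := cfc_commute_cfc f (fun x : ℝ => x) S
      rwa [cfc_id' ℝ S] at this
    have := congrArg (fun A : K →L[ℂ] K => A v) h1.eq
    simpa using this
  · intro v
    have h1 : (0 : K →L[ℂ] K) ≤ cfc (fun x : ℝ => f x * ((x - ρ) * f x)) S := by
      apply cfc_nonneg
      intro x _
      simp only [hf]
      rcases le_total (x - ρ) 0 with h | h
      · rw [max_eq_right h]; simp
      · rw [max_eq_left h]; positivity
    have h2 : cfc (fun x : ℝ => f x * ((x - ρ) * f x)) S =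
        G * ((S - (ρ : ℂ) • (1 : K →L[ℂ] K)) * G) := by
      rw [cfc_mul f (fun x => (x - ρ) * f x) S (by fun_prop) (by fun_prop),
        cfc_mul (fun x => x - ρ) f S (by fun_prop) (by fun_prop), hlin]
    rw [h2, ContinuousLinearMap.nonneg_iff_isPositive] at h1
    have h3 := h1.re_inner_nonneg_right v
    have h4 : inner ℂ v ((G * ((S - (ρ : ℂ) • (1 : K →L[ℂ] K)) * G)) v) =
        inner ℂ (G v) (S (G v)) - (ρ : ℂ) * inner ℂ (G v) (G v) := by
      have h5 : (G * ((S - (ρ : ℂ) • (1 : K →L[ℂ] K)) * G)) v =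
          G (S (G v) - (ρ : ℂ) • G v) := by
        simp
      rw [h5, ← ContinuousLinearMap.adjoint_inner_left, hGs.adjoint_eq, inner_sub_right,
        inner_smul_right]
    rw [h4, inner_self_eq_norm_sq_to_K] at h3
    have h6 : ((ρ : ℂ) * ((‖G v‖ : ℝ) : ℂ) ^ 2).re = ρ * ‖G v‖ ^ 2 := by
      rw [← ofReal_pow, ← ofReal_mul, ofReal_re]
    simp only [RCLike.re_to_complex, Complex.sub_re, RCLike.ofReal_eq_complex_ofReal] at h3
    erw [h6] at h3
    linarith
  · intro v hv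
    have h1 : (0 : K →L[ℂ] K) ≤ cfc (fun x : ℝ => f x - (x - ρ)) S := by
      apply cfc_nonneg
      intro x _
      simp only [hf]
      linarith [le_max_left (x - ρ) 0]
    have h2 : cfc (fun x : ℝ => f x - (x - ρ)) S = G - (S - (ρ : ℂ) • (1 : K →L[ℂ] K)) := by
      rw [cfc_sub f (fun x => x - ρ) S (by fun_prop) (by fun_prop), hlin]
    rw [h2, ContinuousLinearMap.nonneg_iff_isPositive] at h1
    have h3 := h1.re_inner_nonneg_right v
    have h4 : (G - (S - (ρ : ℂ) • (1 : K →L[ℂ] K))) v = (ρ : ℂ) • v - S v := by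
      simp [hv]
    rw [h4, inner_sub_right, inner_smul_right, inner_self_eq_norm_sq_to_K] at h3
    have h6 : ((ρ : ℂ) * ((‖v‖ : ℝ) : ℂ) ^ 2).re = ρ * ‖v‖ ^ 2 := by
      rw [← ofReal_pow, ← ofReal_mul, ofReal_re]
    simp only [RCLike.re_to_complex, Complex.sub_re, RCLike.ofReal_eq_complex_ofReal] at h3
    erw [h6] at h3
    linarith

end Pool.Agent.R993.CE
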