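import Mathlib
import Pool.Agent.R993.CE.Abs2

set_option autoImplicit false

namespace Pool.Agent.R993.CE

open Complex

/-- pigeonhole: a gap among few numbers -/
lemma exists_gap (m N : ℕ) (hm : m ≤ N) (lam : Fin m → ℝ) (a b : ℝ) (hab : a < b) :
    ∃ s t : ℝ, a ≤ s ∧ s < t ∧ t ≤ b ∧ (b - a) / (N + 1) ≤ t - s ∧
      ∀ i, lam i < s ∨ t ≤ lam i := by
  by_contra hcon
  push Not at hcon
  set h : ℝ := (b - a) / (N + 1) with hh
  have hNpos : (0 : ℝ) < N + 1 := by positivity
  have hpos : 0 < h := div_pos (by linarith) hNpos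
  have hmul : h * (N + 1) = b - a := by rw [hh]; field_simp
  have key : ∀ j : Fin (N + 1), ∃ i, a + j * h ≤ lam i ∧ lam i < a + (j + 1) * h := by
    intro j
    have hj : ((j : ℕ) : ℝ) + 1 ≤ N + 1 := by
      have := j.2
      exact_mod_cast this
    refine hcon (a + j * h) (a + (j + 1) * h) ?_ ?_ ?_ ?_
    · have : (0 : ℝ) ≤ (j : ℕ) * h := by positivity
      linarith
    · nlinarith
    · nlinarith
    · linarith
  choose f hf using key
  have hinj : Function.Injective f := by
    intro j k hjk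
    by_contra hne
    rcases lt_or_gt_of_ne hne with hlt | hlt
    · have h1 := (hf j).2
      have h2 := (hf k).1
      rw [hjk] at h1
      have h3 : ((j : ℕ) : ℝ) + 1 ≤ ((k : ℕ) : ℝ) := by exact_mod_cast hlt
      nlinarith
    · have h1 := (hf k).2
      have h2 := (hf j).1
      rw [hjk] at h2
      have h3 : ((k : ℕ) : ℝ) + 1 ≤ ((j : ℕ) : ℝ) := by exact_mod_cast hlt
      nlinarith
  have := Fintype.card_le_of_injective f hinj
  simp only [Fintype.card_fin] at this
  omega

variable {K : Type*} [NormedAddCommGroup K] [InnerProductSpace ℂ K] [CompleteSpace K]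

/-- a subspace all of whose finite-dimensional subspaces have dimension `≤ N` -/
lemma finite_of_bound (R : Submodule ℂ K) (N : ℕ)
    (h : ∀ F : Submodule ℂ K, FiniteDimensional ℂ F → F ≤ R → Module.finrank ℂ F ≤ N) :
    FiniteDimensional ℂ R ∧ Module.finrank ℂ R ≤ N := by
  have hrank : Module.rank ℂ R ≤ N := by
    apply rank_le
    intro s hs
    have h1 : Module.finrank ℂ (Submodule.span ℂ (s : Set R)) = s.card :=
      finrank_span_finset_eq_card hs
    have h2 := Submodule.finrank_map_subtype_eq R (Submodule.span ℂ (s : Set R))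
    rw [← h1, ← h2]
    refine h _ ?_ (Submodule.map_subtype_le R _)
    haveI : FiniteDimensional ℂ (Submodule.span ℂ (s : Set R)) :=
      FiniteDimensional.span_finset ℂ s
    infer_instance
  have hfin : FiniteDimensional ℂ R := by
    have : Module.rank ℂ R < Cardinal.aleph0 := hrank.trans_lt (Cardinal.natCast_lt_aleph0 (n := N))
    exact Module.rank_lt_aleph0_iff.1 this
  exact ⟨hfin, h R hfin le_rfl⟩

/-- spectral data above a level -/
theorem spectral_data (S : K →L[ℂ] K) (hS : IsSelfAdjoint S) (ρa ρb : ℝ) (hab : ρa < ρb)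
    (Nmax : ℕ)
    (hN : ∀ F : Submodule ℂ K, FiniteDimensional ℂ F →
      (∀ u ∈ F, ρa * ‖u‖ ^ 2 ≤ (inner ℂ u (S u)).re) → Module.finrank ℂ F ≤ Nmax) :
    ∃ (N : ℕ) (e : Fin N → K) (r : Fin N → ℝ) (ρ₁ ρ₂ : ℝ), N ≤ Nmax ∧ Orthonormal ℂ e ∧
      (∀ n, S (e n) = (r n : ℂ) • e n) ∧ ρa ≤ ρ₁ ∧ ρ₁ < ρ₂ ∧ ρ₂ ≤ ρb ∧
      (ρb - ρa) / (Nmax + 1) ≤ ρ₂ - ρ₁ ∧ (∀ n, ρ₂ ≤ r n) ∧
      (∀ v, (∀ n, inner ℂ (e n) v = 0) → (inner ℂ v (S v)).re ≤ ρ₁ * ‖v‖ ^ 2) ∧
      (∀ F : Submodule ℂ K, FiniteDimensional ℂ F →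
        (∀ u ∈ F, ρb * ‖u‖ ^ 2 ≤ (inner ℂ u (S u)).re) → Module.finrank ℂ F ≤ N) := by
  obtain ⟨G, hG, hGS, hG1, hG2⟩ := exists_cut S hS ρa
  have hSsym : (S : K →ₗ[ℂ] K).IsSymmetric :=
    (ContinuousLinearMap.isSelfAdjoint_iff_isSymmetric).1 hS
  have hGsym : (G : K →ₗ[ℂ] K).IsSymmetric :=
    (ContinuousLinearMap.isSelfAdjoint_iff_isSymmetric).1 hG
  set R : Submodule ℂ K := LinearMap.range (G : K →ₗ[ℂ] K) with hR
  obtain ⟨hfin, hRN⟩ := finite_of_bound R Nmax (by
    intro F hF hFR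
    refine hN F hF fun u hu => ?_
    obtain ⟨v, rfl⟩ := hFR hu
    exact hG1 v)
  have hmaps : ∀ x ∈ R, (S : K →ₗ[ℂ] K) x ∈ R := by
    rintro x ⟨v, rfl⟩
    exact ⟨S v, hGS v⟩
  set T : R →ₗ[ℂ] R := (S : K →ₗ[ℂ] K).restrict hmaps with hT
  have hTsym : T.IsSymmetric := hSsym.restrict_invariant hmaps
  set m := Module.finrank ℂ R with hm
  set b := hTsym.eigenvectorBasis hm.symm with hb
  set lam := hTsym.eigenvalues hm.symm with hlam
  have hTb : ∀ i, T (b i) = (lam i : ℂ) • b i := fun i =>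
    hTsym.apply_eigenvectorBasis hm.symm i
  have hSb : ∀ i, S (b i : K) = (lam i : ℂ) • (b i : K) := by
    intro i
    have := congrArg (fun x : R => (x : K)) (hTb i)
    simpa [hT] using this
  obtain ⟨ρ₁, ρ₂, h1, h2, h3, h4, h5⟩ := exists_gap m Nmax hRN lam ρa ρb hab
  set s : Finset (Fin m) := Finset.univ.filter (fun i => ρ₂ ≤ lam i) with hs
  set N := s.card with hNdef
  have eqv : Fin N ≃ s := s.equivFin.symm
  set e : Fin N → K := fun n => (b (eqv n : Fin m) : K) with he
  have horth : Orthonormal ℂ e := by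
    have h0 : Orthonormal ℂ (fun i => (b i : K)) := by
      have := b.orthonormal
      exact this.comp_linearIsometry R.subtypeₗᵢ
    exact h0.comp (fun n : Fin N => (eqv n : Fin m)) (fun x y hxy =>
      eqv.injective (Subtype.ext hxy))
  have hbound : ∀ v, (∀ n, inner ℂ (e n) v = 0) → (inner ℂ v (S v)).re ≤ ρ₁ * ‖v‖ ^ 2 := by
    intro v hv
    haveI : R.HasOrthogonalProjection := inferInstance
    set p : R := R.orthogonalProjectionOnto v with hp
    set q : K := v - p with hq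
    have hqR : ∀ w ∈ R, inner ℂ q w = 0 := fun w hw =>
      Submodule.starProjection_inner_eq_zero (K := R) v w hw
    have hqR' : ∀ w ∈ R, inner ℂ w q = 0 := fun w hw => by
      rw [← inner_conj_symm, hqR w hw, map_zero]
    have hv' : v = (p : K) + q := by rw [hq]; abel
    have hGq : G q = 0 := by
      have h6 : inner ℂ (G q) (G q) = 0 := by
        have : inner ℂ (G q) (G q) = inner ℂ q (G (G q)) := hGsym q (G q)
        rw [this]
        exact hqR _ ⟨G q, rfl⟩
      exact inner_self_eq_zero.1 h6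
    have hqq := hG2 q hGq
    have hcoef : ∀ i, ρ₂ ≤ lam i → inner ℂ (b i) p = (0 : ℂ) := by
      intro i hi
      have his : i ∈ s := by rw [hs]; simp [hi]
      have h7 := hv (eqv.symm ⟨i, his⟩)
      simp only [he, Equiv.apply_symm_apply] at h7
      rw [hv', inner_add_right, hqR' _ (b i).2, add_zero] at h7
      exact h7
    have hpp : (inner ℂ (p : K) (S p)).re ≤ ρ₁ * ‖(p : K)‖ ^ 2 := by
      have h8 : inner ℂ (p : K) (S p) = inner ℂ p (T p) := rfl
      have h9 : inner ℂ p (T p) = ∑ i, (lam i : ℂ) * ((‖inner ℂ (b i) p‖ : ℝ) : ℂ) ^ 2 := by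
        rw [← b.sum_inner_mul_inner p (T p)]
        refine Finset.sum_congr rfl fun i _ => ?_
        have h10 : inner ℂ (b i) (T p) = (lam i : ℂ) * inner ℂ (b i) p := by
          rw [← hTsym (b i) p, hTb i, inner_smul_left]
          simp
        rw [h10, ← inner_conj_symm p (b i)]
        have h11 : (starRingEnd ℂ) (inner ℂ (b i) p) * inner ℂ (b i) p =
            ((‖inner ℂ (b i) p‖ : ℝ) : ℂ) ^ 2 := by
          rw [mul_comm, Complex.mul_conj, Complex.normSq_eq_norm_sq]
          push_cast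
          rfl
        linear_combination (lam i : ℂ) * h11
      have h12 : (inner ℂ (p : K) (S p)).re = ∑ i, lam i * ‖inner ℂ (b i) p‖ ^ 2 := by
        rw [h8, h9, Complex.re_sum]
        refine Finset.sum_congr rfl fun i _ => ?_
        rw [← ofReal_pow, ← ofReal_mul, ofReal_re]
      have h13 : ‖(p : K)‖ ^ 2 = ∑ i, ‖inner ℂ (b i) p‖ ^ 2 :=
        (b.sum_sq_norm_inner_right p).symm
      rw [h12, h13, Finset.mul_sum]
      refine Finset.sum_le_sum fun i _ => ?_
      rcases h5 i with h14 | h14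
      · exact mul_le_mul_of_nonneg_right h14.le (sq_nonneg _)
      · rw [hcoef i h14]; simp
    have hSp : S (p : K) ∈ R := hmaps p p.2
    have hcross1 : inner ℂ (p : K) (S q) = 0 := by
      have : inner ℂ (S p) q = inner ℂ (p : K) (S q) := hSsym p q
      rw [← this]; exact hqR' _ hSp
    have hcross2 : inner ℂ q (S p) = 0 := hqR _ hSp
    have hexp : inner ℂ v (S v) = inner ℂ (p : K) (S p) + inner ℂ q (S q) := by
      conv_lhs => rw [hv']
      rw [map_add, inner_add_left, inner_add_right, inner_add_right, hcross1, hcross2]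
      ring
    have hnorm : ‖v‖ ^ 2 = ‖(p : K)‖ ^ 2 + ‖q‖ ^ 2 := by
      conv_lhs => rw [hv']
      have := norm_add_sq_eq_norm_sq_add_norm_sq_of_inner_eq_zero (𝕜 := ℂ) (p : K) q
        (hqR' _ p.2)
      simpa [sq] using this
    rw [hexp, Complex.add_re, hnorm]
    have : ρa * ‖q‖ ^ 2 ≤ ρ₁ * ‖q‖ ^ 2 := mul_le_mul_of_nonneg_right h1 (sq_nonneg _)
    linarith
  refine ⟨N, e, fun n => lam (eqv n : Fin m), ρ₁, ρ₂, ?_, horth, fun n => hSb _, h1, h2, h3, h4,
    ?_, hbound, ?_⟩
  · refine le_trans ?_ hRN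
    have := Finset.card_le_univ s
    simpa using this
  · intro n
    exact (Finset.mem_filter.1 (eqv n).2).2
  · intro F hF hFb
    by_contra hcon
    push Not at hcon
    let L : F →ₗ[ℂ] (Fin N → ℂ) :=
      { toFun := fun u n => inner ℂ (e n) (u : K)
        map_add' := fun u v => by ext n; simp [inner_add_right]
        map_smul' := fun c u => by ext n; simp [inner_smul_right] }
    have hker : LinearMap.ker L ≠ ⊥ := by
      apply LinearMap.ker_ne_bot_of_finrank_lt
      simpa using hcon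
    obtain ⟨u, hu, hu0⟩ := Submodule.exists_mem_ne_zero_of_ne_bot hker
    have hu1 : ∀ n, inner ℂ (e n) (u : K) = 0 := fun n => congrFun hu n
    have h6 := hbound u hu1
    have h7 := hFb u u.2
    have h8 : 0 < ‖(u : K)‖ ^ 2 := by
      have : (u : K) ≠ 0 := fun h => hu0 (Subtype.ext h)
      positivity
    have h9 : ρ₁ < ρb := h2.trans_le h3
    nlinarith

end Pool.Agent.R993.CE
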