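import Mathlib

set_option autoImplicit false

namespace Pool.Agent.R993.CE

open Complex
open scoped ENNReal

lemma maxGen_bot {V : Type*} [AddCommGroup V] [Module ℂ V] (A : Module.End ℂ V) (μ : ℂ)
    (h : ¬ A.HasEigenvalue μ) : A.maxGenEigenspace μ = ⊥ := by
  have h1 : A.eigenspace μ = ⊥ := by
    by_contra h2
    exact h (Module.End.hasEigenvalue_iff.2 h2)
  have h2 : Function.Injective (A - μ • (1 : Module.End ℂ V)) := by
    rw [← LinearMap.ker_eq_bot, ← h1, Module.End.eigenspace_def]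
  rw [eq_bot_iff]
  intro m hm
  obtain ⟨k, hk⟩ := (Module.End.mem_maxGenEigenspace A μ m).1 hm
  rw [Module.End.pow_apply] at hk
  have h3 : ((A - μ • (1 : Module.End ℂ V))^[k]) m = ((A - μ • (1 : Module.End ℂ V))^[k]) 0 := by
    rw [hk]
    have : ∀ j : ℕ, ((A - μ • (1 : Module.End ℂ V))^[j]) 0 = 0 := by
      intro j
      induction j with
      | zero => rfl
      | succ j ih => rw [Function.iterate_succ_apply', ih, map_zero]
    exact (this k).symm
  have := h2.iterate k h3
  exact (Submodule.mem_bot ℂ).2 this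

lemma finrank_sup_le {V : Type*} [AddCommGroup V] [Module ℂ V] [FiniteDimensional ℂ V]
    (s : Finset ℂ) (p : ℂ → Submodule ℂ V) :
    Module.finrank ℂ (↥(⨆ i ∈ s, p i)) ≤ ∑ i ∈ s, Module.finrank ℂ (p i) := by
  classical
  induction s using Finset.induction_on with
  | empty => simp
  | insert a s ha ih =>
    rw [Finset.iSup_insert, Finset.sum_insert ha]
    refine (Submodule.finrank_add_le_finrank_add_finrank _ _).trans ?_
    omega

/-- the generalised eigenspaces carry at least the dimension of an invariant subspace -/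
theorem count_le {L : Type*} [AddCommGroup L] [Module ℂ L] (R : L → L → Prop)
    (V : Type*) [AddCommGroup V] [Module ℂ V] [FiniteDimensional ℂ V]
    (A : Module.End ℂ V) (Φ : V →ₗ[ℂ] L) (hinj : Function.Injective Φ)
    (hR : ∀ c, R (Φ c) (Φ (A c))) (G : ℂ → Submodule ℂ L)
    (hG : ∀ E u, (∃ (n : ℕ) (c : ℕ → L), c 0 = u ∧ c n = 0 ∧
      ∀ i < n, R (c i) (c (i + 1) + E • c i)) → u ∈ G E)
    (f : ℂ → ℝ≥0∞) (hf : ∀ E, A.HasEigenvalue E → 1 ≤ f E) :
    (Module.finrank ℂ V : ℝ≥0∞) ≤
      ∑' E : ℂ, ((Cardinal.toENat (Module.rank ℂ (G E)) : ℕ∞) : ℝ≥0∞) * f E := by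
  classical
  have hsub : ∀ E, (A.maxGenEigenspace E).map Φ ≤ G E := by
    rintro E u ⟨c, hc, rfl⟩
    obtain ⟨k, hk⟩ := (Module.End.mem_maxGenEigenspace A E c).1 hc
    apply hG
    refine ⟨k, fun i => Φ (((A - E • (1 : Module.End ℂ V)) ^ i) c), by simp, by
      simp only [hk, map_zero], ?_⟩
    intro i _
    have h1 : Φ (((A - E • (1 : Module.End ℂ V)) ^ (i + 1)) c) +
        E • Φ (((A - E • (1 : Module.End ℂ V)) ^ i) c) =
        Φ (A (((A - E • (1 : Module.End ℂ V)) ^ i) c)) := by
      rw [pow_succ', Module.End.mul_apply, LinearMap.sub_apply, map_sub, LinearMap.smul_apply,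
        Module.End.one_apply, map_smul, sub_add_cancel]
    simp only [h1]
    exact hR _
  have hrank : ∀ E, ((Module.finrank ℂ (A.maxGenEigenspace E) : ℕ) : ℝ≥0∞) ≤
      ((Cardinal.toENat (Module.rank ℂ (G E)) : ℕ∞) : ℝ≥0∞) := by
    intro E
    have h1 : ((Module.finrank ℂ (A.maxGenEigenspace E) : ℕ) : Cardinal) ≤
        Module.rank ℂ (G E) := by
      have h2 : Module.finrank ℂ (A.maxGenEigenspace E) =
          Module.finrank ℂ ((A.maxGenEigenspace E).map Φ) :=
        (LinearEquiv.finrank_eq (Submodule.equivMapOfInjective Φ hinj _))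
      rw [h2, Module.finrank_eq_rank]
      exact Submodule.rank_mono (hsub E)
    have h3 : ((Module.finrank ℂ (A.maxGenEigenspace E) : ℕ) : ℕ∞) ≤
        Cardinal.toENat (Module.rank ℂ (G E)) := by
      have := OrderHomClass.mono Cardinal.toENat h1
      rwa [map_natCast] at this
    have h4 := ENat.toENNReal_le.2 h3
    simpa using h4
  have hfin := Module.End.finite_hasEigenvalue A
  set s : Finset ℂ := hfin.toFinset with hs
  have htop : (⨆ E ∈ s, A.maxGenEigenspace E) = ⊤ := by
    rw [eq_top_iff, ← Module.End.iSup_maxGenEigenspace_eq_top A]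
    apply iSup_le
    intro E
    by_cases hE : A.HasEigenvalue E
    · have : E ∈ s := by rw [hs]; simpa using hE
      exact le_iSup₂_of_le E this le_rfl
    · rw [maxGen_bot A E hE]; exact bot_le
  have h1 : Module.finrank ℂ V ≤ ∑ E ∈ s, Module.finrank ℂ (A.maxGenEigenspace E) := by
    have := finrank_sup_le s A.maxGenEigenspace
    rw [htop, finrank_top] at this
    exact this
  calc (Module.finrank ℂ V : ℝ≥0∞)
      ≤ ((∑ E ∈ s, Module.finrank ℂ (A.maxGenEigenspace E) : ℕ) : ℝ≥0∞) := by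
        exact_mod_cast h1
    _ = ∑ E ∈ s, ((Module.finrank ℂ (A.maxGenEigenspace E) : ℕ) : ℝ≥0∞) := by push_cast; rfl
    _ ≤ ∑ E ∈ s, ((Cardinal.toENat (Module.rank ℂ (G E)) : ℕ∞) : ℝ≥0∞) * f E := by
        refine Finset.sum_le_sum fun E hE => ?_
        have hE' : A.HasEigenvalue E := by rw [hs] at hE; simpa using hE
        refine (hrank E).trans ?_
        calc _ = ((Cardinal.toENat (Module.rank ℂ (G E)) : ℕ∞) : ℝ≥0∞) * 1 := (mul_one _).symm
          _ ≤ _ := by gcongr; exact hf E hE'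
    _ ≤ _ := ENNReal.sum_le_tsum s

end Pool.Agent.R993.CE
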