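import Mathlib
import Pool.Agent.R993.CE.Abs1b
import Pool.Agent.R993.CE.Abs2b
import Pool.Agent.R993.CE.Abs3

set_option autoImplicit false

namespace Pool.Agent.R993.CE

open Complex
open scoped ENNReal

/-- Eigenvalue counting for the relation `R` from the Hilbert space data. -/
theorem abstract_main {K L : Type*} [NormedAddCommGroup K] [InnerProductSpace ℂ K]
    [CompleteSpace K] [NormedAddCommGroup L] [InnerProductSpace ℂ L] [CompleteSpace L]
    (ι β : K →L[ℂ] L) (hι : ∀ v, ‖ι v‖ ≤ ‖v‖) (hβ : ∀ v, ‖β v‖ ≤ ‖v‖)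
    (M' : ℝ) (κ : ℂ) (hκ : κ = (M' : ℂ) + I)
    (R : L → L → Prop)
    (hR : ∀ w w' : K, (∀ v : K, inner ℂ v w - inner ℂ (ι v) (ι w) - κ * inner ℂ (β v) (β w) =
      inner ℂ (ι v) (ι w')) → R (ι w) (ι w' + I • ι w))
    (ρa ρb : ℝ) (ha : 0 < ρa) (hab : ρa < ρb) (hb : ρb ≤ 1) (Nmax : ℕ)
    (hN : ∀ F : Submodule ℂ K, FiniteDimensional ℂ F →
      (∀ u ∈ F, ρa * ‖u‖ ^ 2 ≤ ‖ι u‖ ^ 2) → Module.finrank ℂ F ≤ Nmax)
    (F : Submodule ℂ K) (hF : FiniteDimensional ℂ F)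
    (hFb : ∀ u ∈ F, ρb * ‖u‖ ^ 2 ≤ ‖ι u‖ ^ 2)
    (ε : ℝ) (hε : 0 ≤ ε)
    (hA : ∀ (e : K) (r : ℝ), ρa ≤ r → ‖e‖ = 1 →
      (∀ v, inner ℂ (ι v) (ι e) = (r : ℂ) * inner ℂ v e) → ‖β e‖ ≤ ε)
    (hs1 : ‖κ‖ * (Nmax + 1) / (ρb - ρa) * (‖κ‖ * ε * (1 + 3 * Nmax / ρa)) ≤ 1 / 4)
    (hs2 : Nmax * (2 * ‖κ‖ * ε / ρa) ≤ 1 / 4)
    (G : ℂ → Submodule ℂ L)
    (hG : ∀ E u, (∃ (n : ℕ) (c : ℕ → L), c 0 = u ∧ c n = 0 ∧
      ∀ i < n, R (c i) (c (i + 1) + E • c i)) → u ∈ G E)
    (f : ℂ → ℝ≥0∞) (hf : ∀ (E : ℂ) (t : ℝ), 0 ≤ t → t ≤ ρa⁻¹ - 1 →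
      ‖E - ((t : ℂ) + I)‖ ≤ 1 / 4 → 1 ≤ f E) :
    (Module.finrank ℂ F : ℝ≥0∞) ≤
      ∑' E : ℂ, ((Cardinal.toENat (Module.rank ℂ (G E)) : ℕ∞) : ℝ≥0∞) * f E := by
  classical
  set S : K →L[ℂ] K := (ContinuousLinearMap.adjoint ι) ∘L ι with hSdef
  set B : K →L[ℂ] K := (ContinuousLinearMap.adjoint β) ∘L β with hBdef
  have hSi : ∀ u v, inner ℂ u (S v) = inner ℂ (ι u) (ι v) := by
    intro u v
    rw [hSdef, ContinuousLinearMap.comp_apply, ContinuousLinearMap.adjoint_inner_right]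
  have hBi : ∀ u v, inner ℂ u (B v) = inner ℂ (β u) (β v) := by
    intro u v
    rw [hBdef, ContinuousLinearMap.comp_apply, ContinuousLinearMap.adjoint_inner_right]
  have hSs : ∀ u v, inner ℂ (S u) v = inner ℂ u (S v) := by
    intro u v
    rw [hSi, hSdef, ContinuousLinearMap.comp_apply, ContinuousLinearMap.adjoint_inner_left]
  have hBs : ∀ u v, inner ℂ (B u) v = inner ℂ u (B v) := by
    intro u v
    rw [hBi, hBdef, ContinuousLinearMap.comp_apply, ContinuousLinearMap.adjoint_inner_left]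
  have hSre : ∀ v, (inner ℂ v (S v)).re = ‖ι v‖ ^ 2 := by
    intro v
    rw [hSi]
    exact inner_self_eq_norm_sq (𝕜 := ℂ) (ι v)
  have hBre : ∀ v, 0 ≤ (inner ℂ v (B v)).re := by
    intro v
    rw [hBi]
    have := inner_self_eq_norm_sq (𝕜 := ℂ) (β v)
    simp only [RCLike.re_to_complex] at this
    rw [this]
    positivity
  have hadj : ∀ (T : K →L[ℂ] L), (∀ v, ‖T v‖ ≤ ‖v‖) → ∀ y,
      ‖ContinuousLinearMap.adjoint T y‖ ≤ ‖y‖ := by
    intro T hT y
    have h1 : ‖ContinuousLinearMap.adjoint T‖ ≤ 1 := by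
      rw [LinearIsometryEquiv.norm_map]
      exact ContinuousLinearMap.opNorm_le_bound _ zero_le_one (fun v => by simpa using hT v)
    have := (ContinuousLinearMap.adjoint T).le_of_opNorm_le h1 y
    simpa using this
  have hSn : ∀ v, ‖S v‖ ≤ ‖v‖ := fun v => (hadj ι hι _).trans (hι v)
  have hSsa : IsSelfAdjoint S := by
    rw [ContinuousLinearMap.isSelfAdjoint_iff_isSymmetric]
    exact fun u v => hSs u v
  obtain ⟨N, e, r, ρ₁, ρ₂, hNle, he, hr, h1, h2, h3, h4, h5, h6, h7⟩ :=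
    spectral_data S hSsa ρa ρb hab Nmax (fun F' hF' hu => hN F' hF' (fun u hu' => by
      rw [← hSre]; exact hu u hu'))
  have hk := h7 F hF (fun u hu => by rw [hSre]; exact hFb u hu)
  have hBe : ∀ n, ‖B (e n)‖ ≤ ε := by
    intro n
    refine (hadj β hβ _).trans ?_
    refine hA (e n) (r n) (h1.trans (h2.le.trans (h5 n))) (he.1 n) (fun v => ?_)
    rw [← hSi, hr, inner_smul_right]
  have hρ2 : 0 < ρ₂ := ha.trans_le (h1.trans h2.le)
  have hNr : (N : ℝ) ≤ Nmax := by exact_mod_cast hNle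
  have hsmall : ‖κ‖ / (ρ₂ - ρ₁) * (‖κ‖ * ε * (1 + 3 * N / ρ₂)) ≤ 1 / 4 := by
    refine le_trans ?_ hs1
    have h8 : 1 + 3 * (N : ℝ) / ρ₂ ≤ 1 + 3 * Nmax / ρa := by
      have : 3 * (N : ℝ) / ρ₂ ≤ 3 * Nmax / ρa :=
        div_le_div₀ (by positivity) (by linarith) ha (h1.trans h2.le)
      linarith
    have h9 : ‖κ‖ / (ρ₂ - ρ₁) ≤ ‖κ‖ * (Nmax + 1) / (ρb - ρa) := by
      have hp : 0 < ρb - ρa := by linarith
      have : 0 < (ρb - ρa) / (Nmax + 1) := by positivity
      calc ‖κ‖ / (ρ₂ - ρ₁) ≤ ‖κ‖ / ((ρb - ρa) / (Nmax + 1)) :=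
            div_le_div_of_nonneg_left (norm_nonneg _) this h4
        _ = _ := by field_simp
    have hp : 0 < ρb - ρa := by linarith
    exact mul_le_mul h9 (mul_le_mul_of_nonneg_left h8 (by positivity)) (by positivity)
      (by positivity)
  obtain ⟨w, Z, hw1, hw2, hw3⟩ := riccati S B hSs hBs hBre hSn M' e he r hr ρ₁ ρ₂
    (ha.le.trans h1) h2 (h3.trans hb) h5 h6 ε hε hBe κ hκ hsmall
  have hr0 : ∀ n, 0 < r n := fun n => hρ2.trans_le (h5 n)
  -- the matrix
  set A : Matrix (Fin N) (Fin N) ℂ := Matrix.of Z + I • (1 : Matrix (Fin N) (Fin N) ℂ) with hAdef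
  let Φ : (Fin N → ℂ) →ₗ[ℂ] L :=
    { toFun := fun c => ι (∑ n, c n • w n)
      map_add' := fun c c' => by
        simp only [Pi.add_apply, add_smul, Finset.sum_add_distrib, map_add]
      map_smul' := fun a c => by
        simp only [Pi.smul_apply, smul_eq_mul, mul_smul, ← Finset.smul_sum, map_smul,
          RingHom.id_apply] }
  have hΦ : ∀ c, Φ c = ι (∑ n, c n • w n) := fun c => rfl
  have hinj : Function.Injective Φ := by
    rw [← LinearMap.ker_eq_bot, eq_bot_iff]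
    intro c hc
    rw [LinearMap.mem_ker, hΦ] at hc
    rw [Submodule.mem_bot]
    ext m
    have h8 : inner ℂ (e m) (S (∑ n, c n • w n)) = 0 := by
      rw [hSi, hc, inner_zero_right]
    rw [← hSs, hr, inner_smul_left, inner_sum] at h8
    simp only [inner_smul_right, hw2, mul_ite, mul_one, mul_zero, Finset.sum_ite_eq,
      Finset.mem_univ, if_true, Complex.conj_ofReal] at h8
    rcases mul_eq_zero.1 h8 with h9 | h9
    · exact absurd (by exact_mod_cast h9) (hr0 m).ne'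
    · exact h9
  have hRA : ∀ c, R (Φ c) (Φ (Matrix.toLin' A c)) := by
    intro c
    have h8 : Φ (Matrix.toLin' A c) = ι (∑ m, (∑ n, Z m n * c n) • w m) + I • Φ c := by
      rw [hΦ, hΦ, ← map_smul, ← map_add, Finset.smul_sum, ← Finset.sum_add_distrib]
      congr 1
      refine Finset.sum_congr rfl fun m _ => ?_
      rw [smul_smul, ← add_smul]
      congr 1
      rw [hAdef, Matrix.toLin'_apply, Matrix.add_mulVec, Matrix.smul_mulVec, Matrix.one_mulVec]
      rfl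
    rw [h8]
    refine hR _ _ (fun v => ?_)
    have h9 : (∑ n, c n • w n) - S (∑ n, c n • w n) - κ • B (∑ n, c n • w n) =
        S (∑ m, (∑ n, Z m n * c n) • w m) := by
      have h10 : ∑ m, (∑ n, Z m n * c n) • w m = ∑ n, c n • ∑ m, Z m n • w m := by
        simp only [Finset.sum_smul, Finset.smul_sum, smul_smul]
        rw [Finset.sum_comm]
        refine Finset.sum_congr rfl fun n _ => Finset.sum_congr rfl fun m _ => ?_
        rw [mul_comm]
      rw [h10, map_sum, map_sum, map_sum]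
      simp only [map_smul]
      rw [Finset.smul_sum, ← Finset.sum_sub_distrib, ← Finset.sum_sub_distrib]
      refine Finset.sum_congr rfl fun n _ => ?_
      rw [← hw1 n, smul_sub, smul_sub, smul_comm κ]
    rw [← hSi v, ← hSi v, ← hBi v, ← inner_smul_right, ← inner_sub_right, ← inner_sub_right, h9]
  have hgoal := count_le R (Fin N → ℂ) (Matrix.toLin' A) Φ hinj hRA G hG f (by
    intro E hE
    obtain ⟨k, hk⟩ := eigenvalue_mem_ball hE
    rw [Metric.mem_closedBall, dist_eq_norm] at hk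
    set η : ℝ := 2 * ‖κ‖ * ε / ρ₂ with hη
    have hη0 : 0 ≤ η := by positivity
    have h8 : ∑ j ∈ Finset.univ.erase k, ‖A k j‖ ≤ ((N : ℝ) - 1) * η := by
      have h9 : ∀ j ∈ Finset.univ.erase k, ‖A k j‖ ≤ η := by
        intro j hj
        have hne : k ≠ j := (Finset.ne_of_mem_erase hj).symm
        have := hw3 k j
        rw [if_neg hne, sub_zero] at this
        have h10 : A k j = Z k j := by
          rw [hAdef]
          simp [Matrix.one_apply, hne]
        rw [h10]; exact this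
      refine (Finset.sum_le_card_nsmul _ _ _ h9).trans (le_of_eq ?_)
      rw [Finset.card_erase_of_mem (Finset.mem_univ k), Finset.card_univ, Fintype.card_fin,
        nsmul_eq_mul, Nat.cast_sub (by have := k.2; omega)]
      simp
    have h9 : ‖A k k - ((((r k)⁻¹ - 1 : ℝ) : ℂ) + I)‖ ≤ η := by
      have := hw3 k k
      rw [if_pos rfl] at this
      have h10 : A k k = Z k k + I := by
        rw [hAdef]
        simp [Matrix.one_apply]
      rw [h10]
      have h11 : Z k k + I - ((((r k)⁻¹ - 1 : ℝ) : ℂ) + I) = Z k k - (((r k)⁻¹ - 1 : ℝ) : ℂ) := by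
        ring
      rw [h11]; exact this
    refine hf E ((r k)⁻¹ - 1) ?_ ?_ ?_
    · have hrk : r k ≤ 1 := by
        have h10 := hSn (e k)
        rw [hr, norm_smul, he.1 k, Complex.norm_real, Real.norm_of_nonneg (hr0 k).le] at h10
        simpa using h10
      have := (one_le_inv₀ (hr0 k)).2 hrk
      linarith
    · have : (r k)⁻¹ ≤ ρa⁻¹ := inv_anti₀ ha (h1.trans (h2.le.trans (h5 k)))
      linarith
    · have h10 : ‖E - ((((r k)⁻¹ - 1 : ℝ) : ℂ) + I)‖ ≤ N * η := by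
        have h11 : E - ((((r k)⁻¹ - 1 : ℝ) : ℂ) + I) =
            (E - A k k) + (A k k - ((((r k)⁻¹ - 1 : ℝ) : ℂ) + I)) := by ring
        rw [h11]
        refine (norm_add_le _ _).trans ?_
        calc _ ≤ ((N : ℝ) - 1) * η + η := add_le_add (hk.trans h8) h9
          _ = _ := by ring
      refine h10.trans (le_trans ?_ hs2)
      have h12 : η ≤ 2 * ‖κ‖ * ε / ρa :=
        div_le_div_of_nonneg_left (by positivity) ha (h1.trans h2.le)
      exact mul_le_mul hNr h12 hη0 (by positivity))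
  refine le_trans ?_ hgoal
  rw [Module.finrank_fin_fun]
  exact_mod_cast hk

end Pool.Agent.R993.CE
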