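import Mathlib

set_option autoImplicit false

namespace Pool.Agent.R993.CE

open MeasureTheory Complex Filter Topology
open scoped ENNReal ContDiff

/-- `ℝᵈ` -/
abbrev Rd (d : ℕ) : Type := EuclideanSpace ℝ (Fin d)

/-- `L²(ℝᵈ; ℂ)` -/
abbrev L2 (d : ℕ) : Type := Lp ℂ 2 (volume : Measure (Rd d))

/-- test functions -/
def IsTest {d : ℕ} (φ : Rd d → ℂ) : Prop := ContDiff ℝ ∞ φ ∧ HasCompactSupport φ

/-- `∂φ/∂x_k` -/
noncomputable def pd {d : ℕ} (k : Fin d) (φ : Rd d → ℂ) (x : Rd d) : ℂ :=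
  fderiv ℝ φ x (EuclideanSpace.single k 1)

/-- `g` is the weak gradient of `u` -/
def IsWeakGrad {d : ℕ} (u : L2 d) (g : Fin d → L2 d) : Prop :=
  ∀ (k : Fin d) (φ : Rd d → ℂ), IsTest φ → ∫ x, u x * pd k φ x = -∫ x, g k x * φ x

variable {d : ℕ}

lemma IsTest.memLp {φ : Rd d → ℂ} (h : IsTest φ) (p : ℝ≥0∞) : MemLp φ p volume :=
  h.1.continuous.memLp_of_hasCompactSupport h.2

lemma IsTest.pd {φ : Rd d → ℂ} (h : IsTest φ) (k : Fin d) : IsTest (CE.pd k φ) := by
  constructor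
  · have h1 : ContDiff ℝ ∞ (fun x => fderiv ℝ φ x) := h.1.fderiv_right (by simp)
    exact h1.clm_apply contDiff_const
  · exact h.2.fderiv_apply (𝕜 := ℝ) _

lemma IsTest.star {φ : Rd d → ℂ} (h : IsTest φ) : IsTest (fun x => (starRingEnd ℂ) (φ x)) := by
  constructor
  · exact Complex.conjCLE.contDiff.comp h.1
  · exact h.2.comp_left (g := (starRingEnd ℂ)) (map_zero _)

lemma IsTest.mul {φ : Rd d → ℂ} (h : IsTest φ) {G : Rd d → ℂ} (hG : ContDiff ℝ ∞ G) :
    IsTest (fun x => G x * φ x) :=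
  ⟨hG.mul h.1, h.2.mul_left⟩

lemma conj_memLp {ψ : Rd d → ℂ} (h : MemLp ψ 2 volume) :
    MemLp (fun x => (starRingEnd ℂ) (ψ x)) 2 volume := by
  have : MemLp (fun x => Complex.conjCLE (ψ x)) 2 volume :=
    Complex.conjCLE.toContinuousLinearMap.comp_memLp' h
  exact this

/-- `∫ u ψ` as an inner product -/
lemma integral_mul_eq {ψ : Rd d → ℂ} (h : MemLp ψ 2 volume) (u : L2 d) :
    ∫ x, u x * ψ x = inner ℂ ((conj_memLp h).toLp _) u := by
  rw [L2.inner_def]
  refine integral_congr_ae ?_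
  filter_upwards [(conj_memLp h).coeFn_toLp] with x hx
  rw [hx]
  simp [mul_comm]

lemma inner_eq_integral (u v : L2 d) : inner ℂ u v = ∫ x, (starRingEnd ℂ) (u x) * v x := by
  rw [L2.inner_def]
  refine integral_congr_ae (Eventually.of_forall fun x => ?_)
  simp [mul_comm]

lemma integrable_conj_mul (u v : L2 d) :
    Integrable (fun x => (starRingEnd ℂ) (u x) * v x) volume := by
  have := L2.integrable_inner (𝕜 := ℂ) u v
  refine this.congr (Eventually.of_forall fun x => ?_)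
  simp [mul_comm]

/-- multiplication by a bounded measurable real function -/
lemma exists_mul (m : Rd d → ℝ) (hm : Measurable m) (C : ℝ) (hC : ∀ x, |m x| ≤ C) :
    ∃ T : L2 d →L[ℂ] L2 d, (∀ u, T u =ᵐ[volume] fun x => (m x : ℂ) * u x) ∧
      ∀ u, ‖T u‖ ≤ C * ‖u‖ := by
  have hmem : ∀ u : L2 d, MemLp (fun x => (m x : ℂ) * u x) 2 volume := by
    intro u
    refine MemLp.of_le_mul (g := u) (c := C) (Lp.memLp u) ?_ ?_
    · exact (Complex.measurable_ofReal.comp hm).aestronglyMeasurable.mul (Lp.aestronglyMeasurable u)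
    · refine Eventually.of_forall fun x => ?_
      rw [norm_mul, Complex.norm_real, Real.norm_eq_abs]
      exact mul_le_mul_of_nonneg_right (hC x) (norm_nonneg _)
  have hC0 : 0 ≤ C := (abs_nonneg _).trans (hC 0)
  let T0 : L2 d →ₗ[ℂ] L2 d :=
    { toFun := fun u => (hmem u).toLp _
      map_add' := fun u v => by
        ext1
        filter_upwards [(hmem (u + v)).coeFn_toLp, (hmem u).coeFn_toLp, (hmem v).coeFn_toLp,
          Lp.coeFn_add u v, Lp.coeFn_add ((hmem u).toLp _) ((hmem v).toLp _)] with x h1 h2 h3 h4 h5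
        rw [h1, h5, Pi.add_apply, h2, h3, h4, Pi.add_apply]
        ring
      map_smul' := fun c u => by
        ext1
        filter_upwards [(hmem (c • u)).coeFn_toLp, (hmem u).coeFn_toLp,
          Lp.coeFn_smul c u, Lp.coeFn_smul c ((hmem u).toLp _)] with x h1 h2 h4 h5
        rw [h1, RingHom.id_apply, h5, Pi.smul_apply, h2, h4, Pi.smul_apply]
        simp only [smul_eq_mul]
        ring }
  have hb : ∀ u, ‖T0 u‖ ≤ C * ‖u‖ := by
    intro u
    refine Lp.norm_le_mul_norm_of_ae_le_mul ?_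
    filter_upwards [(hmem u).coeFn_toLp] with x hx
    have : (T0 u : Rd d → ℂ) x = (m x : ℂ) * u x := hx
    rw [this, norm_mul, Complex.norm_real, Real.norm_eq_abs]
    exact mul_le_mul_of_nonneg_right (hC x) (norm_nonneg _)
  exact ⟨T0.mkContinuous C hb, fun u => (hmem u).coeFn_toLp, hb⟩

/-- `{(u, v) : v = m u}` is closed -/
lemma closed_mul (m : Rd d → ℝ) (un vn : ℕ → L2 d) (u v : L2 d)
    (hu : Tendsto un atTop (𝓝 u)) (hv : Tendsto vn atTop (𝓝 v))
    (h : ∀ n, ∀ᵐ x, vn n x = (m x : ℂ) * un n x) : ∀ᵐ x, v x = (m x : ℂ) * u x := by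
  have h1 := tendstoInMeasure_of_tendsto_Lp hu
  obtain ⟨ns, hns, h2⟩ := h1.exists_seq_tendsto_ae
  have h3 := tendstoInMeasure_of_tendsto_Lp (hv.comp hns.tendsto_atTop)
  obtain ⟨ms, hms, h4⟩ := h3.exists_seq_tendsto_ae
  have h5 : ∀ᵐ x, ∀ n, vn n x = (m x : ℂ) * un n x := ae_all_iff.2 h
  filter_upwards [h2, h4, h5] with x h6 h7 h8
  have h9 : Tendsto (fun i => (m x : ℂ) * un (ns (ms i)) x) atTop (𝓝 ((m x : ℂ) * u x)) :=
    (h6.comp hms.tendsto_atTop).const_mul _
  refine tendsto_nhds_unique h7 ?_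
  refine h9.congr fun i => ?_
  exact (h8 _).symm

/-- the ambient Hilbert space of triples `(u, m u, h ∇u)` -/
abbrev HH (d : ℕ) : Type := PiLp 2 (fun _ : Option (Option (Fin d)) => L2 d)

/-- the form domain of `-h²Δ + m²`, as a subspace of triples -/
noncomputable def Kc (h : ℝ) (m : Rd d → ℝ) : Submodule ℂ (HH d) where
  carrier := {w | (∀ᵐ x, w (some none) x = (m x : ℂ) * w none x) ∧
    ∀ (k : Fin d) (φ : Rd d → ℂ), IsTest φ →
      (h : ℂ) * ∫ x, w none x * pd k φ x = -∫ x, w (some (some k)) x * φ x}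
  add_mem' := by
    rintro a b ⟨ha1, ha2⟩ ⟨hb1, hb2⟩
    refine ⟨?_, fun k φ hφ => ?_⟩
    · filter_upwards [ha1, hb1, Lp.coeFn_add (a (some none)) (b (some none)),
        Lp.coeFn_add (a none) (b none)] with x h1 h2 h3 h4
      rw [PiLp.add_apply, PiLp.add_apply, h3, h4, Pi.add_apply, Pi.add_apply, h1, h2]
      ring
    · have h1 := ha2 k φ hφ
      have h2 := hb2 k φ hφ
      rw [integral_mul_eq ((hφ.pd k).memLp 2), integral_mul_eq (hφ.memLp 2)] at *
      rw [PiLp.add_apply, PiLp.add_apply, inner_add_right, inner_add_right, mul_add, h1, h2]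
      ring
  zero_mem' := by
    refine ⟨?_, fun k φ hφ => ?_⟩
    · filter_upwards [Lp.coeFn_zero ℂ 2 (volume : Measure (Rd d))] with x h1
      rw [PiLp.zero_apply, PiLp.zero_apply, h1]
      simp
    · rw [integral_mul_eq ((hφ.pd k).memLp 2), integral_mul_eq (hφ.memLp 2)]
      rw [PiLp.zero_apply, PiLp.zero_apply, inner_zero_right, inner_zero_right]
      simp
  smul_mem' := by
    rintro c a ⟨ha1, ha2⟩
    refine ⟨?_, fun k φ hφ => ?_⟩
    · filter_upwards [ha1, Lp.coeFn_smul c (a (some none)),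
        Lp.coeFn_smul c (a none)] with x h1 h3 h4
      rw [PiLp.smul_apply, PiLp.smul_apply, h3, h4, Pi.smul_apply, Pi.smul_apply, h1]
      simp only [smul_eq_mul]
      ring
    · have h1 := ha2 k φ hφ
      rw [integral_mul_eq ((hφ.pd k).memLp 2), integral_mul_eq (hφ.memLp 2)] at *
      rw [PiLp.smul_apply, PiLp.smul_apply, inner_smul_right, inner_smul_right]
      linear_combination c * h1

lemma tendsto_coord {wn : ℕ → HH d} {w : HH d} (h : Tendsto wn atTop (𝓝 w))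
    (i : Option (Option (Fin d))) : Tendsto (fun n => wn n i) atTop (𝓝 (w i)) := by
  have : Continuous fun w : HH d => w i := (PiLp.continuous_apply 2 _ i)
  exact (this.tendsto w).comp h

lemma isClosed_Kc (h : ℝ) (m : Rd d → ℝ) : IsClosed (Kc h m : Set (HH d)) := by
  rw [← isSeqClosed_iff_isClosed]
  intro wn w hwn hw
  refine ⟨closed_mul m (fun n => wn n none) (fun n => wn n (some none)) _ _ (tendsto_coord hw none)
    (tendsto_coord hw (some none)) (fun n => (hwn n).1), fun k φ hφ => ?_⟩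
  have h1 : ∀ n, (h : ℂ) * ∫ x, wn n none x * pd k φ x = -∫ x, wn n (some (some k)) x * φ x :=
    fun n => (hwn n).2 k φ hφ
  simp only [integral_mul_eq ((hφ.pd k).memLp 2), integral_mul_eq (hφ.memLp 2)] at h1 ⊢
  have h2 : Tendsto (fun n => (h : ℂ) * inner ℂ ((conj_memLp ((hφ.pd k).memLp 2)).toLp _)
      (wn n none)) atTop (𝓝 ((h : ℂ) * inner ℂ ((conj_memLp ((hφ.pd k).memLp 2)).toLp _)
      (w none))) := (tendsto_const_nhds.inner (tendsto_coord hw none)).const_mul _
  have h3 : Tendsto (fun n => -inner ℂ ((conj_memLp (hφ.memLp 2)).toLp _)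
      (wn n (some (some k)))) atTop (𝓝 (-inner ℂ ((conj_memLp (hφ.memLp 2)).toLp _)
      (w (some (some k))))) := (tendsto_const_nhds.inner (tendsto_coord hw (some (some k)))).neg
  refine tendsto_nhds_unique h2 (h3.congr fun n => (h1 n).symm)

instance (h : ℝ) (m : Rd d → ℝ) : CompleteSpace (Kc h m) :=
  (isClosed_Kc h m).completeSpace_coe

/-- first coordinate -/
noncomputable def iota (h : ℝ) (m : Rd d → ℝ) : Kc h m →L[ℂ] L2 d :=
  (PiLp.proj 2 (fun _ : Option (Option (Fin d)) => L2 d) none).comp (Kc h m).subtypeL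

@[simp] lemma iota_apply (h : ℝ) (m : Rd d → ℝ) (w : Kc h m) :
    iota h m w = (w : HH d) none := rfl

lemma norm_sq_Kc (h : ℝ) (m : Rd d → ℝ) (w : Kc h m) :
    ‖w‖ ^ 2 = ‖(w : HH d) none‖ ^ 2 + (‖(w : HH d) (some none)‖ ^ 2 +
      ∑ k, ‖(w : HH d) (some (some k))‖ ^ 2) := by
  rw [Submodule.coe_norm, PiLp.norm_sq_eq_of_L2, Fintype.sum_option, Fintype.sum_option]

lemma norm_iota_le (h : ℝ) (m : Rd d → ℝ) (w : Kc h m) : ‖iota h m w‖ ≤ ‖w‖ := by
  have h1 := norm_sq_Kc h m w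
  have h2 : ‖iota h m w‖ ^ 2 ≤ ‖w‖ ^ 2 := by
    rw [h1, iota_apply]
    have : 0 ≤ ‖(w : HH d) (some none)‖ ^ 2 + ∑ k, ‖(w : HH d) (some (some k))‖ ^ 2 := by
      positivity
    linarith
  exact le_of_sq_le_sq h2 (norm_nonneg _)

lemma inner_Kc (h : ℝ) (m : Rd d → ℝ) (v w : Kc h m) :
    inner ℂ v w = inner ℂ ((v : HH d) none) ((w : HH d) none) +
      (inner ℂ ((v : HH d) (some none)) ((w : HH d) (some none)) +
      ∑ k, inner ℂ ((v : HH d) (some (some k))) ((w : HH d) (some (some k)))) := by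
  rw [Submodule.coe_inner, PiLp.inner_apply, Fintype.sum_option, Fintype.sum_option]

end Pool.Agent.R993.CE
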