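import Mathlib
import Pool.Agent.R993.CE.Space

set_option autoImplicit false

namespace Pool.Agent.R993.CE

open MeasureTheory Complex Filter Topology
open scoped ENNReal ContDiff

variable {d : ℕ}

lemma IsTest.sub_const {φ : Rd d → ℂ} (h : IsTest φ) (a : Rd d) : IsTest (fun x => φ (x - a)) := by
  refine ⟨h.1.comp (contDiff_id.sub contDiff_const), ?_⟩
  exact h.2.comp_homeomorph (Homeomorph.subRight a)

lemma pd_sub_const (φ : Rd d → ℂ) (a : Rd d) (k : Fin d) (x : Rd d) :
    pd k (fun x => φ (x - a)) x = pd k φ (x - a) := by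
  unfold pd
  rw [fderiv_comp_sub]

lemma fderiv_eq_sum (φ : Rd d → ℂ) (x y : Rd d) :
    fderiv ℝ φ x y = ∑ k, (y k : ℂ) * pd k φ x := by
  have h1 : y = ∑ k, y k • EuclideanSpace.single k (1 : ℝ) := by
    ext i
    simp [Pi.single_apply]
  conv_lhs => rw [h1]
  rw [map_sum]
  refine Finset.sum_congr rfl fun k _ => ?_
  rw [map_smul]
  simp [pd]

/-- the `L²` norm of the gradient -/
noncomputable def GG (g : Fin d → L2 d) : ℝ := √(∑ k, ‖g k‖ ^ 2)

lemma norm_sum_smul_le (g : Fin d → L2 d) (y : Rd d) :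
    ‖∑ k, (y k : ℂ) • g k‖ ≤ ‖y‖ * GG g := by
  refine (norm_sum_le _ _).trans ?_
  have h1 : ∀ k ∈ Finset.univ, ‖(y k : ℂ) • g k‖ = |y k| * ‖g k‖ := by
    intro k _
    rw [norm_smul, Complex.norm_real, Real.norm_eq_abs]
  rw [Finset.sum_congr rfl h1]
  have h2 := Real.sum_mul_le_sqrt_mul_sqrt Finset.univ (fun k => |y k|) (fun k => ‖g k‖)
  refine h2.trans (le_of_eq ?_)
  unfold GG
  rw [EuclideanSpace.norm_eq]
  simp

lemma norm_toLp_sub_const {φ : Rd d → ℂ} (h : IsTest φ) (a : Rd d) :
    ‖(conj_memLp ((h.sub_const a).memLp 2)).toLp _‖ = ‖(conj_memLp (h.memLp 2)).toLp _‖ := by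
  rw [Lp.norm_toLp, Lp.norm_toLp]
  have h1 : MeasurePreserving (fun x : Rd d => x - a) volume volume :=
    measurePreserving_sub_right volume a
  have := eLpNorm_comp_measurePreserving (p := 2)
    (g := fun x => (starRingEnd ℂ) (φ x)) (conj_memLp (h.memLp 2)).aestronglyMeasurable h1
  rw [← this]
  rfl

lemma test_shift_le (u : L2 d) (g : Fin d → L2 d) (hg : IsWeakGrad u g) {φ : Rd d → ℂ}
    (hφ : IsTest φ) (y : Rd d) :
    ‖(∫ x, u x * φ (x - y)) - ∫ x, u x * φ x‖ ≤
      ‖y‖ * GG g * ‖(conj_memLp (hφ.memLp 2)).toLp _‖ := by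
  obtain ⟨C, hC⟩ : ∃ C, ∀ x, ‖fderiv ℝ φ x‖ ≤ C := by
    have h1 : Continuous (fderiv ℝ φ) := hφ.1.continuous_fderiv (by simp)
    have h2 : HasCompactSupport (fderiv ℝ φ) := hφ.2.fderiv (𝕜 := ℝ)
    obtain ⟨C, hC⟩ := h2.exists_bound_of_continuous h1
    exact ⟨C, hC⟩
  have hC0 : 0 ≤ C := (norm_nonneg _).trans (hC 0)
  obtain ⟨R, hR⟩ : ∃ R : ℝ, ∀ x, R < ‖x‖ → fderiv ℝ φ x = 0 := by
    have h2 : HasCompactSupport (fderiv ℝ φ) := hφ.2.fderiv (𝕜 := ℝ)
    obtain ⟨R, hR⟩ := h2.isCompact.isBounded.subset_closedBall 0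
    refine ⟨R, fun x hx => ?_⟩
    by_contra h3
    have h4 := hR (subset_tsupport _ h3)
    rw [mem_closedBall_zero_iff] at h4
    linarith
  have hder : ∀ t : ℝ, HasDerivAt (fun t : ℝ => ∫ x, u x * φ (x - t • y))
      (∑ k, (y k : ℂ) * ∫ x, g k x * φ (x - t • y)) t := by
    intro t
    set R' : ℝ := R + (|t| + 1) * ‖y‖ with hR'
    have hkey := hasDerivAt_integral_of_dominated_loc_of_deriv_le
      (μ := (volume : Measure (Rd d))) (𝕜 := ℝ) (x₀ := t)
      (F := fun t x => u x * φ (x - t • y))
      (F' := fun t x => u x * fderiv ℝ φ (x - t • y) (-y))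
      (bound := fun x => ‖u x‖ * (Metric.closedBall (0 : Rd d) R').indicator
        (fun _ => C * ‖y‖) x) (s := Metric.ball t 1)
      (Metric.ball_mem_nhds t one_pos) ?_ ?_ ?_ ?_ ?_ ?_
    · convert! hkey.2 using 1
      have h3 : ∀ x, u x * fderiv ℝ φ (x - t • y) (-y) =
          -∑ k, (y k : ℂ) * (u x * pd k (fun x => φ (x - t • y)) x) := by
        intro x
        rw [map_neg, fderiv_eq_sum, mul_neg, Finset.mul_sum]
        congr 1
        refine Finset.sum_congr rfl fun k _ => ?_
        rw [pd_sub_const]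
        ring
      simp only [h3]
      rw [integral_neg, integral_finsetSum]
      · rw [← Finset.sum_neg_distrib]
        refine Finset.sum_congr rfl fun k _ => ?_
        rw [integral_const_mul, hg k _ (hφ.sub_const (t • y))]
        ring
      · intro k _
        have h4 := integrable_conj_mul ((conj_memLp (((hφ.sub_const (t • y)).pd k).memLp 2)).toLp _) u
        refine Integrable.const_mul ?_ _
        refine h4.congr ?_
        filter_upwards [(conj_memLp (((hφ.sub_const (t • y)).pd k).memLp 2)).coeFn_toLp] with x hx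
        rw [hx]
        simp [mul_comm]
    · refine Eventually.of_forall fun s => ?_
      exact (Lp.aestronglyMeasurable u).mul
        (hφ.sub_const (s • y)).1.continuous.aestronglyMeasurable
    · have h4 := integrable_conj_mul ((conj_memLp ((hφ.sub_const (t • y)).memLp 2)).toLp _) u
      refine h4.congr ?_
      filter_upwards [(conj_memLp ((hφ.sub_const (t • y)).memLp 2)).coeFn_toLp] with x hx
      rw [hx]
      simp [mul_comm]
    · refine (Lp.aestronglyMeasurable u).mul ?_
      have h1 : Continuous (fderiv ℝ φ) := hφ.1.continuous_fderiv (by simp)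
      have h5 : Continuous fun x : Rd d => fderiv ℝ φ (x - t • y) (-y) := by fun_prop
      exact h5.aestronglyMeasurable
    · refine Eventually.of_forall fun x s hs => ?_
      rw [norm_mul]
      refine mul_le_mul_of_nonneg_left ?_ (norm_nonneg _)
      by_cases hx : x ∈ Metric.closedBall (0 : Rd d) R'
      · rw [Set.indicator_of_mem hx]
        refine ((fderiv ℝ φ (x - s • y)).le_opNorm _).trans ?_
        rw [norm_neg]
        exact mul_le_mul_of_nonneg_right (hC _) (norm_nonneg _)
      · rw [Set.indicator_of_notMem hx]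
        have h5 : R < ‖x - s • y‖ := by
          rw [mem_closedBall_zero_iff, not_le] at hx
          have h6 : ‖x‖ ≤ ‖x - s • y‖ + ‖s • y‖ := by
            have := norm_add_le (x - s • y) (s • y)
            rwa [sub_add_cancel] at this
          have h7 : ‖s • y‖ ≤ (|t| + 1) * ‖y‖ := by
            rw [norm_smul, Real.norm_eq_abs]
            refine mul_le_mul_of_nonneg_right ?_ (norm_nonneg _)
            rw [Metric.mem_ball, Real.dist_eq] at hs
            have := abs_sub_abs_le_abs_sub s t
            linarith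
          rw [hR'] at hx
          linarith
        rw [hR _ h5]
        simp
    · have h1 : MemLp (fun x => ‖u x‖) 2 (volume : Measure (Rd d)) := (Lp.memLp u).norm
      have h2 : MemLp ((Metric.closedBall (0 : Rd d) R').indicator
          (fun _ => C * ‖y‖)) 2 (volume : Measure (Rd d)) :=
        memLp_indicator_const 2 measurableSet_closedBall _ (Or.inr (by
          exact (measure_closedBall_lt_top).ne))
      exact h1.integrable_mul h2
    · refine Eventually.of_forall fun x s _ => ?_
      have h1 : HasDerivAt (fun s : ℝ => x - s • y) (-y) s := by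
        have := ((hasDerivAt_id s).smul_const y).const_sub x
        simpa using this
      have h2 : HasFDerivAt φ (fderiv ℝ φ (x - s • y)) (x - s • y) :=
        (hφ.1.differentiable (by simp) _).hasFDerivAt
      exact (h2.comp_hasDerivAt s h1).const_mul _
  have hmv := norm_image_sub_le_of_norm_deriv_le_segment_01'
    (f := fun t : ℝ => ∫ x, u x * φ (x - t • y))
    (f' := fun t : ℝ => ∑ k, (y k : ℂ) * ∫ x, g k x * φ (x - t • y))
    (C := ‖y‖ * GG g * ‖(conj_memLp (hφ.memLp 2)).toLp _‖)
    (fun t _ => (hder t).hasDerivWithinAt) (by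
      intro t _
      have h1 : ∑ k, (y k : ℂ) * ∫ x, g k x * φ (x - t • y) =
          inner ℂ ((conj_memLp ((hφ.sub_const (t • y)).memLp 2)).toLp _)
            (∑ k, (y k : ℂ) • g k) := by
        rw [inner_sum]
        refine Finset.sum_congr rfl fun k _ => ?_
        rw [inner_smul_right, integral_mul_eq ((hφ.sub_const (t • y)).memLp 2)]
      rw [h1]
      refine (norm_inner_le_norm _ _).trans ?_
      rw [norm_toLp_sub_const hφ, mul_comm]
      exact mul_le_mul_of_nonneg_right (norm_sum_smul_le g y) (norm_nonneg _))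
  simpa using hmv

/-- translation in `L²` -/
noncomputable def tau (y : Rd d) (u : L2 d) : L2 d :=
  Lp.compMeasurePreserving (fun x : Rd d => x + y) (measurePreserving_add_right volume y) u

lemma tau_coe (y : Rd d) (u : L2 d) : tau y u =ᵐ[volume] fun x => u (x + y) :=
  Lp.coeFn_compMeasurePreserving u (measurePreserving_add_right volume y)

theorem norm_sub_tau_le (u : L2 d) (g : Fin d → L2 d) (hg : IsWeakGrad u g) (y : Rd d) :
    ‖u - tau y u‖ ≤ ‖y‖ * GG g := by
  set z := u - tau y u with hz
  set C := ‖y‖ * GG g with hC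
  have hC0 : 0 ≤ C := mul_nonneg (norm_nonneg _) (Real.sqrt_nonneg _)
  have hall : ∀ v : L2 d, ‖inner ℂ v z‖ ≤ C * ‖v‖ := by
    have hclosed : IsClosed {v : L2 d | ‖inner ℂ v z‖ ≤ C * ‖v‖} := by
      apply isClosed_le
      · fun_prop
      · fun_prop
    have hdense := Lp.dense_hasCompactSupport_contDiff (E := Rd d) (F := ℂ)
      (μ := (volume : Measure (Rd d))) (p := 2) (by norm_num)
    have hsub : {f : L2 d | ∃ (g : Rd d → ℂ), f =ᵐ[volume] g ∧ HasCompactSupport g ∧
        ContDiff ℝ ∞ g} ⊆ {v : L2 d | ‖inner ℂ v z‖ ≤ C * ‖v‖} := by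
      rintro f ⟨φ, hf, hφ2, hφ1⟩
      have hφ : IsTest φ := ⟨hφ1, hφ2⟩
      have hst : IsTest (fun x => (starRingEnd ℂ) (φ x)) := hφ.star
      have e1 : inner ℂ f u = ∫ x, u x * (starRingEnd ℂ) (φ x) := by
        rw [inner_eq_integral]
        refine integral_congr_ae ?_
        filter_upwards [hf] with x hx
        rw [hx, mul_comm]
      have e2 : inner ℂ f (tau y u) = ∫ x, u x * (starRingEnd ℂ) (φ (x - y)) := by
        rw [inner_eq_integral]
        have h3 : ∫ x, u x * (starRingEnd ℂ) (φ (x - y)) =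
            ∫ x, u (x + y) * (starRingEnd ℂ) (φ (x + y - y)) :=
          (integral_add_right_eq_self (fun x => u x * (starRingEnd ℂ) (φ (x - y))) y).symm
        rw [h3]
        refine integral_congr_ae ?_
        filter_upwards [hf, tau_coe y u] with x hx hx2
        rw [hx, hx2, add_sub_cancel_right, mul_comm]
      have e3 : inner ℂ f z = -((∫ x, u x * (starRingEnd ℂ) (φ (x - y))) -
          ∫ x, u x * (starRingEnd ℂ) (φ x)) := by
        rw [hz, inner_sub_right, e1, e2]
        ring
      have e4 : ‖(conj_memLp (hst.memLp 2)).toLp _‖ = ‖f‖ := by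
        rw [Lp.norm_toLp, Lp.norm_def]
        congr 1
        apply eLpNorm_congr_ae
        filter_upwards [hf] with x hx
        rw [hx, Complex.conj_conj]
      have := test_shift_le u g hg hst y
      change ‖inner ℂ f z‖ ≤ C * ‖f‖
      rw [e3, norm_neg, ← e4]
      exact this
    intro v
    have h1 := hdense.mono hsub
    have h2 := h1.closure_eq
    rw [hclosed.closure_eq] at h2
    have h3 : v ∈ (Set.univ : Set (L2 d)) := Set.mem_univ v
    rw [← h2] at h3
    exact h3
  have h1 := hall z
  have h2 : ‖inner ℂ z z‖ = ‖z‖ ^ 2 := by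
    rw [inner_self_eq_norm_sq_to_K]
    simp
  rw [h2] at h1
  rcases (norm_nonneg z).eq_or_lt with h3 | h3
  · rw [← h3]; exact hC0
  · rw [sq] at h1
    exact le_of_mul_le_mul_right h1 h3

end Pool.Agent.R993.CE
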