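import Mathlib
import Pool.Agent.R993.CE.Trans

set_option autoImplicit false

namespace Pool.Agent.R993.CE

open MeasureTheory Complex Filter Topology
open scoped ENNReal ContDiff

variable {d : ℕ}

lemma norm_sq_L2 (u : L2 d) : ‖u‖ ^ 2 = ∫ x, ‖u x‖ ^ 2 := by
  have h1 : inner ℂ u u = ((∫ x, ‖u x‖ ^ 2 : ℝ) : ℂ) := by
    rw [inner_eq_integral, ← integral_complex_ofReal]
    refine integral_congr_ae (Eventually.of_forall fun x => ?_)
    simp only
    rw [mul_comm, Complex.mul_conj, Complex.normSq_eq_norm_sq]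
  have h2 : ‖u‖ ^ 2 = (inner ℂ u u).re := (inner_self_eq_norm_sq (𝕜 := ℂ) u).symm
  rw [h2, h1, Complex.ofReal_re]

lemma integrable_norm_sq (u : L2 d) : Integrable (fun x => ‖u x‖ ^ 2) (volume : Measure (Rd d)) :=
  (Lp.memLp u).integrable_norm_pow (by norm_num)

lemma lintegral_enorm_sq (u : L2 d) : ∫⁻ x, ‖u x‖ₑ ^ 2 = ENNReal.ofReal (‖u‖ ^ 2) := by
  rw [norm_sq_L2, ofReal_integral_eq_lintegral_ofReal (integrable_norm_sq u)
    (Eventually.of_forall fun x => by positivity)]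
  refine lintegral_congr fun x => ?_
  rw [ENNReal.ofReal_pow (norm_nonneg _), ofReal_norm]

/-- the average trick -/
lemma avg_trick (u : L2 d) (Q : Set (Rd d)) (hQ : MeasurableSet Q) (hQf : volume Q ≠ ⊤)
    (h0 : ∫ z in Q, u z = 0) (c : ℂ) :
    volume Q * ‖c‖ₑ ^ 2 ≤ ∫⁻ z in Q, ‖c - u z‖ₑ ^ 2 := by
  have : IsFiniteMeasure (volume.restrict Q) := ⟨by
    rw [Measure.restrict_apply_univ]; exact lt_top_iff_ne_top.2 hQf⟩
  have hu2 : MemLp (u : Rd d → ℂ) 2 (volume.restrict Q) := (Lp.memLp u).restrict Q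
  have hu1 : Integrable (u : Rd d → ℂ) (volume.restrict Q) := hu2.integrable (by norm_num)
  have hus : Integrable (fun z => ‖u z‖ ^ 2) (volume.restrict Q) :=
    hu2.integrable_norm_pow (by norm_num)
  have hint : Integrable (fun z => ‖c - u z‖ ^ 2) (volume.restrict Q) :=
    ((memLp_const c).sub hu2).integrable_norm_pow (by norm_num)
  have e1 : ∫ z in Q, ‖c - u z‖ ^ 2 = volume.real Q * ‖c‖ ^ 2 + ∫ z in Q, ‖u z‖ ^ 2 := by
    have e2 : ∀ z, ‖c - u z‖ ^ 2 = ‖c‖ ^ 2 - 2 * ((starRingEnd ℂ) c * u z).re + ‖u z‖ ^ 2 := by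
      intro z
      have := @norm_sub_sq ℂ ℂ _ _ _ c (u z)
      rw [this]
      simp [mul_comm]
    simp only [e2]
    have hre : Integrable (fun z => 2 * ((starRingEnd ℂ) c * u z).re) (volume.restrict Q) :=
      ((hu1.const_mul _).re).const_mul 2
    rw [integral_add (f := fun z => ‖c‖ ^ 2 - 2 * ((starRingEnd ℂ) c * u z).re)
      ((integrable_const _).sub hre) hus, integral_sub (integrable_const _) hre,
      integral_const_mul]
    have e3 : ∫ z in Q, ((starRingEnd ℂ) c * u z).re = 0 := by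
      have := integral_re (μ := volume.restrict Q) (hu1.const_mul ((starRingEnd ℂ) c))
      simp only [RCLike.re_to_complex] at this
      rw [this, integral_const_mul, h0, mul_zero]
      simp
    rw [e3]
    simp
  have e2 : ∫⁻ z in Q, ‖c - u z‖ₑ ^ 2 = ENNReal.ofReal (∫ z in Q, ‖c - u z‖ ^ 2) := by
    rw [ofReal_integral_eq_lintegral_ofReal hint (Eventually.of_forall fun x => by positivity)]
    refine lintegral_congr fun x => ?_
    rw [ENNReal.ofReal_pow (norm_nonneg _), ofReal_norm]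
  rw [e2, e1]
  have e3 : volume Q * ‖c‖ₑ ^ 2 = ENNReal.ofReal (volume.real Q * ‖c‖ ^ 2) := by
    rw [ENNReal.ofReal_mul measureReal_nonneg, ENNReal.ofReal_pow (norm_nonneg _),
      ofReal_norm, ofReal_measureReal hQf]
  rw [e3]
  apply ENNReal.ofReal_le_ofReal
  have : 0 ≤ ∫ z in Q, ‖u z‖ ^ 2 := integral_nonneg fun z => by positivity
  linarith

/-- the mass carried by small sets with zero average -/
theorem cover_bound {J : Type*} (u : L2 d) (g : Fin d → L2 d) (hg : IsWeakGrad u g)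
    (z : J → Rd d) (r : ℝ) (hr : 0 < r)
    (h0 : ∀ j, ∫ x in Metric.closedBall (z j) r, u x = 0)
    (S : Set (Rd d)) (hS : MeasurableSet S) (hcov : ∀ x ∈ S, ∃ j, x ∈ Metric.closedBall (z j) r) :
    ∫ x in S, ‖u x‖ ^ 2 ≤ 2 ^ d * ((2 * r) ^ 2 * GG g ^ 2) := by
  set q : ℝ≥0∞ := volume (Metric.closedBall (0 : Rd d) r) with hq
  have hq0 : q ≠ 0 := (Metric.measure_closedBall_pos volume _ hr).ne'
  have hqt : q ≠ ⊤ := measure_closedBall_lt_top.ne
  set D : Set (Rd d) := Metric.closedBall 0 (2 * r) with hD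
  have hDq : volume D = ENNReal.ofReal (2 ^ d) * q := by
    rw [hD, hq, Measure.addHaar_closedBall _ _ (by positivity),
      Measure.addHaar_closedBall _ _ hr.le, finrank_euclideanSpace, Fintype.card_fin, mul_pow,
      ENNReal.ofReal_mul (by positivity), mul_assoc]
  have hmeas : Measurable (u : Rd d → ℂ) := (Lp.stronglyMeasurable u).measurable
  have hpt : ∀ x ∈ S, q * ‖u x‖ₑ ^ 2 ≤ ∫⁻ y in D, ‖u x - u (x + y)‖ₑ ^ 2 := by
    intro x hx
    obtain ⟨j, hj⟩ := hcov x hx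
    have h1 := avg_trick u (Metric.closedBall (z j) r) measurableSet_closedBall
      (measure_closedBall_lt_top.ne) (h0 j) (u x)
    have h2 : volume (Metric.closedBall (z j) r) = q := by
      rw [hq, Measure.addHaar_closedBall_center]
    rw [h2] at h1
    refine h1.trans ?_
    have h3 : ∫⁻ y in D, ‖u x - u (x + y)‖ₑ ^ 2 =
        ∫⁻ z' in Metric.closedBall x (2 * r), ‖u x - u z'‖ₑ ^ 2 := by
      have h4 : MeasurePreserving (fun y : Rd d => x + y) volume volume :=
        measurePreserving_add_left volume x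
      have h5 := h4.setLIntegral_comp_preimage (measurableSet_closedBall (x := x) (ε := 2 * r))
        (f := fun z' => ‖u x - u z'‖ₑ ^ 2) (by fun_prop)
      rw [← h5]
      congr 2
      ext y
      simp [hD]
    rw [h3]
    apply lintegral_mono_set
    intro w hw
    rw [Metric.mem_closedBall] at *
    have := dist_triangle_right w x (z j)
    linarith
  have h1 : q * ∫⁻ x in S, ‖u x‖ₑ ^ 2 ≤ q * ENNReal.ofReal (2 ^ d * ((2 * r) ^ 2 * GG g ^ 2)) := by
    calc q * ∫⁻ x in S, ‖u x‖ₑ ^ 2 = ∫⁻ x in S, q * ‖u x‖ₑ ^ 2 := by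
          rw [lintegral_const_mul _ (by fun_prop)]
      _ ≤ ∫⁻ x in S, ∫⁻ y in D, ‖u x - u (x + y)‖ₑ ^ 2 := setLIntegral_mono' hS hpt
      _ ≤ ∫⁻ x, ∫⁻ y in D, ‖u x - u (x + y)‖ₑ ^ 2 := setLIntegral_le_lintegral _ _
      _ = ∫⁻ y in D, ∫⁻ x, ‖u x - u (x + y)‖ₑ ^ 2 := by
          rw [lintegral_lintegral_swap]
          have : Measurable (fun p : Rd d × Rd d => ‖u p.1 - u (p.1 + p.2)‖ₑ ^ 2) := by fun_prop
          exact this.aemeasurable
      _ ≤ ∫⁻ y in D, ENNReal.ofReal ((2 * r) ^ 2 * GG g ^ 2) := by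
          refine setLIntegral_mono' measurableSet_closedBall fun y hy => ?_
          have h2 : ∫⁻ x, ‖u x - u (x + y)‖ₑ ^ 2 = ∫⁻ x, ‖(u - tau y u : L2 d) x‖ₑ ^ 2 := by
            refine lintegral_congr_ae ?_
            filter_upwards [Lp.coeFn_sub u (tau y u), tau_coe y u] with x h3 h4
            rw [h3, Pi.sub_apply, h4]
          rw [h2, lintegral_enorm_sq]
          apply ENNReal.ofReal_le_ofReal
          have h3 := norm_sub_tau_le u g hg y
          rw [mem_closedBall_zero_iff] at hy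
          rw [← mul_pow]
          apply pow_le_pow_left₀ (norm_nonneg _)
          exact h3.trans (mul_le_mul_of_nonneg_right hy (Real.sqrt_nonneg _))
      _ = q * ENNReal.ofReal (2 ^ d * ((2 * r) ^ 2 * GG g ^ 2)) := by
          rw [setLIntegral_const, hDq, ENNReal.ofReal_mul (p := 2 ^ d) (by positivity)]
          ring
  have h2 := (ENNReal.mul_le_mul_iff_right hq0 hqt).1 h1
  have h3 : ∫⁻ x in S, ‖u x‖ₑ ^ 2 = ENNReal.ofReal (∫ x in S, ‖u x‖ ^ 2) := by
    rw [ofReal_integral_eq_lintegral_ofReal (integrable_norm_sq u).integrableOn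
      (Eventually.of_forall fun x => by positivity)]
    refine lintegral_congr fun x => ?_
    rw [ENNReal.ofReal_pow (norm_nonneg _), ofReal_norm]
  rw [h3] at h2
  exact (ENNReal.ofReal_le_ofReal_iff (by positivity)).1 h2

/-- lattice points -/
noncomputable def lat (K : ℕ) (j : Fin d → Fin (2 * K + 1)) : Rd d :=
  WithLp.toLp 2 (fun i => ((j i : ℕ) : ℝ) / K - 1)

lemma lat_cover (K : ℕ) (hK : 0 < K) (x : Rd d) (hx : ‖x‖ ≤ 1) :
    ∃ j : Fin d → Fin (2 * K + 1), x ∈ Metric.closedBall (lat K j) (√d / K) := by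
  have hK' : (0 : ℝ) < K := by exact_mod_cast hK
  have hxi : ∀ i, |x i| ≤ 1 := fun i => by
    have := EuclideanSpace.norm_eq x
    have h1 := PiLp.norm_apply_le x i
    rw [Real.norm_eq_abs] at h1
    linarith
  refine ⟨fun i => ⟨⌊(x i + 1) * K⌋₊, ?_⟩, ?_⟩
  · have h1 : (x i + 1) * K ≤ 2 * K := by
      have := (abs_le.1 (hxi i)).2
      nlinarith
    have h2 : ⌊(x i + 1) * K⌋₊ ≤ 2 * K := by
      have := Nat.floor_le_floor h1
      have h3 : ⌊(2 * K : ℝ)⌋₊ = 2 * K := by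
        have : (2 * K : ℝ) = ((2 * K : ℕ) : ℝ) := by push_cast; ring
        rw [this, Nat.floor_natCast]
      omega
    omega
  · rw [Metric.mem_closedBall, EuclideanSpace.dist_eq]
    have h1 : ∀ i ∈ Finset.univ, dist (x i) ((lat K fun i => ⟨⌊(x i + 1) * K⌋₊, by
        have h1 : (x i + 1) * K ≤ 2 * K := by
          have := (abs_le.1 (hxi i)).2
          nlinarith
        have h2 : ⌊(x i + 1) * K⌋₊ ≤ 2 * K := by
          have := Nat.floor_le_floor h1
          have h3 : ⌊(2 * K : ℝ)⌋₊ = 2 * K := by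
            have : (2 * K : ℝ) = ((2 * K : ℕ) : ℝ) := by push_cast; ring
            rw [this, Nat.floor_natCast]
          omega
        omega⟩ : Rd d) i) ^ 2 ≤ (1 / K : ℝ) ^ 2 := by
      intro i _
      have h2 : 0 ≤ (x i + 1) * K := by
        have := (abs_le.1 (hxi i)).1
        apply mul_nonneg _ hK'.le
        linarith
      have h3 := Nat.floor_le h2
      have h4 := Nat.lt_floor_add_one ((x i + 1) * K)
      rw [Real.dist_eq]
      apply pow_le_pow_left₀ (abs_nonneg _)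
      have h5 : x i - ((⌊(x i + 1) * K⌋₊ : ℝ) / K - 1) =
          ((x i + 1) * K - (⌊(x i + 1) * K⌋₊ : ℝ)) / K := by
        field_simp
        ring
      change |x i - ((⌊(x i + 1) * K⌋₊ : ℝ) / K - 1)| ≤ _
      rw [h5, abs_div, abs_of_pos hK']
      apply div_le_div_of_nonneg_right _ hK'.le
      rw [abs_of_nonneg (by linarith)]
      linarith
    calc √(∑ i, dist (x i) _ ^ 2) ≤ √(∑ i : Fin d, (1 / K : ℝ) ^ 2) :=
          Real.sqrt_le_sqrt (Finset.sum_le_sum h1)
      _ = √d / K := by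
          rw [Finset.sum_const, Finset.card_univ, Fintype.card_fin, nsmul_eq_mul,
            Real.sqrt_mul (by positivity), Real.sqrt_sq (by positivity)]
          ring

/-- the dimension bound -/
theorem dim_bound (hd : 1 ≤ d) (h : ℝ) (hh : 0 < h) (m : Rd d → ℝ) (Λ : ℝ) (hΛ : 0 < Λ)
    (hm : ∀ x, 1 < ‖x‖ → 8 * Λ ≤ m x ^ 2) (K : ℕ) (hK : 0 < K)
    (hKh : 2 ^ (d + 5) * d * Λ ≤ (K * h) ^ 2)
    (F : Submodule ℂ (Kc h m)) (hF : FiniteDimensional ℂ F)
    (hFa : ∀ w ∈ F, (1 + 2 * Λ)⁻¹ * ‖w‖ ^ 2 ≤ ‖iota h m w‖ ^ 2) :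
    Module.finrank ℂ F ≤ (2 * K + 1) ^ d := by
  by_contra hcon
  push Not at hcon
  have hK' : (0 : ℝ) < K := by exact_mod_cast hK
  have hd' : (0 : ℝ) < d := by exact_mod_cast hd
  set r : ℝ := √d / K with hr
  have hr0 : 0 < r := by positivity
  let L : F →ₗ[ℂ] ((Fin d → Fin (2 * K + 1)) → ℂ) :=
    { toFun := fun w j => inner ℂ (indicatorConstLp 2
        (measurableSet_closedBall (x := lat (d := d) K j) (ε := r))
        (measure_closedBall_lt_top.ne) (1 : ℂ)) (iota h m w)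
      map_add' := fun u v => by ext n; simp [inner_add_right]
      map_smul' := fun c u => by ext n; simp [inner_smul_right] }
  have hker : LinearMap.ker L ≠ ⊥ := by
    apply LinearMap.ker_ne_bot_of_finrank_lt
    simpa using hcon
  obtain ⟨w, hw, hw0⟩ := Submodule.exists_mem_ne_zero_of_ne_bot hker
  have hw1 : ∀ j, ∫ x in Metric.closedBall (lat K j) r, (iota h m w) x = 0 := by
    intro j
    have := congrFun hw j
    rw [← L2.inner_indicatorConstLp_one (𝕜 := ℂ) measurableSet_closedBall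
      (measure_closedBall_lt_top.ne)]
    exact this
  set v : Kc h m := w.1 with hv
  set u : L2 d := (v : HH d) none with hu
  have hh0 : (h : ℂ) ≠ 0 := by exact_mod_cast hh.ne'
  set g : Fin d → L2 d := fun k => (h : ℂ)⁻¹ • (v : HH d) (some (some k)) with hg
  have hgw : IsWeakGrad u g := by
    intro k φ hφ
    have h1 := v.2.2 k φ hφ
    rw [integral_mul_eq (hφ.memLp 2)] at h1 ⊢
    rw [inner_smul_right]
    have h2 : ∫ x, (v : HH d) none x * pd k φ x = (h : ℂ)⁻¹ * ((h : ℂ) *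
        ∫ x, (v : HH d) none x * pd k φ x) := by
      rw [inv_mul_cancel_left₀ hh0]
    rw [hu, h2, h1]
    ring
  have hGG : h ^ 2 * GG g ^ 2 = ∑ k, ‖(v : HH d) (some (some k))‖ ^ 2 := by
    unfold GG
    rw [Real.sq_sqrt (Finset.sum_nonneg fun k _ => by positivity), Finset.mul_sum]
    refine Finset.sum_congr rfl fun k _ => ?_
    rw [hg]
    simp only
    rw [norm_smul, norm_inv, Complex.norm_real, Real.norm_of_nonneg hh.le]
    field_simp
  have h1 := cover_bound u g hgw (fun j => lat K j) r hr0 hw1 (Metric.closedBall 0 1)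
    measurableSet_closedBall (fun x hx => lat_cover K hK x (mem_closedBall_zero_iff.1 hx))
  have h2 : 8 * Λ * ∫ x in (Metric.closedBall (0 : Rd d) 1)ᶜ, ‖u x‖ ^ 2 ≤
      ‖(v : HH d) (some none)‖ ^ 2 := by
    rw [norm_sq_L2, ← integral_const_mul]
    refine le_trans ?_ (setIntegral_le_integral (integrable_norm_sq ((v : HH d) (some none)))
      (Eventually.of_forall fun x => by positivity) (s := (Metric.closedBall (0 : Rd d) 1)ᶜ))
    refine setIntegral_mono_ae_restrict ((integrable_norm_sq u).integrableOn.const_mul _)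
      (integrable_norm_sq _).integrableOn ?_
    have h3 := v.2.1
    filter_upwards [ae_restrict_of_ae h3, ae_restrict_mem measurableSet_closedBall.compl]
      with x h4 h5
    rw [h4, norm_mul, mul_pow, Complex.norm_real, Real.norm_eq_abs, sq_abs]
    have h6 : 1 < ‖x‖ := by
      rw [Set.mem_compl_iff, mem_closedBall_zero_iff, not_le] at h5
      exact h5
    exact mul_le_mul_of_nonneg_right (hm x h6) (by positivity)
  have h3 : ‖u‖ ^ 2 = (∫ x in Metric.closedBall (0 : Rd d) 1, ‖u x‖ ^ 2) +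
      ∫ x in (Metric.closedBall (0 : Rd d) 1)ᶜ, ‖u x‖ ^ 2 := by
    rw [norm_sq_L2, integral_add_compl measurableSet_closedBall (integrable_norm_sq u)]
  have h4 := norm_sq_Kc h m v
  have h5 := hFa v w.2
  rw [iota_apply, inv_mul_le_iff₀ (by positivity), h4] at h5
  -- combine
  have h6 : ‖(v : HH d) (some none)‖ ^ 2 + h ^ 2 * GG g ^ 2 ≤ 2 * Λ * ‖u‖ ^ 2 := by
    rw [hGG]
    nlinarith
  have h7 : 2 ^ d * ((2 * r) ^ 2 * GG g ^ 2) ≤ 1 / 4 * ‖u‖ ^ 2 := by
    have h8 : 8 * Λ * (2 ^ d * ((2 * r) ^ 2 * GG g ^ 2)) ≤ h ^ 2 * GG g ^ 2 := by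
      have h9 : 8 * Λ * (2 ^ d * (2 * r) ^ 2) ≤ h ^ 2 := by
        rw [hr, mul_pow, div_pow, Real.sq_sqrt hd'.le]
        rw [mul_pow] at hKh
        have : 8 * Λ * (2 ^ d * (2 ^ 2 * (d / K ^ 2))) = 2 ^ (d + 5) * d * Λ / K ^ 2 := by
          field_simp
          ring
        rw [this, div_le_iff₀ (by positivity)]
        linarith
      calc 8 * Λ * (2 ^ d * ((2 * r) ^ 2 * GG g ^ 2)) = 8 * Λ * (2 ^ d * (2 * r) ^ 2) * GG g ^ 2 := by
            ring
        _ ≤ _ := mul_le_mul_of_nonneg_right h9 (by positivity)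
    have h9 : h ^ 2 * GG g ^ 2 ≤ 2 * Λ * ‖u‖ ^ 2 := by
      have : 0 ≤ ‖(v : HH d) (some none)‖ ^ 2 := by positivity
      linarith
    have h10 := h8.trans h9
    have h11 : 8 * Λ * (2 ^ d * ((2 * r) ^ 2 * GG g ^ 2)) ≤ 8 * Λ * (1 / 4 * ‖u‖ ^ 2) := by
      linarith
    exact le_of_mul_le_mul_left h11 (by positivity)
  have h8 : ∫ x in (Metric.closedBall (0 : Rd d) 1)ᶜ, ‖u x‖ ^ 2 ≤ 1 / 4 * ‖u‖ ^ 2 := by
    have h9 : ‖(v : HH d) (some none)‖ ^ 2 ≤ 2 * Λ * ‖u‖ ^ 2 := by
      have : 0 ≤ h ^ 2 * GG g ^ 2 := by positivity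
      linarith
    have h10 := h2.trans h9
    have h11 : 8 * Λ * ∫ x in (Metric.closedBall (0 : Rd d) 1)ᶜ, ‖u x‖ ^ 2 ≤
        8 * Λ * (1 / 4 * ‖u‖ ^ 2) := by linarith
    exact le_of_mul_le_mul_left h11 (by positivity)
  have h9 : ‖u‖ ^ 2 ≤ 0 := by
    have := h1.trans h7
    linarith
  have h10 : ‖v‖ ^ 2 ≤ 0 := by
    rw [h4]
    nlinarith
  have h11 : ‖v‖ = 0 := by nlinarith [norm_nonneg v]
  have h12 : v = 0 := norm_eq_zero.1 h11
  exact hw0 (Subtype.ext h12)

end Pool.Agent.R993.CE
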