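import Mathlib
import Pool.Agent.R993.CE.Dim

set_option autoImplicit false

namespace Pool.Agent.R993.CE

open MeasureTheory Complex Filter Topology
open scoped ENNReal ContDiff

variable {d : ℕ}

/-- partial derivative of a real function -/
noncomputable def pr (k : Fin d) (G : Rd d → ℝ) (x : Rd d) : ℝ :=
  fderiv ℝ G x (EuclideanSpace.single k 1)

lemma pd_mul (G : Rd d → ℝ) (hG : ContDiff ℝ ∞ G) {φ : Rd d → ℂ} (hφ : IsTest φ) (k : Fin d)
    (x : Rd d) : pd k (fun x => (G x : ℂ) * φ x) x =
      (G x : ℂ) * pd k φ x + (pr k G x : ℂ) * φ x := by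
  unfold pd pr
  have h1 : HasFDerivAt (fun x => (G x : ℂ)) (ofRealCLM.comp (fderiv ℝ G x)) x :=
    ofRealCLM.hasFDerivAt.comp x (hG.differentiable (by simp) x).hasFDerivAt
  have h2 : HasFDerivAt φ (fderiv ℝ φ x) x := (hφ.1.differentiable (by simp) x).hasFDerivAt
  have h3 : HasFDerivAt (fun x => (G x : ℂ) * φ x) _ x := h1.mul h2
  rw [h3.fderiv]
  simp [mul_comm]

lemma continuous_pr (k : Fin d) (G : Rd d → ℝ) (hG : ContDiff ℝ ∞ G) : Continuous (pr k G) := by
  have h1 : Continuous (fderiv ℝ G) := hG.continuous_fderiv (by simp)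
  unfold pr
  fun_prop

lemma exists_mulKc (h : ℝ) (m : Rd d → ℝ) (e : Kc h m) (G : Rd d → ℝ) (hG : ContDiff ℝ ∞ G)
    (C : ℝ) (hG1 : ∀ x, |G x| ≤ C) (hG2 : ∀ k x, |pr k G x| ≤ C) :
    ∃ v : Kc h m, (∀ᵐ x, (v : HH d) none x = (G x : ℂ) * (e : HH d) none x) ∧
      (∀ᵐ x, (v : HH d) (some none) x = (G x : ℂ) * (e : HH d) (some none) x) ∧
      ∀ k, ∀ᵐ x, (v : HH d) (some (some k)) x = (G x : ℂ) * (e : HH d) (some (some k)) x +
        (h : ℂ) * ((pr k G x : ℂ) * (e : HH d) none x) := by
  obtain ⟨T, hT, -⟩ := exists_mul G hG.continuous.measurable C hG1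
  have hk : ∀ k, ∃ T : L2 d →L[ℂ] L2 d, (∀ u, T u =ᵐ[volume] fun x => (pr k G x : ℂ) * u x) ∧
      ∀ u, ‖T u‖ ≤ C * ‖u‖ := fun k =>
    exists_mul (pr k G) (continuous_pr k G hG).measurable C (hG2 k)
  choose P hP _ using hk
  let v : HH d := WithLp.toLp 2 (fun i => match i with
      | none => T ((e : HH d) none)
      | some none => T ((e : HH d) (some none))
      | some (some k) => T ((e : HH d) (some (some k))) + (h : ℂ) • P k ((e : HH d) none))
  have e0 : (v none : L2 d) = T ((e : HH d) none) := rfl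
  have e1 : (v (some none) : L2 d) = T ((e : HH d) (some none)) := rfl
  have e2 : ∀ k, (v (some (some k)) : L2 d) =
    T ((e : HH d) (some (some k))) + (h : ℂ) • P k ((e : HH d) none) := fun k => rfl
  have e3 : ∀ k, ∀ᵐ x, v (some (some k)) x = (G x : ℂ) * (e : HH d) (some (some k)) x +
        (h : ℂ) * ((pr k G x : ℂ) * (e : HH d) none x) := by
    intro k
    rw [e2]
    filter_upwards [Lp.coeFn_add (T ((e : HH d) (some (some k)))) ((h : ℂ) • P k ((e : HH d) none)),
      Lp.coeFn_smul (h : ℂ) (P k ((e : HH d) none)), hT ((e : HH d) (some (some k))),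
      hP k ((e : HH d) none)] with x h1 h2 h3 h4
    rw [h1, Pi.add_apply, h2, Pi.smul_apply, h3, h4]
    rfl
  have hv : v ∈ Kc h m := by
    refine ⟨?_, fun k φ hφ => ?_⟩
    · rw [e0, e1]
      filter_upwards [hT ((e : HH d) none), hT ((e : HH d) (some none)), e.2.1] with x h1 h2 h3
      rw [h1, h2, h3]
      ring
    · have hGφ : IsTest (fun x => (G x : ℂ) * φ x) :=
        hφ.mul (ofRealCLM.contDiff.comp hG)
      have h1 := e.2.2 k _ hGφ
      have i1 : ∫ x, v none x * pd k φ x = ∫ x, (e : HH d) none x * ((G x : ℂ) * pd k φ x) := by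
        rw [e0]
        refine integral_congr_ae ?_
        filter_upwards [hT ((e : HH d) none)] with x h2
        rw [h2]
        ring
      have i2 : Integrable (fun x => (e : HH d) none x * ((G x : ℂ) * pd k φ x))
          (volume : Measure (Rd d)) := by
        have hm : MemLp (fun x => (G x : ℂ) * pd k φ x) 2 (volume : Measure (Rd d)) :=
          ((hφ.pd k).mul (ofRealCLM.contDiff.comp hG)).memLp 2
        exact (Lp.memLp ((e : HH d) none)).integrable_mul hm
      have hPC : HasCompactSupport (fun x => (pr k G x : ℂ) * φ x) := hφ.2.mul_left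
      have hPc : Continuous (fun x => (pr k G x : ℂ) * φ x) := by
        have := continuous_pr k G hG
        have := hφ.1.continuous
        fun_prop
      have i3 : Integrable (fun x => (e : HH d) none x * ((pr k G x : ℂ) * φ x))
          (volume : Measure (Rd d)) := by
        have hm : MemLp (fun x => (pr k G x : ℂ) * φ x) 2 (volume : Measure (Rd d)) :=
          hPc.memLp_of_hasCompactSupport hPC
        exact (Lp.memLp ((e : HH d) none)).integrable_mul hm
      have i4 : ∫ x, (e : HH d) none x * pd k (fun x => (G x : ℂ) * φ x) x =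
          (∫ x, (e : HH d) none x * ((G x : ℂ) * pd k φ x)) +
          ∫ x, (e : HH d) none x * ((pr k G x : ℂ) * φ x) := by
        rw [← integral_add i2 i3]
        refine integral_congr_ae (Eventually.of_forall fun x => ?_)
        simp only
        rw [pd_mul G hG hφ k x]
        ring
      have i5 : Integrable (fun x => (e : HH d) (some (some k)) x * ((G x : ℂ) * φ x))
          (volume : Measure (Rd d)) :=
        (Lp.memLp ((e : HH d) (some (some k)))).integrable_mul (hGφ.memLp 2)
      have i6 : ∫ x, v (some (some k)) x * φ x =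
          (∫ x, (e : HH d) (some (some k)) x * ((G x : ℂ) * φ x)) +
          (h : ℂ) * ∫ x, (e : HH d) none x * ((pr k G x : ℂ) * φ x) := by
        rw [← integral_const_mul, ← integral_add i5 (i3.const_mul _)]
        refine integral_congr_ae ?_
        filter_upwards [e3 k] with x h2
        rw [h2]
        ring
      rw [i1, i6]
      rw [i4] at h1
      linear_combination h1
  refine ⟨⟨v, hv⟩, ?_, ?_, e3⟩
  · exact hT ((e : HH d) none)
  · exact hT ((e : HH d) (some none))

lemma integrable_mul_norm_sq (u : L2 d) (G : Rd d → ℝ) (hG : Measurable G) (C : ℝ)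
    (hC : ∀ x, |G x| ≤ C) : Integrable (fun x => G x * ‖u x‖ ^ 2) (volume : Measure (Rd d)) := by
  refine (integrable_norm_sq u).bdd_mul (c := C) hG.aestronglyMeasurable ?_
  exact Eventually.of_forall fun x => by rw [Real.norm_eq_abs]; exact hC x

/-- the basic localisation inequality -/
lemma agmon_ineq (h : ℝ) (m : Rd d → ℝ) (e : Kc h m) (r : ℝ) (hr : 0 < r)
    (he : ∀ v : Kc h m, inner ℂ (iota h m v) (iota h m e) = (r : ℂ) * inner ℂ v e)
    (g : Rd d → ℝ) (hg : ContDiff ℝ ∞ g) (C : ℝ) (hg1 : ∀ x, |g x| ≤ 1)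
    (hg2 : ∀ k x, |pr k g x| ≤ C) (M : ℝ) (hM : ∀ x, g x ≠ 0 → M ≤ m x ^ 2) :
    (1 + M - r⁻¹) * ∫ x, g x ^ 2 * ‖(e : HH d) none x‖ ^ 2 ≤
      h ^ 2 * ∑ k, ∫ x, pr k g x ^ 2 * ‖(e : HH d) none x‖ ^ 2 := by
  have hpr : ∀ k x, pr k (fun x => g x ^ 2) x = 2 * g x * pr k g x := by
    intro k x
    unfold pr
    have h2 : HasFDerivAt g (fderiv ℝ g x) x := (hg.differentiable (by simp) x).hasFDerivAt
    rw [(h2.pow 2).fderiv]
    simp
  have hC0 : ∀ k : Fin d, 0 ≤ C := fun k => (abs_nonneg _).trans (hg2 k 0)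
  obtain ⟨v, hv0, hv1, hv2⟩ := exists_mulKc h m e (fun x => g x ^ 2) (hg.pow 2)
    (1 + 2 * |C|) (fun x => by
      rw [abs_pow]
      have := pow_le_one₀ (n := 2) (abs_nonneg _) (hg1 x)
      have := abs_nonneg C
      linarith) (fun k x => by
      rw [hpr, abs_mul, abs_mul]
      have h1 := hg1 x
      have h2 := hg2 k x
      have h3 := abs_nonneg (g x)
      have h4 := abs_nonneg (pr k g x)
      have h5 := le_abs_self C
      have h6 : |(2 : ℝ)| = 2 := by norm_num
      rw [h6]
      nlinarith)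
  set u : L2 d := (e : HH d) none with hu
  set A : ℝ := ∫ x, g x ^ 2 * ‖u x‖ ^ 2 with hA
  have gm : Measurable g := hg.continuous.measurable
  have hint : ∀ w : L2 d, Integrable (fun x => g x ^ 2 * ‖w x‖ ^ 2) (volume : Measure (Rd d)) :=
    fun w => integrable_mul_norm_sq w (fun x => g x ^ 2) (gm.pow_const 2) 1 (fun x => by
      rw [abs_pow]
      exact pow_le_one₀ (abs_nonneg _) (hg1 x))
  have hintk : ∀ k, Integrable (fun x => pr k g x ^ 2 * ‖u x‖ ^ 2) (volume : Measure (Rd d)) :=
    fun k => integrable_mul_norm_sq u (fun x => pr k g x ^ 2)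
      ((continuous_pr k g hg).measurable.pow_const 2) (C ^ 2) (fun x => by
        rw [abs_pow]
        exact pow_le_pow_left₀ (abs_nonneg _) (hg2 k x) 2)
  have i0 : inner ℂ ((v : HH d) none) u = (A : ℂ) := by
    rw [inner_eq_integral, hA, ← integral_complex_ofReal]
    refine integral_congr_ae ?_
    filter_upwards [hv0] with x h1
    rw [h1, map_mul, Complex.conj_ofReal]
    have : (starRingEnd ℂ) (u x) * u x = ((‖u x‖ ^ 2 : ℝ) : ℂ) := by
      rw [mul_comm, Complex.mul_conj, Complex.normSq_eq_norm_sq]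
    push_cast
    rw [mul_assoc, this]
    push_cast
    ring
  have i1 : M * A ≤ (inner ℂ ((v : HH d) (some none)) ((e : HH d) (some none))).re := by
    have h2 : inner ℂ ((v : HH d) (some none)) ((e : HH d) (some none)) =
        ((∫ x, g x ^ 2 * ‖(e : HH d) (some none) x‖ ^ 2 : ℝ) : ℂ) := by
      rw [inner_eq_integral, ← integral_complex_ofReal]
      refine integral_congr_ae ?_
      filter_upwards [hv1] with x h1
      rw [h1, map_mul, Complex.conj_ofReal]
      have : (starRingEnd ℂ) ((e : HH d) (some none) x) * (e : HH d) (some none) x =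
          ((‖(e : HH d) (some none) x‖ ^ 2 : ℝ) : ℂ) := by
        rw [mul_comm, Complex.mul_conj, Complex.normSq_eq_norm_sq]
      push_cast
      rw [mul_assoc, this]
      push_cast
      ring
    rw [h2, Complex.ofReal_re, hA, ← integral_const_mul]
    refine integral_mono_ae ((hint u).const_mul M) (hint _) ?_
    filter_upwards [e.2.1] with x h3
    rw [h3, norm_mul, mul_pow, Complex.norm_real, Real.norm_eq_abs, sq_abs]
    by_cases h4 : g x = 0
    · rw [h4]; simp
    · have h5 := hM x h4
      have h6 : 0 ≤ g x ^ 2 * ‖u x‖ ^ 2 := by positivity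
      calc M * (g x ^ 2 * ‖u x‖ ^ 2) ≤ m x ^ 2 * (g x ^ 2 * ‖u x‖ ^ 2) :=
            mul_le_mul_of_nonneg_right h5 h6
        _ = _ := by ring
  have i2 : ∀ k, -(h ^ 2 * ∫ x, pr k g x ^ 2 * ‖u x‖ ^ 2) ≤
      (inner ℂ ((v : HH d) (some (some k))) ((e : HH d) (some (some k)))).re := by
    intro k
    set p : L2 d := (e : HH d) (some (some k)) with hp
    have h2 : (inner ℂ ((v : HH d) (some (some k))) p).re =
        ∫ x, ((starRingEnd ℂ) ((v : HH d) (some (some k)) x) * p x).re := by
      rw [inner_eq_integral]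
      have := integral_re (integrable_conj_mul ((v : HH d) (some (some k))) p)
      simp only [RCLike.re_to_complex] at this
      exact this.symm
    rw [h2, ← integral_const_mul, ← integral_neg]
    refine integral_mono_ae ((hintk k).const_mul _).neg
      (integrable_conj_mul ((v : HH d) (some (some k))) p).re ?_
    filter_upwards [hv2 k] with x h3
    rw [h3, hpr]
    have h4 : ((starRingEnd ℂ) (((g x ^ 2 : ℝ) : ℂ) * p x + (h : ℂ) *
        (((2 * g x * pr k g x : ℝ) : ℂ) * u x)) * p x).re =
        g x ^ 2 * ((p x).re ^ 2 + (p x).im ^ 2) + h * (2 * g x * pr k g x) *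
          ((u x).re * (p x).re + (u x).im * (p x).im) := by
      simp only [map_add, map_mul, Complex.conj_ofReal, Complex.mul_re, Complex.add_re,
        Complex.add_im, Complex.mul_im, Complex.ofReal_re, Complex.ofReal_im, Complex.conj_re,
        Complex.conj_im]
      ring
    have h5 : ‖u x‖ ^ 2 = (u x).re ^ 2 + (u x).im ^ 2 := by
      rw [← Complex.normSq_eq_norm_sq, Complex.normSq_apply]
      ring
    rw [h4, h5]
    nlinarith [sq_nonneg (g x * (p x).re + h * pr k g x * (u x).re),
      sq_nonneg (g x * (p x).im + h * pr k g x * (u x).im)]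
  have h1 := he v
  rw [iota_apply, iota_apply, ← hu, i0, inner_Kc, ← hu, i0] at h1
  have h2 := congrArg Complex.re h1
  rw [Complex.ofReal_re, Complex.re_ofReal_mul, Complex.add_re, Complex.add_re, Complex.ofReal_re,
    Complex.re_sum] at h2
  have h3 : ∑ k, -(h ^ 2 * ∫ x, pr k g x ^ 2 * ‖u x‖ ^ 2) ≤
      ∑ k, (inner ℂ ((v : HH d) (some (some k))) ((e : HH d) (some (some k)))).re :=
    Finset.sum_le_sum fun k _ => i2 k
  rw [Finset.sum_neg_distrib, ← Finset.mul_sum] at h3
  have h4 : r⁻¹ * A = A + ((inner ℂ ((v : HH d) (some none)) ((e : HH d) (some none))).re +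
      ∑ k, (inner ℂ ((v : HH d) (some (some k))) ((e : HH d) (some (some k)))).re) := by
    have := congrArg (fun t => r⁻¹ * t) h2
    simp only at this
    rw [this, inv_mul_cancel_left₀ hr.ne']
  have h5 : (1 + M - r⁻¹) * A = A + M * A - r⁻¹ * A := by ring
  rw [h5, h4]
  linarith

end Pool.Agent.R993.CE
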