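import Mathlib
import Pool.Agent.R993.CE.Agmon

set_option autoImplicit false

namespace Pool.Agent.R993.CE

open MeasureTheory Complex Filter Topology
open scoped ENNReal ContDiff

variable {d : ℕ}

lemma deriv_st_of_neg {t : ℝ} (ht : t < 0) : deriv Real.smoothTransition t = 0 := by
  have : Real.smoothTransition =ᶠ[𝓝 t] fun _ => (0 : ℝ) := by
    filter_upwards [Iio_mem_nhds ht] with s hs
    exact Real.smoothTransition.zero_of_nonpos (le_of_lt hs)
  rw [this.deriv_eq]
  simp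

lemma deriv_st_of_gt {t : ℝ} (ht : 1 < t) : deriv Real.smoothTransition t = 0 := by
  have : Real.smoothTransition =ᶠ[𝓝 t] fun _ => (1 : ℝ) := by
    filter_upwards [Ioi_mem_nhds ht] with s hs
    exact Real.smoothTransition.one_of_one_le (le_of_lt hs)
  rw [this.deriv_eq]
  simp

lemma exists_L0 : ∃ L : ℝ, 0 ≤ L ∧ ∀ t, |deriv Real.smoothTransition t| ≤ L := by
  have h1 : Continuous (deriv Real.smoothTransition) :=
    (Real.smoothTransition.contDiff (n := 1)).continuous_deriv (by norm_num)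
  obtain ⟨C, hC⟩ := (isCompact_Icc (a := (0 : ℝ)) (b := 1)).exists_bound_of_continuousOn
    h1.continuousOn
  refine ⟨max C 0, le_max_right _ _, fun t => ?_⟩
  by_cases h2 : t < 0
  · rw [deriv_st_of_neg h2]; simp
  · by_cases h3 : 1 < t
    · rw [deriv_st_of_gt h3]; simp
    · push Not at h2 h3
      exact (hC t ⟨h2, h3⟩).trans (le_max_left _ _)

/-- radial cutoff, `0` for `|x|² ≤ a` and `1` for `|x|² ≥ b` -/
noncomputable def cut (a b : ℝ) (x : Rd d) : ℝ := Real.smoothTransition ((‖x‖ ^ 2 - a) / (b - a))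

lemma contDiff_cut (a b : ℝ) : ContDiff ℝ ∞ (cut (d := d) a b) := by
  unfold cut
  have h1 : ContDiff ℝ ∞ (fun x : Rd d => (‖x‖ ^ 2 - a) / (b - a)) :=
    ((contDiff_norm_sq ℝ).sub contDiff_const).div_const _
  exact (Real.smoothTransition.contDiff (n := ⊤)).comp h1

lemma pr_cut (a b : ℝ) (k : Fin d) (x : Rd d) :
    pr k (cut a b) x = deriv Real.smoothTransition ((‖x‖ ^ 2 - a) / (b - a)) *
      (2 * x k / (b - a)) := by
  unfold pr cut
  have h1 : HasFDerivAt (fun x : Rd d => ‖x‖ ^ 2) (2 • (innerSL ℝ x)) x :=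
    (hasStrictFDerivAt_norm_sq x).hasFDerivAt
  have h2 : HasFDerivAt (fun x : Rd d => (‖x‖ ^ 2 - a) / (b - a))
      ((b - a)⁻¹ • (2 • (innerSL ℝ x))) x := by
    have := (h1.sub_const a).mul_const (b - a)⁻¹
    simpa [div_eq_mul_inv] using this
  have h3 : HasDerivAt Real.smoothTransition
      (deriv Real.smoothTransition ((‖x‖ ^ 2 - a) / (b - a))) ((‖x‖ ^ 2 - a) / (b - a)) :=
    ((Real.smoothTransition.contDiff (n := 1)).differentiable (by norm_num) _).hasDerivAt
  have h4 : fderiv ℝ (fun x : Rd d => Real.smoothTransition ((‖x‖ ^ 2 - a) / (b - a))) x =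
      deriv Real.smoothTransition ((‖x‖ ^ 2 - a) / (b - a)) • ((b - a)⁻¹ • (2 • (innerSL ℝ x))) :=
    (HasDerivAt.comp_hasFDerivAt (h₂ := Real.smoothTransition)
      (f := fun x : Rd d => (‖x‖ ^ 2 - a) / (b - a)) x h3 h2).fderiv
  rw [h4]
  simp [EuclideanSpace.inner_single_right]
  left
  ring

lemma agmon_step (L : ℝ) (hL0 : 0 ≤ L) (hL : ∀ t, |deriv Real.smoothTransition t| ≤ L)
    (h : ℝ) (m : Rd d → ℝ) (e : Kc h m) (r : ℝ) (hr : 0 < r)
    (he : ∀ v : Kc h m, inner ℂ (iota h m v) (iota h m e) = (r : ℂ) * inner ℂ v e)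
    (M : ℝ) (hM : ∀ x, 1 < ‖x‖ → M ≤ m x ^ 2) (hMr : r⁻¹ ≤ M) (a b : ℝ) (ha : 1 ≤ a)
    (hab : a < b) (hb : b ≤ 2) :
    ∫ x in {x : Rd d | b ≤ ‖x‖ ^ 2}, ‖(e : HH d) none x‖ ^ 2 ≤
      h ^ 2 * (8 * L ^ 2 / (b - a) ^ 2) *
        ∫ x in {x : Rd d | a ≤ ‖x‖ ^ 2}, ‖(e : HH d) none x‖ ^ 2 := by
  have hba : 0 < b - a := by linarith
  set u : L2 d := (e : HH d) none with hu
  have hSm : ∀ s : ℝ, MeasurableSet {x : Rd d | s ≤ ‖x‖ ^ 2} := fun s =>
    measurableSet_le measurable_const (by fun_prop)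
  have hc1 : ∀ x : Rd d, |cut a b x| ≤ 1 := fun x => by
    unfold cut
    rw [abs_of_nonneg (Real.smoothTransition.nonneg _)]
    exact Real.smoothTransition.le_one _
  have hk : ∀ k (x : Rd d), |pr k (cut a b) x| ≤ L * (4 / (b - a)) := by
    intro k x
    rw [pr_cut]
    by_cases hx : 1 < (‖x‖ ^ 2 - a) / (b - a)
    · rw [deriv_st_of_gt hx]; simp; positivity
    · rw [abs_mul]
      push Not at hx
      rw [div_le_one hba] at hx
      have h1 : |2 * x k / (b - a)| ≤ 4 / (b - a) := by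
        rw [abs_div, abs_of_pos hba]
        apply div_le_div_of_nonneg_right _ hba.le
        have h2 : |x k| ≤ ‖x‖ := by
          have := PiLp.norm_apply_le x k
          rwa [Real.norm_eq_abs] at this
        have h3 : ‖x‖ ≤ 2 := by nlinarith [norm_nonneg x]
        rw [abs_mul, abs_of_pos (by norm_num : (0 : ℝ) < 2)]
        linarith
      exact mul_le_mul (hL _) h1 (abs_nonneg _) hL0
  have h1 := agmon_ineq h m e r hr he (cut a b) (contDiff_cut a b) (L * (4 / (b - a)))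
    hc1 hk M (fun x hx => by
      apply hM
      by_contra h2
      push Not at h2
      apply hx
      apply Real.smoothTransition.zero_of_nonpos
      apply div_nonpos_of_nonpos_of_nonneg _ hba.le
      nlinarith [norm_nonneg x])
  rw [← hu] at h1
  have hcm : Measurable (cut (d := d) a b) := (contDiff_cut a b).continuous.measurable
  have h2 : ∫ x in {x : Rd d | b ≤ ‖x‖ ^ 2}, ‖u x‖ ^ 2 ≤ ∫ x, cut a b x ^ 2 * ‖u x‖ ^ 2 := by
    rw [← integral_indicator (hSm b)]
    refine integral_mono ((integrable_norm_sq u).indicator (hSm b))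
      (integrable_mul_norm_sq u (fun x => cut a b x ^ 2) (hcm.pow_const 2) 1 (fun x => by
        rw [abs_pow]
        exact pow_le_one₀ (abs_nonneg _) (hc1 x))) (fun x => ?_)
    by_cases hx : x ∈ {x : Rd d | b ≤ ‖x‖ ^ 2}
    · simp only
      rw [Set.indicator_of_mem hx]
      have : cut a b x = 1 := by
        apply Real.smoothTransition.one_of_one_le
        rw [one_le_div hba]
        have : b ≤ ‖x‖ ^ 2 := hx
        linarith
      rw [this]
      simp
    · simp only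
      rw [Set.indicator_of_notMem hx]
      positivity
  have h3 : ∑ k, ∫ x, pr k (cut a b) x ^ 2 * ‖u x‖ ^ 2 ≤ 8 * L ^ 2 / (b - a) ^ 2 *
      ∫ x in {x : Rd d | a ≤ ‖x‖ ^ 2}, ‖u x‖ ^ 2 := by
    have hi : ∀ k : Fin d, Integrable (fun x => pr k (cut a b) x ^ 2 * ‖u x‖ ^ 2)
        (volume : Measure (Rd d)) := fun k =>
      integrable_mul_norm_sq u (fun x => pr k (cut a b) x ^ 2)
        ((continuous_pr k _ (contDiff_cut a b)).measurable.pow_const 2)
        ((L * (4 / (b - a))) ^ 2) (fun x => by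
          rw [abs_pow]
          exact pow_le_pow_left₀ (abs_nonneg _) (hk k x) 2)
    rw [← integral_finsetSum _ (fun k _ => hi k), ← integral_const_mul,
      ← integral_indicator (hSm a)]
    refine integral_mono (integrable_finsetSum _ fun k _ => hi k)
      (((integrable_norm_sq u).const_mul _).indicator (hSm a)) (fun x => ?_)
    simp only
    rw [← Finset.sum_mul]
    have hsum : ∑ k, pr k (cut a b) x ^ 2 =
        deriv Real.smoothTransition ((‖x‖ ^ 2 - a) / (b - a)) ^ 2 *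
          (4 * ‖x‖ ^ 2 / (b - a) ^ 2) := by
      simp only [pr_cut]
      rw [EuclideanSpace.real_norm_sq_eq]
      simp only [mul_pow, div_pow]
      rw [← Finset.mul_sum, ← Finset.sum_div, ← Finset.mul_sum]
      norm_num
    by_cases hx : x ∈ {x : Rd d | a ≤ ‖x‖ ^ 2}
    · rw [Set.indicator_of_mem hx]
      apply mul_le_mul_of_nonneg_right _ (by positivity)
      rw [hsum]
      by_cases hx2 : 1 < (‖x‖ ^ 2 - a) / (b - a)
      · rw [deriv_st_of_gt hx2]; simp; positivity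
      · push Not at hx2
        rw [div_le_one hba] at hx2
        have h5 : deriv Real.smoothTransition ((‖x‖ ^ 2 - a) / (b - a)) ^ 2 ≤ L ^ 2 := by
          rw [← sq_abs]
          exact pow_le_pow_left₀ (abs_nonneg _) (hL _) 2
        calc deriv Real.smoothTransition ((‖x‖ ^ 2 - a) / (b - a)) ^ 2 *
              (4 * ‖x‖ ^ 2 / (b - a) ^ 2) ≤ L ^ 2 * (8 / (b - a) ^ 2) := by
              apply mul_le_mul h5 _ (by positivity) (by positivity)
              apply div_le_div_of_nonneg_right _ (by positivity)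
              linarith
          _ = _ := by ring
    · rw [Set.indicator_of_notMem hx, hsum]
      have hx2 : (‖x‖ ^ 2 - a) / (b - a) < 0 := by
        apply div_neg_of_neg_of_pos _ hba
        have : ¬ (a ≤ ‖x‖ ^ 2) := hx
        linarith
      rw [deriv_st_of_neg hx2]
      simp
  have h4 : ∫ x, cut a b x ^ 2 * ‖u x‖ ^ 2 ≤
      (1 + M - r⁻¹) * ∫ x, cut a b x ^ 2 * ‖u x‖ ^ 2 := by
    have : 0 ≤ ∫ x, cut a b x ^ 2 * ‖u x‖ ^ 2 := integral_nonneg fun x => by positivity
    nlinarith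
  calc ∫ x in {x : Rd d | b ≤ ‖x‖ ^ 2}, ‖u x‖ ^ 2 ≤ ∫ x, cut a b x ^ 2 * ‖u x‖ ^ 2 := h2
    _ ≤ _ := h4
    _ ≤ _ := h1
    _ ≤ h ^ 2 * (8 * L ^ 2 / (b - a) ^ 2 * ∫ x in {x : Rd d | a ≤ ‖x‖ ^ 2}, ‖u x‖ ^ 2) :=
        mul_le_mul_of_nonneg_left h3 (sq_nonneg h)
    _ = _ := by ring

/-- decay of the eigenfunctions -/
theorem agmon (n : ℕ) (hn : 1 ≤ n) : ∃ L : ℝ, 0 ≤ L ∧ ∀ (d : ℕ) (h : ℝ), 0 < h → h ≤ 1 →
    ∀ (m : Rd d → ℝ) (e : Kc h m) (r : ℝ), 0 < r →
    (∀ v : Kc h m, inner ℂ (iota h m v) (iota h m e) = (r : ℂ) * inner ℂ v e) →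
    ∀ M : ℝ, (∀ x, 1 < ‖x‖ → M ≤ m x ^ 2) → r⁻¹ ≤ M →
    ∫ x in {x : Rd d | 1 + √h ≤ ‖x‖ ^ 2}, ‖(e : HH d) none x‖ ^ 2 ≤ L * h ^ n * ‖e‖ ^ 2 := by
  obtain ⟨L, hL0, hL⟩ := exists_L0
  refine ⟨(8 * L ^ 2 * n ^ 2) ^ n, by positivity, ?_⟩
  intro d h hh hh1 m e r hr he M hM hMr
  have hn' : (0 : ℝ) < n := by exact_mod_cast hn
  have hs : 0 < √h := Real.sqrt_pos.2 hh
  have hs1 : √h ≤ 1 := Real.sqrt_le_one.2 hh1
  set u : L2 d := (e : HH d) none with hu
  have key : ∀ j : ℕ, j ≤ n → ∫ x in {x : Rd d | 1 + j * (√h / n) ≤ ‖x‖ ^ 2}, ‖u x‖ ^ 2 ≤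
      (8 * L ^ 2 * n ^ 2 * h) ^ j * ‖u‖ ^ 2 := by
    intro j
    induction j with
    | zero =>
      intro _
      rw [pow_zero, one_mul, norm_sq_L2]
      exact setIntegral_le_integral (integrable_norm_sq u)
        (Eventually.of_forall fun x => by positivity)
    | succ j ih =>
      intro hj
      have h1 := ih (by omega)
      have hj' : ((j : ℝ) + 1) ≤ n := by exact_mod_cast hj
      have h2 := agmon_step L hL0 hL h m e r hr he M hM hMr (1 + j * (√h / n))
        (1 + (j + 1) * (√h / n)) (by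
          have : 0 ≤ (j : ℝ) * (√h / n) := by positivity
          linarith) (by
          have : 0 < √h / n := by positivity
          linarith) (by
          have h3 : ((j : ℝ) + 1) * (√h / n) ≤ n * (√h / n) :=
            mul_le_mul_of_nonneg_right hj' (by positivity)
          have h4 : (n : ℝ) * (√h / n) = √h := by field_simp
          linarith)
      rw [← hu] at h2
      push_cast
      refine h2.trans ?_
      have h3 : (1 + ((j : ℝ) + 1) * (√h / n) - (1 + j * (√h / n))) = √h / n := by ring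
      rw [h3]
      have h4 : h ^ 2 * (8 * L ^ 2 / (√h / n) ^ 2) = 8 * L ^ 2 * n ^ 2 * h := by
        rw [div_pow, Real.sq_sqrt hh.le]
        field_simp
      rw [h4]
      calc 8 * L ^ 2 * n ^ 2 * h * ∫ x in {x : Rd d | 1 + j * (√h / n) ≤ ‖x‖ ^ 2}, ‖u x‖ ^ 2 ≤
            8 * L ^ 2 * n ^ 2 * h * ((8 * L ^ 2 * n ^ 2 * h) ^ j * ‖u‖ ^ 2) :=
            mul_le_mul_of_nonneg_left h1 (by positivity)
        _ = _ := by ring
  have h1 := key n le_rfl
  have h2 : (n : ℝ) * (√h / n) = √h := by field_simp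
  rw [h2] at h1
  refine h1.trans ?_
  rw [mul_pow _ h]
  apply mul_le_mul_of_nonneg_left _ (by positivity)
  exact pow_le_pow_left₀ (norm_nonneg _) (norm_iota_le h m e) 2

end Pool.Agent.R993.CE
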