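import Mathlib
import Pool.Agent.R993.CE.Abs2b
import Pool.Agent.Helper209.CX.K04

set_option autoImplicit false

namespace Pool.Agent.R993.CE

open Complex

/-- chains of length `n` for a linear relation -/
def KK {X : Type} [AddCommGroup X] [Module ℂ X] (R : Submodule ℂ (X × X)) (E : ℂ) :
    ℕ → Submodule ℂ X
  | 0 => ⊥
  | n + 1 =>
    { carrier := {u | ∃ v ∈ KK R E n, (u, v + E • u) ∈ R}
      add_mem' := by
        rintro a b ⟨v, hv, h1⟩ ⟨w, hw, h2⟩
        refine ⟨v + w, (KK R E n).add_mem hv hw, ?_⟩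
        have := R.add_mem h1 h2
        rw [Prod.mk_add_mk] at this
        rwa [show v + w + E • (a + b) = v + E • a + (w + E • b) by rw [smul_add]; abel]
      zero_mem' := ⟨0, (KK R E n).zero_mem, by
        rw [smul_zero, add_zero]; exact R.zero_mem⟩
      smul_mem' := by
        rintro c a ⟨v, hv, h1⟩
        refine ⟨c • v, (KK R E n).smul_mem c hv, ?_⟩
        have := R.smul_mem c h1
        rw [Prod.smul_mk] at this
        rwa [show c • v + E • c • a = c • (v + E • a) by rw [smul_add, smul_comm E c]] }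

lemma mem_KK_succ {X : Type} [AddCommGroup X] [Module ℂ X] (R : Submodule ℂ (X × X)) (E : ℂ)
    (n : ℕ) (u : X) : u ∈ KK R E (n + 1) ↔ ∃ v ∈ KK R E n, (u, v + E • u) ∈ R := Iff.rfl

lemma KK_le_succ {X : Type} [AddCommGroup X] [Module ℂ X] (R : Submodule ℂ (X × X)) (E : ℂ) :
    ∀ n, KK R E n ≤ KK R E (n + 1) := by
  intro n
  induction n with
  | zero => exact bot_le
  | succ n ih =>
    intro u hu
    obtain ⟨v, hv, h⟩ := (mem_KK_succ R E n u).1 hu
    exact (mem_KK_succ R E (n + 1) u).2 ⟨v, ih hv, h⟩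

lemma KK_mono {X : Type} [AddCommGroup X] [Module ℂ X] (R : Submodule ℂ (X × X)) (E : ℂ) :
    Monotone (KK R E) := monotone_nat_of_le_succ (KK_le_succ R E)

lemma KK_of_chain {X : Type} [AddCommGroup X] [Module ℂ X] (R : Submodule ℂ (X × X)) (E : ℂ)
    (n : ℕ) : ∀ (c : ℕ → X), c n = 0 → (∀ i < n, (c i, c (i + 1) + E • c i) ∈ R) →
      c 0 ∈ KK R E n := by
  induction n with
  | zero =>
    intro c h0 _
    rw [h0]
    exact Submodule.zero_mem _
  | succ n ih =>
    intro c h0 h1
    refine (mem_KK_succ R E n _).2 ⟨c 1, ?_, h1 0 (by omega)⟩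
    exact ih (fun i => c (i + 1)) h0 (fun i hi => h1 (i + 1) (by omega))

variable {X : Type} [NormedAddCommGroup X] [InnerProductSpace ℂ X] [CompleteSpace X]

lemma KK_eig (R : Submodule ℂ (X × X)) (hR : ∀ f : X, ((0 : X), f) ∈ R → f = 0) (E lam : ℂ)
    (hlam : lam ≠ 0) (w : X) (hw : (w, lam • w + E • w) ∈ R) : ∀ j, w ∈ KK R E j → w = 0 := by
  intro j
  induction j with
  | zero => exact fun h => (Submodule.mem_bot ℂ).1 h
  | succ j ih =>
    intro h
    obtain ⟨v, hv, h1⟩ := (mem_KK_succ R E j w).1 h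
    have h2 := R.sub_mem hw h1
    rw [Prod.mk_sub_mk, sub_self] at h2
    have h3 := hR _ h2
    have h4 : v = lam • w := by
      have : lam • w + E • w - (v + E • w) = lam • w - v := by abel
      rw [this] at h3
      exact (sub_eq_zero.1 h3).symm
    apply ih
    have h5 : w = lam⁻¹ • v := by rw [h4, smul_smul, inv_mul_cancel₀ hlam, one_smul]
    rw [h5]
    exact Submodule.smul_mem _ _ hv

/-- the nilpotent part on chains -/
lemma exists_TT (R : Submodule ℂ (X × X)) (hR : ∀ f : X, ((0 : X), f) ∈ R → f = 0) (E : ℂ)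
    (n : ℕ) : ∃ T : KK R E (n + 1) →ₗ[ℂ] KK R E n,
      ∀ u : KK R E (n + 1), ((u : X), (T u : X) + E • (u : X)) ∈ R := by
  have h : ∀ u : KK R E (n + 1), ∃ v : KK R E n, ((u : X), (v : X) + E • (u : X)) ∈ R := by
    intro u
    obtain ⟨v, hv, h1⟩ := (mem_KK_succ R E n u).1 u.2
    exact ⟨⟨v, hv⟩, h1⟩
  choose T hT using h
  have huniq : ∀ (u v w : X), (u, v) ∈ R → (u, w) ∈ R → v = w := by
    intro u v w h1 h2
    have h3 := R.sub_mem h1 h2
    rw [Prod.mk_sub_mk, sub_self] at h3
    exact sub_eq_zero.1 (hR _ h3)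
  refine ⟨{ toFun := T, map_add' := fun u v => ?_, map_smul' := fun c u => ?_ }, hT⟩
  · have h1 := hT (u + v)
    have h2 := R.add_mem (hT u) (hT v)
    rw [Prod.mk_add_mk] at h2
    have h3 := huniq _ _ _ h1 h2
    apply Subtype.ext
    rw [Submodule.coe_add]
    have h4 : ((u + v : KK R E (n + 1)) : X) = (u : X) + (v : X) := rfl
    rw [h4, smul_add] at h3
    have h5 : (T u : X) + E • (u : X) + ((T v : X) + E • (v : X)) =
        ((T u : X) + (T v : X)) + (E • (u : X) + E • (v : X)) := by abel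
    rw [h5] at h3
    exact add_right_cancel h3
  · have h1 := hT (c • u)
    have h2 := R.smul_mem c (hT u)
    rw [Prod.smul_mk] at h2
    have h3 := huniq _ _ _ h1 h2
    apply Subtype.ext
    rw [RingHom.id_apply, Submodule.coe_smul]
    have h4 : ((c • u : KK R E (n + 1)) : X) = c • (u : X) := rfl
    rw [h4, smul_add, smul_comm E c] at h3
    exact add_right_cancel h3

theorem fin_gen (R : Submodule ℂ (X × X)) (hR : ∀ f : X, ((0 : X), f) ∈ R → f = 0) (E : ℂ)
    (N0 : ℕ) (hN : ∀ (N : ℕ) (b : Fin N → X), Orthonormal ℂ b →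
      (∀ k, ∃ f, (b k, f) ∈ R ∧ inner ℂ (b k) f = E) → N ≤ N0) :
    Module.Finite ℂ (Submodule.span ℂ {u | ∃ (n : ℕ) (c : ℕ → X), c 0 = u ∧ c n = 0 ∧
      ∀ i < n, (c i, c (i + 1) + E • c i) ∈ R}) := by
  -- each `K n` is finite dimensional
  have hfin : ∀ n, FiniteDimensional ℂ (KK R E n) := by
    have h1 : FiniteDimensional ℂ (KK R E 1) := by
      refine (finite_of_bound (KK R E 1) N0 fun F hF hFR => ?_).1
      set b := stdOrthonormalBasis ℂ F
      refine hN _ (fun k => (b k : X)) ?_ (fun k => ?_)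
      · exact b.orthonormal.comp_linearIsometry F.subtypeₗᵢ
      · obtain ⟨v, hv, h2⟩ := (mem_KK_succ R E 0 _).1 (hFR (b k).2)
        have h3 : v = 0 := (Submodule.mem_bot ℂ).1 hv
        rw [h3, zero_add] at h2
        refine ⟨_, h2, ?_⟩
        rw [inner_smul_right, inner_self_eq_norm_sq_to_K]
        have h4 : ‖(b k : X)‖ = 1 := b.orthonormal.1 k
        rw [h4]
        simp
    intro n
    induction n with
    | zero => exact (inferInstance : FiniteDimensional ℂ (⊥ : Submodule ℂ X))
    | succ n ih =>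
      obtain ⟨T, hT⟩ := exists_TT R hR E n
      have hker : FiniteDimensional ℂ (LinearMap.ker T) := by
        let ι : LinearMap.ker T →ₗ[ℂ] KK R E 1 :=
          { toFun := fun u => ⟨(u : X), by
              refine (mem_KK_succ R E 0 _).2 ⟨0, Submodule.zero_mem _, ?_⟩
              have h2 := hT u
              have h3 : T (u : KK R E (n + 1)) = 0 := u.2
              rw [h3] at h2
              exact h2⟩
            map_add' := fun u v => rfl
            map_smul' := fun c u => rfl }
        have hinj : Function.Injective ι := by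
          intro u v huv
          have h2 : ((ι u : KK R E 1) : X) = ((ι v : KK R E 1) : X) := by rw [huv]
          exact Subtype.ext (Subtype.ext h2)
        exact FiniteDimensional.of_injective ι hinj
      have hran : FiniteDimensional ℂ (LinearMap.range T) := inferInstance
      have hquot : Module.Finite ℂ (KK R E (n + 1) ⧸ LinearMap.ker T) :=
        Module.Finite.equiv T.quotKerEquivRange.symm
      exact Module.Finite.of_submodule_quotient (LinearMap.ker T)
  -- bound on the dimensions
  have hdim : ∀ n, Module.finrank ℂ (KK R E n) ≤ N0 := by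
    intro n
    rcases n with _ | n
    · have : Module.finrank ℂ (KK R E 0) = 0 := by
        change Module.finrank ℂ (⊥ : Submodule ℂ X) = 0
        exact finrank_bot ℂ X
      omega
    obtain ⟨T, hT⟩ := exists_TT R hR E n
    have := hfin (n + 1)
    let T' : KK R E (n + 1) →ₗ[ℂ] KK R E (n + 1) :=
      (Submodule.inclusion (KK_le_succ R E n)).comp T
    have hT' : ∀ u : KK R E (n + 1), ((u : X), (T' u : X) + E • (u : X)) ∈ R := hT
    obtain ⟨b, -, hb, -, -, heig⟩ := Helper209.CX.K04.d4_schur_aux (fun _ => True) _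
      (KK R E (n + 1)) rfl T'
    refine hN _ (fun k => (b k : X)) ?_ (fun k => ⟨_, hT' (b k), ?_⟩)
    · exact hb.comp_linearIsometry (KK R E (n + 1)).subtypeₗᵢ
    · have h0 : inner ℂ (b k) (T' (b k)) = (0 : ℂ) := by
        by_contra hne
        obtain ⟨w, hw0, hw⟩ := heig k
        apply hw0
        apply Subtype.ext
        refine KK_eig R hR E _ hne (w : X) ?_ (n + 1) w.2
        have h2 := hT' w
        rw [hw] at h2
        exact h2
      have h1 : inner ℂ (b k : X) ((T' (b k) : KK R E (n + 1)) : X) = (0 : ℂ) := h0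
      rw [inner_add_right, h1, zero_add, inner_smul_right, inner_self_eq_norm_sq_to_K]
      have h4 : ‖(b k : X)‖ = 1 := hb.1 k
      rw [h4]
      simp
  refine (finite_of_bound _ N0 fun F hF hFR => ?_).1
  -- `F` lies in some `K n`
  have hsup : F ≤ ⨆ n, KK R E n := by
    refine hFR.trans (Submodule.span_le.2 ?_)
    rintro u ⟨n, c, h0, h1, h2⟩
    rw [← h0]
    exact Submodule.mem_iSup_of_mem n (KK_of_chain R E n c h1 h2)
  have hdir : Directed (· ≤ ·) (KK R E) := (KK_mono R E).directed_le
  have hFfg : F.FG := Submodule.fg_iff_finiteDimensional F |>.2 hF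
  have hex : ∃ n, F ≤ KK R E n := by
    have hc : IsCompactElement F := (Submodule.fg_iff_compact F).1 hFfg
    obtain ⟨n, hn⟩ := (CompleteLattice.isCompactElement_iff_le_of_directed_sSup_le _ F).1 hc
      (Set.range (KK R E)) (Set.range_nonempty _) (directedOn_range.2 hdir) hsup
    obtain ⟨⟨m, rfl⟩, h2⟩ := hn
    exact ⟨m, h2⟩
  obtain ⟨n, hn⟩ := hex
  have := hfin n
  exact (Submodule.finrank_mono hn).trans (hdim n)

end Pool.Agent.R993.CE
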