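import Mathlib
import Pool.Agent.R993.CE.Space

set_option autoImplicit false

namespace Pool.Agent.R993.CE

open MeasureTheory Complex Filter Topology
open scoped ENNReal ContDiff

variable {d : ℕ}

/-- `u` lies in the form domain, with weak gradient `g` -/
def InDom (V : Rd d → ℂ) (u : L2 d) (g : Fin d → L2 d) : Prop :=
  IsWeakGrad u g ∧ MemLp (fun x => ((√‖V x‖ : ℝ) : ℂ) * u x) 2 volume

/-- `H u = f` for the operator of the form `h² ∫ ∇u · conj ∇v + ∫ V u conj v` -/
def IsHu (h : ℝ) (V : Rd d → ℂ) (u f : L2 d) : Prop :=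
  ∃ g : Fin d → L2 d, InDom V u g ∧ ∀ (v : L2 d) (γ : Fin d → L2 d), InDom V v γ →
    (h : ℂ) ^ 2 * (∑ k, ∫ x, (starRingEnd ℂ) (γ k x) * g k x) +
      (∫ x, (starRingEnd ℂ) (v x) * (V x * u x)) = ∫ x, (starRingEnd ℂ) (v x) * f x

/-- the potential -/
noncomputable def VV (U B : Rd d → ℝ) (x : Rd d) : ℂ := (U x : ℂ) + I * (1 - (B x : ℂ))

lemma norm_VV_le (U B : Rd d → ℝ) (hU : ∀ x, 0 ≤ U x) (hB0 : ∀ x, 0 ≤ B x) (hB1 : ∀ x, B x ≤ 1)
    (x : Rd d) : ‖VV U B x‖ ≤ U x + 1 := by
  unfold VV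
  refine (norm_add_le _ _).trans ?_
  rw [norm_mul, Complex.norm_I, one_mul, Complex.norm_real, Real.norm_of_nonneg (hU x)]
  have : ‖(1 : ℂ) - (B x : ℂ)‖ ≤ 1 := by
    rw [← Complex.ofReal_one, ← Complex.ofReal_sub, Complex.norm_real, Real.norm_eq_abs,
      abs_le]
    constructor <;> linarith [hB0 x, hB1 x]
  linarith

lemma le_norm_VV (U B : Rd d → ℝ) (hU : ∀ x, 0 ≤ U x) (x : Rd d) : U x ≤ ‖VV U B x‖ := by
  have h1 := Complex.abs_re_le_norm (VV U B x)
  have h2 : (VV U B x).re = U x := by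
    unfold VV
    simp
  rw [h2, abs_of_nonneg (hU x)] at h1
  exact h1

lemma measurable_VV (U B : Rd d → ℝ) (hUm : Measurable U) (hBm : Measurable B) :
    Measurable (VV U B) := by
  unfold VV
  fun_prop

theorem isHu_of (U B : Rd d → ℝ) (hUm : Measurable U) (hBm : Measurable B) (hU : ∀ x, 0 ≤ U x)
    (hB0 : ∀ x, 0 ≤ B x) (hB1 : ∀ x, B x ≤ 1) (M' : ℝ) (hM' : 0 ≤ M') (h : ℝ) (hh : 0 < h)
    (m : Rd d → ℝ) (hm : m = fun x => √(U x + M' * B x))
    (β : Kc h m →L[ℂ] L2 d)
    (hβ : ∀ v, β v =ᵐ[volume] fun x => ((√(B x) : ℝ) : ℂ) * (v : HH d) none x)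
    (w w' : Kc h m)
    (H : ∀ v : Kc h m, inner ℂ v w -
      inner ℂ (iota h _ v) (iota h _ w) - ((M' : ℂ) + I) * inner ℂ (β v) (β w) =
      inner ℂ (iota h _ v) (iota h _ w')) :
    IsHu h (VV U B) (iota h _ w) (iota h _ w' + I • iota h _ w) := by
  have hA0 : ∀ x, 0 ≤ U x + M' * B x := fun x => by
    have := mul_nonneg hM' (hB0 x)
    linarith [hU x]
  have hmm : Measurable m := by rw [hm]; exact (hUm.add (hBm.const_mul M')).sqrt
  have hVm := measurable_VV U B hUm hBm
  have hm0 : ∀ x, 0 ≤ m x := fun x => by rw [hm]; exact Real.sqrt_nonneg _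
  have hh0 : (h : ℂ) ≠ 0 := by exact_mod_cast hh.ne'
  set u : L2 d := (w : HH d) none with hu
  set u1 : L2 d := (w : HH d) (some none) with hu1
  have hw1 : ∀ᵐ x, u1 x = (m x : ℂ) * u x := w.2.1
  refine ⟨fun k => (h : ℂ)⁻¹ • (w : HH d) (some (some k)), ⟨fun k φ hφ => ?_, ?_⟩, ?_⟩
  · have h1 := w.2.2 k φ hφ
    rw [iota_apply]
    rw [integral_mul_eq (hφ.memLp 2)] at h1 ⊢
    rw [inner_smul_right]
    have h2 : ∫ x, (w : HH d) none x * pd k φ x = (h : ℂ)⁻¹ * ((h : ℂ) *
        ∫ x, (w : HH d) none x * pd k φ x) := by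
      rw [inv_mul_cancel_left₀ hh0]
    rw [h2, h1]
    ring
  · rw [iota_apply]
    have h1 : MemLp (fun x => ‖u1 x‖ + ‖u x‖) 2 volume := (Lp.memLp u1).norm.add (Lp.memLp u).norm
    refine MemLp.of_le h1 ?_ ?_
    · exact (Complex.measurable_ofReal.comp hVm.norm.sqrt).aestronglyMeasurable.mul
        (Lp.aestronglyMeasurable _)
    · filter_upwards [hw1] with x hx
      rw [norm_mul, Complex.norm_real, Real.norm_of_nonneg (Real.sqrt_nonneg _), hx, norm_mul,
        Complex.norm_real, Real.norm_of_nonneg (hm0 x)]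
      have h2 : √‖VV U B x‖ ≤ m x + 1 := by
        rw [Real.sqrt_le_left (by linarith [hm0 x])]
        refine (norm_VV_le U B hU hB0 hB1 x).trans ?_
        have h3 : U x ≤ m x ^ 2 := by
          simp only [hm]
          rw [Real.sq_sqrt (hA0 x)]
          have := mul_nonneg hM' (hB0 x)
          linarith
        have h4 : 0 ≤ m x := by rw [hm]; exact Real.sqrt_nonneg _
        nlinarith
      have h5 : 0 ≤ ‖u x‖ := norm_nonneg _
      have h6 : 0 ≤ m x := by rw [hm]; exact Real.sqrt_nonneg _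
      rw [Real.norm_of_nonneg (by positivity)]
      calc √‖VV U B x‖ * ‖u x‖ ≤ (m x + 1) * ‖u x‖ := mul_le_mul_of_nonneg_right h2 h5
        _ = m x * ‖u x‖ + ‖u x‖ := by ring
  · rintro v γ ⟨hv1, hv2⟩
    -- the test vector
    have hmv : MemLp (fun x => (m x : ℂ) * v x) 2 volume := by
      have h1 : MemLp (fun x => ‖((√‖VV U B x‖ : ℝ) : ℂ) * v x‖ + √M' * ‖v x‖) 2 volume :=
        hv2.norm.add ((Lp.memLp v).norm.const_mul _)
      refine MemLp.of_le h1 ?_ ?_
      · exact (Complex.measurable_ofReal.comp hmm).aestronglyMeasurable.mul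
          (Lp.aestronglyMeasurable _)
      · refine Eventually.of_forall fun x => ?_
        rw [norm_mul, norm_mul, Complex.norm_real, Complex.norm_real,
          Real.norm_of_nonneg (hm0 x), Real.norm_of_nonneg (Real.sqrt_nonneg _)]
        have h2 : m x ≤ √‖VV U B x‖ + √M' := by
          have h3 : U x + M' * B x ≤ ‖VV U B x‖ + M' := by
            have := le_norm_VV U B hU x
            have h4 := mul_le_mul_of_nonneg_left (hB1 x) hM'
            linarith
          calc m x ≤ √(‖VV U B x‖ + M') := by rw [hm]; exact Real.sqrt_le_sqrt h3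
            _ ≤ _ := by
              rw [Real.sqrt_le_left (by positivity)]
              have h5 := Real.sq_sqrt (norm_nonneg (VV U B x))
              have h6 := Real.sq_sqrt hM'
              have h7 := mul_nonneg (Real.sqrt_nonneg ‖VV U B x‖) (Real.sqrt_nonneg M')
              nlinarith
        rw [Real.norm_of_nonneg (by positivity)]
        calc m x * ‖v x‖ ≤ (√‖VV U B x‖ + √M') * ‖v x‖ :=
              mul_le_mul_of_nonneg_right h2 (norm_nonneg _)
          _ = _ := by ring
    let vv : HH d := WithLp.toLp 2 (fun i => match i with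
      | none => v
      | some none => hmv.toLp _
      | some (some k) => (h : ℂ) • γ k)
    have hvv : vv ∈ Kc h m := by
      refine ⟨hmv.coeFn_toLp, fun k φ hφ => ?_⟩
      change (h : ℂ) * ∫ x, v x * pd k φ x = -∫ x, ((h : ℂ) • γ k : L2 d) x * φ x
      rw [hv1 k φ hφ, integral_mul_eq (hφ.memLp 2), integral_mul_eq (hφ.memLp 2),
        inner_smul_right]
      ring
    have hH := H ⟨vv, hvv⟩
    rw [inner_Kc] at hH
    have e0 : (vv none : L2 d) = v := rfl
    have e1 : (vv (some none) : L2 d) = hmv.toLp _ := rfl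
    have e2 : ∀ k, (vv (some (some k)) : L2 d) = (h : ℂ) • γ k := fun k => rfl
    have e3 : iota h m (⟨vv, hvv⟩ : Kc h m) = v := rfl
    simp only [e0, e1, e2, e3, iota_apply, inner_smul_left, Complex.conj_ofReal] at hH
    -- pointwise identity
    have hint1 := integrable_conj_mul (hmv.toLp _) u1
    have hint2 := integrable_conj_mul (β ⟨vv, hvv⟩) (β w)
    have hint3 := integrable_conj_mul v u
    have key : ∫ x, (starRingEnd ℂ) (v x) * (VV U B x * u x) =
        inner ℂ (hmv.toLp _) u1 - ((M' : ℂ) + I) * inner ℂ (β ⟨vv, hvv⟩) (β w) +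
          I * inner ℂ v u := by
      rw [inner_eq_integral, inner_eq_integral, inner_eq_integral, ← integral_const_mul,
        ← integral_const_mul, ← integral_sub hint1 (hint2.const_mul _),
        ← integral_add (f := fun x => (starRingEnd ℂ) ((hmv.toLp _ : L2 d) x) * u1 x -
          ((M' : ℂ) + I) * ((starRingEnd ℂ) (β ⟨vv, hvv⟩ x) * β w x))
          (hint1.sub (hint2.const_mul _)) (hint3.const_mul _)]
      refine integral_congr_ae ?_
      filter_upwards [hmv.coeFn_toLp, hw1, hβ ⟨vv, hvv⟩, hβ w] with x h1 h2 h3 h4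
      simp only [h1, h2, h3, h4]
      have e4 : ((⟨vv, hvv⟩ : Kc h m) : HH d) none x = v x := rfl
      have e5 : (w : HH d) none x = u x := rfl
      rw [e4, e5]
      simp only [map_mul, Complex.conj_ofReal]
      have h5 : ((m x : ℝ) : ℂ) * ((m x : ℝ) : ℂ) = (U x : ℂ) + (M' : ℂ) * (B x : ℂ) := by
        rw [← Complex.ofReal_mul]
        simp only [hm]
        rw [Real.mul_self_sqrt (hA0 x)]
        push_cast
        ring
      have h6 : ((√(B x) : ℝ) : ℂ) * ((√(B x) : ℝ) : ℂ) = (B x : ℂ) := by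
        rw [← Complex.ofReal_mul, Real.mul_self_sqrt (hB0 x)]
      unfold VV
      linear_combination (-(starRingEnd ℂ) (v x) * u x) * h5 +
        (((M' : ℂ) + I) * (starRingEnd ℂ) (v x) * u x) * h6
    have key2 : ∀ k, ∫ x, (starRingEnd ℂ) (γ k x) * ((h : ℂ)⁻¹ • (w : HH d) (some (some k)) :
        L2 d) x = (h : ℂ)⁻¹ * inner ℂ (γ k) ((w : HH d) (some (some k))) := by
      intro k
      rw [← inner_smul_right, inner_eq_integral]
    have key3 : ∫ x, (starRingEnd ℂ) (v x) * ((w' : HH d) none + I • (w : HH d) none : L2 d) x =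
        inner ℂ v ((w' : HH d) none) + I * inner ℂ v u := by
      rw [← inner_eq_integral, inner_add_right, inner_smul_right]
    rw [iota_apply, iota_apply]
    rw [key3]
    simp only [key2]
    rw [key]
    have key4 : (h : ℂ) ^ 2 * ∑ k, (h : ℂ)⁻¹ * inner ℂ (γ k) ((w : HH d) (some (some k))) =
        ∑ k, (h : ℂ) * inner ℂ (γ k) ((w : HH d) (some (some k))) := by
      rw [Finset.mul_sum]
      refine Finset.sum_congr rfl fun k _ => ?_
      field_simp
    rw [key4]
    linear_combination hH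

end Pool.Agent.R993.CE
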