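import Mathlib
import Pool.Agent.R993.CE.Hu

set_option autoImplicit false

namespace Pool.Agent.R993.CE

open MeasureTheory Complex Filter Topology
open scoped ENNReal ContDiff

variable {d : ℕ}

/-- profile of the absorbing part -/
noncomputable def th (s : ℝ) : ℝ := if s < 2 then expNegInvGlue (s - 1) else 1

/-- profile of the wall -/
noncomputable def ups (a s : ℝ) : ℝ := if 1 < s ∧ s < 2 then (s - 1) ^ (-a) else 0

/-- absorbing part -/
noncomputable def BB (x : Rd d) : ℝ := th (‖x‖ ^ 2)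

/-- wall -/
noncomputable def UU (a : ℝ) (x : Rd d) : ℝ := ups a (‖x‖ ^ 2)

lemma expNegInvGlue_le_one (t : ℝ) : expNegInvGlue t ≤ 1 := by
  unfold expNegInvGlue
  split_ifs with h
  · exact zero_le_one
  · push Not at h
    rw [Real.exp_le_one_iff]
    have : 0 < t⁻¹ := inv_pos.2 h
    linarith

lemma th_nonneg (s : ℝ) : 0 ≤ th s := by
  unfold th
  split_ifs
  · exact expNegInvGlue.nonneg _
  · exact zero_le_one

lemma th_le_one (s : ℝ) : th s ≤ 1 := by
  unfold th
  split_ifs
  · exact expNegInvGlue_le_one _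
  · exact le_rfl

lemma ups_nonneg (a s : ℝ) : 0 ≤ ups a s := by
  unfold ups
  split_ifs with h
  · apply Real.rpow_nonneg
    linarith [h.1]
  · exact le_rfl

lemma measurable_th : Measurable th := by
  unfold th
  refine Measurable.ite measurableSet_Iio ?_ measurable_const
  exact ((expNegInvGlue.contDiff (n := 0)).continuous.measurable).comp (measurable_id.sub_const 1)

lemma measurable_ups (a : ℝ) : Measurable (ups a) := by
  unfold ups
  refine Measurable.ite ?_ ?_ measurable_const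
  · exact (measurableSet_Ioi (a := (1 : ℝ))).inter measurableSet_Iio
  · exact (measurable_id.sub_const 1).pow_const _

lemma measurable_BB : Measurable (BB (d := d)) :=
  measurable_th.comp (by fun_prop)

lemma measurable_UU (a : ℝ) : Measurable (UU (d := d) a) :=
  (measurable_ups a).comp (by fun_prop)

lemma exists_M' (a : ℝ) (ha : 0 < a) (M : ℝ) : ∃ M' : ℝ, 0 ≤ M' ∧ ∀ (d : ℕ) (x : Rd d), 1 < ‖x‖ →
    M ≤ UU a x + M' * BB x := by
  rcases le_or_gt M 0 with hM | hM
  · refine ⟨0, le_rfl, fun d x _ => ?_⟩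
    rw [zero_mul, add_zero]
    exact hM.trans (ups_nonneg _ _)
  set η : ℝ := M ^ (-a⁻¹) with hη
  have hη0 : 0 < η := Real.rpow_pos_of_pos hM _
  have hc : 0 < expNegInvGlue η := expNegInvGlue.pos_of_pos hη0
  refine ⟨M / expNegInvGlue η, by positivity, fun d x hx => ?_⟩
  set s : ℝ := ‖x‖ ^ 2 with hs
  have hs1 : 1 < s := by nlinarith [norm_nonneg x]
  have hM1 : M ≤ M / expNegInvGlue η := by
    rw [le_div_iff₀ hc]
    have := expNegInvGlue_le_one η
    nlinarith
  unfold UU BB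
  rw [← hs]
  by_cases h2 : s < 2
  · unfold ups th
    rw [if_pos ⟨hs1, h2⟩, if_pos h2]
    by_cases h3 : s - 1 ≤ η
    · have h4 : M ≤ (s - 1) ^ (-a) := by
        have h5 : η ^ (-a) = M := by
          rw [hη, ← Real.rpow_mul hM.le]
          have : -a⁻¹ * -a = 1 := by field_simp
          rw [this, Real.rpow_one]
        rw [← h5]
        exact Real.rpow_le_rpow_of_nonpos (by linarith) h3 (by linarith)
      have h6 : 0 ≤ M / expNegInvGlue η * expNegInvGlue (s - 1) := by
        have := expNegInvGlue.nonneg (s - 1)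
        positivity
      linarith
    · push Not at h3
      have h4 : expNegInvGlue η ≤ expNegInvGlue (s - 1) := expNegInvGlue.monotone h3.le
      have h5 : 0 ≤ (s - 1) ^ (-a) := Real.rpow_nonneg (by linarith) _
      have h6 : M ≤ M / expNegInvGlue η * expNegInvGlue (s - 1) := by
        rw [div_mul_eq_mul_div, le_div_iff₀ hc]
        exact mul_le_mul_of_nonneg_left h4 hM.le
      linarith
  · unfold th
    rw [if_neg h2, mul_one]
    have := ups_nonneg a s
    linarith

lemma expNegInvGlue_le_pow (k : ℕ) (t : ℝ) (ht : 0 ≤ t) : expNegInvGlue t ≤ k.factorial * t ^ k := by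
  rcases ht.eq_or_lt with h | h
  · rw [← h, expNegInvGlue.zero]
    positivity
  · unfold expNegInvGlue
    rw [if_neg (not_le.2 h)]
    have h1 := Real.pow_div_factorial_le_exp t⁻¹ (inv_pos.2 h).le k
    rw [Real.exp_neg]
    have h2 : 0 < t⁻¹ ^ k / k.factorial := by positivity
    calc (Real.exp t⁻¹)⁻¹ ≤ (t⁻¹ ^ k / k.factorial)⁻¹ := inv_anti₀ h2 h1
      _ = _ := by rw [inv_div, inv_pow, div_inv_eq_mul]

lemma BB_le (k : ℕ) (τ : ℝ) (hτ : 0 < τ) (hτ1 : τ ≤ 1) (x : Rd d) (hx : ‖x‖ ^ 2 ≤ 1 + τ) :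
    BB x ≤ k.factorial * τ ^ k := by
  unfold BB th
  split_ifs with h
  · rcases le_or_gt (‖x‖ ^ 2 - 1) 0 with h1 | h1
    · rw [expNegInvGlue.zero_of_nonpos h1]
      positivity
    · refine (expNegInvGlue_le_pow k _ h1.le).trans ?_
      gcongr
      linarith
  · have h1 : τ = 1 := by linarith
    rw [h1, one_pow, mul_one]
    exact_mod_cast Nat.one_le_iff_ne_zero.2 (Nat.factorial_ne_zero k)

lemma UU_zero (a : ℝ) (x : Rd d) (hx : ‖x‖ ≤ 1) : UU a x = 0 := by
  unfold UU ups
  rw [if_neg]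
  rintro ⟨h, -⟩
  nlinarith [norm_nonneg x]

lemma BB_zero (x : Rd d) (hx : ‖x‖ ≤ 1) : BB x = 0 := by
  unfold BB th
  have h1 : ‖x‖ ^ 2 ≤ 1 := by nlinarith [norm_nonneg x]
  rw [if_pos (by linarith), expNegInvGlue.zero_of_nonpos (by linarith)]

lemma memLp_UU (hd : 1 ≤ d) (q : ℝ) (hq : 0 < q) :
    MemLp (UU (d := d) (1 / (2 * q))) (ENNReal.ofReal q) volume := by
  have : Nontrivial (Rd d) := by
    have : Nonempty (Fin d) := ⟨⟨0, hd⟩⟩
    infer_instance
  rw [← integrable_norm_rpow_iff (measurable_UU _).aestronglyMeasurable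
    (by simpa using hq) ENNReal.ofReal_ne_top, ENNReal.toReal_ofReal hq.le]
  have h1 : (fun x : Rd d => ‖UU (1 / (2 * q)) x‖ ^ q) =
      (fun x : Rd d => (fun y : ℝ => ‖ups (1 / (2 * q)) (y ^ 2)‖ ^ q) ‖x‖) := rfl
  rw [h1, integrable_fun_norm_addHaar volume
    (f := fun y : ℝ => ‖ups (1 / (2 * q)) (y ^ 2)‖ ^ q)]
  have hmeas : Measurable (fun y : ℝ => y ^ (Module.finrank ℝ (Rd d) - 1) •
      ‖ups (1 / (2 * q)) (y ^ 2)‖ ^ q) := by
    have h2 : Measurable fun y : ℝ => ups (1 / (2 * q)) (y ^ 2) :=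
      (measurable_ups _).comp (by fun_prop)
    have h3 : Measurable fun y : ℝ => ‖ups (1 / (2 * q)) (y ^ 2)‖ ^ q := h2.norm.pow_const q
    simp only [smul_eq_mul]
    exact (measurable_id.pow_const _).mul h3
  -- the majorant
  have hmaj : IntegrableOn (fun y : ℝ => 2 ^ d * (y - 1) ^ (-(1 / 2 : ℝ))) (Set.Ioc 1 2) := by
    have h2 : IntervalIntegrable (fun y : ℝ => (y - 1) ^ (-(1 / 2 : ℝ))) volume 1 2 := by
      have h3 : IntervalIntegrable (fun x : ℝ => x ^ (-(1 / 2 : ℝ))) volume 0 1 :=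
        intervalIntegral.intervalIntegrable_rpow' (by norm_num)
      have h4 := h3.comp_sub_right 1
      convert! h4 using 1 <;> norm_num
    rw [intervalIntegrable_iff_integrableOn_Ioc_of_le (by norm_num)] at h2
    exact h2.const_mul _
  have hmaj2 : Integrable ((Set.Ioc (1 : ℝ) 2).indicator
      (fun y : ℝ => 2 ^ d * (y - 1) ^ (-(1 / 2 : ℝ)))) volume :=
    (integrable_indicator_iff measurableSet_Ioc).2 hmaj
  refine Integrable.mono' hmaj2.integrableOn hmeas.aestronglyMeasurable ?_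
  filter_upwards [ae_restrict_mem measurableSet_Ioi] with y hy
  have hy0 : (0 : ℝ) < y := hy
  by_cases h2 : 1 < y ^ 2 ∧ y ^ 2 < 2
  · have hy1 : 1 < y := by nlinarith
    have hy2 : y < 2 := by nlinarith
    have hmem : y ∈ Set.Ioc (1 : ℝ) 2 := ⟨hy1, hy2.le⟩
    rw [Set.indicator_of_mem hmem]
    have h3 : ‖ups (1 / (2 * q)) (y ^ 2)‖ ^ q = (y ^ 2 - 1) ^ (-(1 / 2 : ℝ)) := by
      unfold ups
      rw [if_pos h2, Real.norm_of_nonneg (Real.rpow_nonneg (by linarith) _),
        ← Real.rpow_mul (by linarith)]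
      congr 1
      field_simp
    rw [h3, smul_eq_mul, Real.norm_of_nonneg (mul_nonneg (by positivity)
      (Real.rpow_nonneg (by linarith) _))]
    apply mul_le_mul _ _ (Real.rpow_nonneg (by linarith) _) (by positivity)
    · rw [finrank_euclideanSpace, Fintype.card_fin]
      calc y ^ (d - 1) ≤ 2 ^ (d - 1) := pow_le_pow_left₀ hy0.le hy2.le _
        _ ≤ 2 ^ d := pow_le_pow_right₀ (by norm_num) (by omega)
    · apply Real.rpow_le_rpow_of_nonpos (by linarith) _ (by norm_num)
      nlinarith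
  · have h3 : ups (1 / (2 * q)) (y ^ 2) = 0 := by
      unfold ups
      rw [if_neg h2]
    rw [h3, norm_zero, Real.zero_rpow hq.ne', smul_zero, norm_zero]
    apply Set.indicator_nonneg
    intro z hz
    have : (0 : ℝ) ≤ z - 1 := by linarith [hz.1]
    positivity

lemma memLp_VV (hd : 1 ≤ d) (q : ℝ) (hq : 0 < q) :
    MemLp (VV (UU (d := d) (1 / (2 * q))) BB) (ENNReal.ofReal q) volume := by
  have h1 : MemLp (fun x : Rd d => ‖UU (1 / (2 * q)) x‖ +
      (Metric.closedBall (0 : Rd d) 2).indicator (fun _ => (1 : ℝ)) x)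
      (ENNReal.ofReal q) volume :=
    (memLp_UU hd q hq).norm.add (memLp_indicator_const _ measurableSet_closedBall _
      (Or.inr measure_closedBall_lt_top.ne))
  refine MemLp.of_le h1 (measurable_VV _ _ (measurable_UU _) measurable_BB).aestronglyMeasurable ?_
  refine Eventually.of_forall fun x => ?_
  have hU := ups_nonneg (1 / (2 * q)) (‖x‖ ^ 2)
  have h2 : 0 ≤ (Metric.closedBall (0 : Rd d) 2).indicator (fun _ => (1 : ℝ)) x :=
    Set.indicator_nonneg (fun _ _ => zero_le_one) x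
  rw [Real.norm_of_nonneg (add_nonneg (norm_nonneg _) h2)]
  by_cases hx : ‖x‖ ≤ 2
  · rw [Set.indicator_of_mem (mem_closedBall_zero_iff.2 hx)]
    refine (norm_VV_le _ _ (fun x => ups_nonneg _ _) (fun x => th_nonneg _)
      (fun x => th_le_one _) x).trans ?_
    rw [Real.norm_eq_abs]
    exact add_le_add_left (le_abs_self _) 1
  · push Not at hx
    have h3 : ¬ (‖x‖ ^ 2 < 2) := by nlinarith
    have h4 : VV (UU (1 / (2 * q))) BB x = 0 := by
      unfold VV UU ups BB th
      rw [if_neg (fun h => h3 h.2), if_neg h3]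
      simp
    rw [h4, norm_zero]
    positivity

lemma VV_zero_of (a : ℝ) (x : Rd d) (hx : 2 ≤ ‖x‖) : VV (UU a) BB x = 0 := by
  have h3 : ¬ (‖x‖ ^ 2 < 2) := by nlinarith
  unfold VV UU ups BB th
  rw [if_neg (fun h => h3 h.2), if_neg h3]
  simp

end Pool.Agent.R993.CE
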