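import Mathlib
import Pool.Agent.R993.CE.Agmon

set_option autoImplicit false

namespace Pool.Agent.R993.CE

open MeasureTheory Complex Filter Topology
open scoped ENNReal ContDiff

variable {d : ℕ}

lemma norm_sq_sum_orth {H J : Type*} [NormedAddCommGroup H] [InnerProductSpace ℂ H] [Fintype J]
    (v : J → H) (hv : ∀ i j, i ≠ j → inner ℂ (v i) (v j) = 0) (c : J → ℂ) :
    ‖∑ i, c i • v i‖ ^ 2 = ∑ i, ‖c i‖ ^ 2 * ‖v i‖ ^ 2 := by
  classical
  have h1 : inner ℂ (∑ i, c i • v i) (∑ i, c i • v i) =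
      ((∑ i, ‖c i‖ ^ 2 * ‖v i‖ ^ 2 : ℝ) : ℂ) := by
    rw [sum_inner]
    push_cast
    refine Finset.sum_congr rfl fun i _ => ?_
    rw [inner_sum, Finset.sum_eq_single i]
    · rw [inner_smul_left, inner_smul_right, inner_self_eq_norm_sq_to_K, ← mul_assoc]
      have : (starRingEnd ℂ) (c i) * c i = ((‖c i‖ : ℝ) : ℂ) ^ 2 := by
        rw [mul_comm, Complex.mul_conj, Complex.normSq_eq_norm_sq]
        push_cast
        rfl
      rw [this]
      rfl
    · intro j _ hj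
      rw [inner_smul_left, inner_smul_right, hv i j (Ne.symm hj)]
      ring
    · intro h
      exact absurd (Finset.mem_univ i) h
  have h2 : ‖∑ i, c i • v i‖ ^ 2 = (inner ℂ (∑ i, c i • v i) (∑ i, c i • v i)).re :=
    (inner_self_eq_norm_sq (𝕜 := ℂ) _).symm
  rw [h2, h1, Complex.ofReal_re]

/-- integration by parts for test functions -/
lemma test_ibp {φ ψ : Rd d → ℂ} (hφ : IsTest φ) (hψ : IsTest ψ) (k : Fin d) :
    ∫ x, φ x * pd k ψ x = -∫ x, pd k φ x * ψ x := by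
  have h1 : Integrable (fun x => fderiv ℝ φ x (EuclideanSpace.single k 1) * ψ x)
      (volume : Measure (Rd d)) := ((hφ.pd k).memLp 2).integrable_mul (hψ.memLp 2)
  have h2 : Integrable (fun x => φ x * fderiv ℝ ψ x (EuclideanSpace.single k 1))
      (volume : Measure (Rd d)) := (hφ.memLp 2).integrable_mul ((hψ.pd k).memLp 2)
  have h3 : Integrable (fun x => φ x * ψ x) (volume : Measure (Rd d)) :=
    (hφ.memLp 2).integrable_mul (hψ.memLp 2)
  exact integral_mul_fderiv_eq_neg_fderiv_mul_of_integrable h1 h2 h3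
    (fun x _ => hφ.1.differentiable (by simp) x) (fun x _ => hψ.1.differentiable (by simp) x)

/-- a test function in the well as an element of the form domain -/
lemma exists_elt (h : ℝ) (m : Rd d → ℝ) (hm : ∀ x, ‖x‖ ≤ 1 → m x = 0) {φ : Rd d → ℂ}
    (hφ : IsTest φ) (hφ1 : ∀ x, 1 < ‖x‖ → φ x = 0) :
    ∃ w : Kc h m, ((w : HH d) none = (hφ.memLp 2).toLp φ) ∧ ((w : HH d) (some none) = 0) ∧
      ∀ k, (w : HH d) (some (some k)) = (h : ℂ) • ((hφ.pd k).memLp 2).toLp _ := by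
  let v : HH d := WithLp.toLp 2 (fun i => match i with
      | none => (hφ.memLp 2).toLp φ
      | some none => 0
      | some (some k) => (h : ℂ) • ((hφ.pd k).memLp 2).toLp _)
  have e0 : (v none : L2 d) = (hφ.memLp 2).toLp φ := rfl
  have e1 : (v (some none) : L2 d) = 0 := rfl
  have e2 : ∀ k, (v (some (some k)) : L2 d) = (h : ℂ) • ((hφ.pd k).memLp 2).toLp _ := fun k => rfl
  refine ⟨⟨v, ?_, fun k ψ hψ => ?_⟩, e0, e1, e2⟩
  · rw [e0, e1]
    filter_upwards [(hφ.memLp 2).coeFn_toLp, Lp.coeFn_zero ℂ 2 (volume : Measure (Rd d))]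
      with x h1 h2
    rw [h1, h2]
    by_cases hx : ‖x‖ ≤ 1
    · rw [hm x hx]; simp
    · rw [hφ1 x (not_le.1 hx)]; simp
  · rw [e0, e2]
    have i1 : ∫ x, ((hφ.memLp 2).toLp φ : L2 d) x * pd k ψ x = ∫ x, φ x * pd k ψ x := by
      refine integral_congr_ae ?_
      filter_upwards [(hφ.memLp 2).coeFn_toLp] with x h1
      rw [h1]
    have i2 : ∫ x, ((h : ℂ) • ((hφ.pd k).memLp 2).toLp _ : L2 d) x * ψ x =
        (h : ℂ) * ∫ x, pd k φ x * ψ x := by
      rw [← integral_const_mul]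
      refine integral_congr_ae ?_
      filter_upwards [((hφ.pd k).memLp 2).coeFn_toLp,
        Lp.coeFn_smul (h : ℂ) (((hφ.pd k).memLp 2).toLp _)] with x h1 h2
      rw [h2, Pi.smul_apply, h1, smul_eq_mul, mul_assoc]
    rw [i1, i2, test_ibp hφ hψ k]
    ring

lemma norm_sq_toLp {φ : Rd d → ℂ} (hφ : MemLp φ 2 volume) :
    ‖hφ.toLp φ‖ ^ 2 = ∫ x, ‖φ x‖ ^ 2 := by
  rw [norm_sq_L2]
  refine integral_congr_ae ?_
  filter_upwards [hφ.coeFn_toLp] with x hx
  rw [hx]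

lemma inner_toLp_zero {φ ψ : Rd d → ℂ} (hφ : MemLp φ 2 volume) (hψ : MemLp ψ 2 volume)
    (h : ∀ x, φ x = 0 ∨ ψ x = 0) : inner ℂ (hφ.toLp φ) (hψ.toLp ψ) = 0 := by
  rw [inner_eq_integral]
  have : ∫ x, (starRingEnd ℂ) ((hφ.toLp φ : L2 d) x) * (hψ.toLp ψ : L2 d) x =
      ∫ _ : Rd d, (0 : ℂ) := by
    refine integral_congr_ae ?_
    filter_upwards [hφ.coeFn_toLp, hψ.coeFn_toLp] with x h1 h2
    rw [h1, h2]
    rcases h x with h3 | h3 <;> rw [h3] <;> simp
  rw [this, integral_zero]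

/-- rescaled bump -/
noncomputable def bump (f : Rd d → ℝ) (s : ℝ) (z x : Rd d) : ℂ := ((f (s⁻¹ • (x - z)) : ℝ) : ℂ)

lemma bump_test (f : Rd d → ℝ) (hf : ContDiff ℝ ∞ f) (hfc : HasCompactSupport f) (s : ℝ)
    (hs : 0 < s) (z : Rd d) : IsTest (bump f s z) := by
  unfold bump
  constructor
  · have h1 : ContDiff ℝ ∞ (fun x : Rd d => s⁻¹ • (x - z)) :=
      (contDiff_id.sub contDiff_const).const_smul _
    exact ofRealCLM.contDiff.comp (hf.comp h1)
  · have h1 : HasCompactSupport (fun x : Rd d => f (s⁻¹ • (x - z))) := by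
      have h2 : HasCompactSupport (fun x : Rd d => f (s⁻¹ • x)) :=
        hfc.comp_smul (inv_ne_zero hs.ne')
      exact h2.comp_homeomorph (Homeomorph.subRight z)
    exact h1.comp_left (g := (fun t : ℝ => (t : ℂ))) Complex.ofReal_zero

lemma pd_bump (f : Rd d → ℝ) (hf : ContDiff ℝ ∞ f) (s : ℝ) (z x : Rd d) (k : Fin d) :
    pd k (bump f s z) x = ((s⁻¹ * pr k f (s⁻¹ • (x - z)) : ℝ) : ℂ) := by
  unfold pd pr bump
  have h1 : HasFDerivAt f (fderiv ℝ f (s⁻¹ • (x - z))) (s⁻¹ • (x - z)) :=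
    (hf.differentiable (by simp) _).hasFDerivAt
  have h2 : HasFDerivAt (fun x : Rd d => s⁻¹ • (x - z))
      (s⁻¹ • ContinuousLinearMap.id ℝ (Rd d)) x :=
    ((hasFDerivAt_id x).sub_const z).const_smul s⁻¹
  have h3 : HasFDerivAt (fun x : Rd d => f (s⁻¹ • (x - z))) _ x := h1.comp x h2
  have h4 : HasFDerivAt (fun x : Rd d => ((f (s⁻¹ • (x - z)) : ℝ) : ℂ)) _ x :=
    ofRealCLM.hasFDerivAt.comp x h3
  rw [h4.fderiv]
  simp

lemma integral_scaled (F : Rd d → ℝ) (s : ℝ) (hs : 0 < s) (z : Rd d) :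
    ∫ x, F (s⁻¹ • (x - z)) = s ^ d * ∫ x, F x := by
  rw [integral_sub_right_eq_self (fun x => F (s⁻¹ • x)) z,
    Measure.integral_comp_inv_smul_of_nonneg volume F hs.le, finrank_euclideanSpace,
    Fintype.card_fin, smul_eq_mul]

/-- the trial space -/
theorem trial (hd : 1 ≤ d) : ∃ c : ℝ, 0 < c ∧ ∀ Λ : ℝ, 1 ≤ Λ → ∀ h : ℝ, 0 < h → h ≤ c →
    ∀ m : Rd d → ℝ, (∀ x, ‖x‖ ≤ 1 → m x = 0) →
    ∃ F : Submodule ℂ (Kc h m), FiniteDimensional ℂ F ∧
      (∀ w ∈ F, (1 + Λ)⁻¹ * ‖w‖ ^ 2 ≤ ‖iota h m w‖ ^ 2) ∧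
      c * (√Λ / h) ^ d ≤ Module.finrank ℂ F := by
  have hd' : (0 : ℝ) < d := by exact_mod_cast hd
  let fb : ContDiffBump (0 : Rd d) := ⟨1 / 2, 1, by norm_num, by norm_num⟩
  set f : Rd d → ℝ := fun x => fb x with hfdef
  have hf : ContDiff ℝ ∞ f := fb.contDiff
  have hfc : HasCompactSupport f := fb.hasCompactSupport
  have hfsupp : ∀ x, 1 ≤ ‖x‖ → f x = 0 := fun x hx => fb.zero_of_le_dist (by simpa using hx)
  have hfsupp' : ∀ x, 1 < ‖x‖ → fderiv ℝ f x = 0 := by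
    intro x hx
    by_contra h1
    have h2 := support_fderiv_subset ℝ (f := f) h1
    rw [hfdef, fb.tsupport_eq, mem_closedBall_zero_iff] at h2
    have : ‖x‖ ≤ 1 := h2
    linarith
  set N0 : ℝ := ∫ x, f x ^ 2 with hN0
  set D0 : ℝ := ∑ k, ∫ x, pr k f x ^ 2 with hD0
  have hN0pos : 0 < N0 := by
    rw [hN0, integral_pos_iff_support_of_nonneg (fun x => sq_nonneg _)]
    · have h1 : Metric.ball (0 : Rd d) 1 ⊆ Function.support (fun x => f x ^ 2) := by
        intro x hx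
        have : 0 < f x := fb.pos_of_mem_ball hx
        simp only [Function.mem_support]
        positivity
      exact (Metric.measure_ball_pos volume _ one_pos).trans_le (measure_mono h1)
    · have : Continuous fun x => f x ^ 2 := by
        have := hf.continuous
        fun_prop
      refine this.integrable_of_hasCompactSupport ?_
      exact hfc.comp_left (g := fun t : ℝ => t ^ 2) (by norm_num)
  have hD0' : 0 ≤ D0 := Finset.sum_nonneg fun k _ => integral_nonneg fun x => sq_nonneg _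
  set C0 : ℝ := D0 / N0 + 1 with hC0
  have hC0pos : 0 < C0 := by positivity
  set c : ℝ := min ((6 * √d * √C0)⁻¹ ^ d) ((3 * √d * √C0)⁻¹) with hc
  have hcpos : 0 < c := by
    rw [hc]
    apply lt_min <;> positivity
  refine ⟨c, hcpos, fun Λ hΛ h hh hhc m hm => ?_⟩
  have hΛ0 : 0 < Λ := by linarith
  set s : ℝ := h * √C0 / √Λ with hs
  have hsΛ : 1 ≤ √Λ := Real.one_le_sqrt.2 hΛ
  have hs0 : 0 < s := by positivity
  have hs2 : h ^ 2 * (s⁻¹) ^ 2 * D0 ≤ Λ * N0 := by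
    have h1 : h ^ 2 * (s⁻¹) ^ 2 = Λ / C0 := by
      rw [hs, inv_div, div_pow, mul_pow, Real.sq_sqrt hΛ0.le, Real.sq_sqrt hC0pos.le]
      field_simp
    rw [h1, div_mul_eq_mul_div, div_le_iff₀ hC0pos]
    have h2 : D0 ≤ N0 * C0 := by
      rw [hC0, mul_add, mul_one, mul_div_cancel₀ _ hN0pos.ne']
      linarith
    calc Λ * D0 ≤ Λ * (N0 * C0) := mul_le_mul_of_nonneg_left h2 hΛ0.le
      _ = _ := by ring
  have hs1 : 3 * √d * s ≤ 1 := by
    have h1 : h ≤ (3 * √d * √C0)⁻¹ := hhc.trans (min_le_right _ _)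
    have h2 : s ≤ h * √C0 := by
      rw [hs]
      exact div_le_self (by positivity) hsΛ
    have h3 : 3 * √d * s ≤ 3 * √d * ((3 * √d * √C0)⁻¹ * √C0) := by
      apply mul_le_mul_of_nonneg_left _ (by positivity)
      exact h2.trans (mul_le_mul_of_nonneg_right h1 (Real.sqrt_nonneg _))
    have h4 : 3 * √d * ((3 * √d * √C0)⁻¹ * √C0) = 1 := by
      have : √C0 ≠ 0 := by positivity
      have : √(d : ℝ) ≠ 0 := by positivity
      field_simp
    linarith
  have h3s : 0 < 3 * √d * s := by positivity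
  set n : ℕ := ⌊(3 * √d * s)⁻¹⌋₊ with hn
  have hone : 1 ≤ (3 * √d * s)⁻¹ := (one_le_inv₀ h3s).2 hs1
  have hn1 : 1 ≤ n := by
    rw [hn]
    exact (Nat.one_le_floor_iff _).2 hone
  have hn2 : (n : ℝ) ≤ (3 * √d * s)⁻¹ := Nat.floor_le (by positivity)
  have hn3 : (6 * √d * s)⁻¹ ≤ n := by
    have h1 := Nat.lt_floor_add_one ((3 * √d * s)⁻¹)
    rw [← hn] at h1
    have h2 : (1 : ℝ) ≤ n := by exact_mod_cast hn1
    have h3 : (6 * √d * s)⁻¹ = (3 * √d * s)⁻¹ / 2 := by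
      field_simp
      norm_num
    rw [h3]
    linarith
  -- the centres
  let z : (Fin d → Fin n) → Rd d := fun j => WithLp.toLp 2 (fun i => 3 * s * ((j i : ℕ) : ℝ))
  have hz : ∀ j i, z j i = 3 * s * ((j i : ℕ) : ℝ) := fun j i => rfl
  have hznorm : ∀ j, ‖z j‖ ≤ √d * (3 * s * (n - 1)) := by
    intro j
    rw [EuclideanSpace.norm_eq]
    have hnn : (0 : ℝ) ≤ n - 1 := by
      have : (1 : ℝ) ≤ n := by exact_mod_cast hn1
      linarith
    have h1 : ∀ i ∈ Finset.univ, ‖z j i‖ ^ 2 ≤ (3 * s * (n - 1)) ^ 2 := by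
      intro i _
      rw [hz, Real.norm_of_nonneg (by positivity)]
      apply pow_le_pow_left₀ (by positivity)
      have h2 : ((j i : ℕ) : ℝ) + 1 ≤ n := by exact_mod_cast (j i).2
      have h3 : ((j i : ℕ) : ℝ) ≤ n - 1 := by linarith
      exact mul_le_mul_of_nonneg_left h3 (by positivity)
    calc √(∑ i, ‖z j i‖ ^ 2) ≤ √(∑ _i : Fin d, (3 * s * (n - 1)) ^ 2) :=
          Real.sqrt_le_sqrt (Finset.sum_le_sum h1)
      _ = √d * (3 * s * (n - 1)) := by
          rw [Finset.sum_const, Finset.card_univ, Fintype.card_fin, nsmul_eq_mul,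
            Real.sqrt_mul (by positivity), Real.sqrt_sq (by positivity)]
  have hdsep : ∀ i j, i ≠ j → 3 * s ≤ ‖z i - z j‖ := by
    intro i j hij
    obtain ⟨k, hk⟩ := Function.ne_iff.1 hij
    have h1 := PiLp.norm_apply_le (z i - z j) k
    refine le_trans ?_ h1
    rw [PiLp.sub_apply, hz, hz, ← mul_sub, norm_mul, Real.norm_of_nonneg (by positivity : 0 ≤ 3 * s)]
    have h2 : (1 : ℝ) ≤ ‖((i k : ℕ) : ℝ) - ((j k : ℕ) : ℝ)‖ := by
      rw [Real.norm_eq_abs]
      have h3 : ((i k : ℕ) : ℤ) ≠ ((j k : ℕ) : ℤ) := by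
        intro h4
        apply hk
        ext
        exact_mod_cast h4
      have h4 : 1 ≤ |((i k : ℕ) : ℤ) - ((j k : ℕ) : ℤ)| := Int.one_le_abs (sub_ne_zero.2 h3)
      exact_mod_cast h4
    nlinarith
  have hsd : 1 ≤ √(d : ℝ) := Real.one_le_sqrt.2 (by exact_mod_cast hd)
  -- supports
  have hfar : ∀ j x, 1 < ‖x‖ → 1 < ‖s⁻¹ • (x - z j)‖ := by
    intro j x hx
    rw [norm_smul, norm_inv, Real.norm_of_nonneg hs0.le, lt_inv_mul_iff₀ hs0, mul_one]
    have h1 : ‖x‖ ≤ ‖x - z j‖ + ‖z j‖ := by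
      have := norm_add_le (x - z j) (z j)
      rwa [sub_add_cancel] at this
    have h2 := hznorm j
    have h3 : √d * (3 * s * n) ≤ 1 := by
      have h4 : 3 * √d * s * n ≤ 3 * √d * s * (3 * √d * s)⁻¹ :=
        mul_le_mul_of_nonneg_left hn2 h3s.le
      rw [mul_inv_cancel₀ h3s.ne'] at h4
      linarith
    have h5 : √d * (3 * s * (n - 1)) = √d * (3 * s * n) - 3 * (√d * s) := by ring
    have h6 : s ≤ √d * s := by nlinarith
    have h7 : 0 < √d * s := by positivity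
    linarith
  have hsep : ∀ i j, i ≠ j → ∀ x, 1 < ‖s⁻¹ • (x - z i)‖ ∨ 1 < ‖s⁻¹ • (x - z j)‖ := by
    intro i j hij x
    by_contra hcon
    push Not at hcon
    rw [norm_smul, norm_smul, norm_inv, Real.norm_of_nonneg hs0.le, inv_mul_le_iff₀ hs0,
      inv_mul_le_iff₀ hs0, mul_one] at hcon
    have h1 := hdsep i j hij
    have h2 : ‖z i - z j‖ ≤ ‖x - z i‖ + ‖x - z j‖ := by
      have h3 : z i - z j = (x - z j) - (x - z i) := by abel
      rw [h3]
      have := norm_sub_le (x - z j) (x - z i)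
      linarith
    linarith [hcon.1, hcon.2]
  have hT : ∀ j, IsTest (bump f s (z j)) := fun j => bump_test f hf hfc s hs0 (z j)
  have hT1 : ∀ j x, 1 < ‖x‖ → bump f s (z j) x = 0 := by
    intro j x hx
    unfold bump
    rw [hfsupp _ (hfar j x hx).le]
    simp
  choose w hw0 hw1 hw2 using fun j => exists_elt h m hm (hT j) (hT1 j)
  have hpz : ∀ j x, 1 < ‖s⁻¹ • (x - z j)‖ → ∀ k, pd k (bump f s (z j)) x = 0 := by
    intro j x hx k
    rw [pd_bump f hf]
    unfold pr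
    rw [hfsupp' _ hx]
    simp
  have hbz : ∀ j x, 1 < ‖s⁻¹ • (x - z j)‖ → bump f s (z j) x = 0 := by
    intro j x hx
    unfold bump
    rw [hfsupp _ hx.le]
    simp
  have horth0 : ∀ i j, i ≠ j → inner ℂ (iota h m (w i)) (iota h m (w j)) = 0 := by
    intro i j hij
    rw [iota_apply, iota_apply, hw0, hw0]
    apply inner_toLp_zero
    intro x
    rcases hsep i j hij x with h1 | h1
    · exact Or.inl (hbz i x h1)
    · exact Or.inr (hbz j x h1)
  have horth : ∀ i j, i ≠ j → inner ℂ (w i) (w j) = 0 := by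
    intro i j hij
    rw [inner_Kc]
    have h1 := horth0 i j hij
    rw [iota_apply, iota_apply] at h1
    rw [h1, hw1, inner_zero_left, zero_add, zero_add]
    refine Finset.sum_eq_zero fun k _ => ?_
    rw [hw2, hw2, inner_smul_left, inner_smul_right, inner_toLp_zero]
    · simp
    · intro x
      rcases hsep i j hij x with h1 | h1
      · exact Or.inl (hpz i x h1 k)
      · exact Or.inr (hpz j x h1 k)
  have hnorm0 : ∀ j, ‖iota h m (w j)‖ ^ 2 = s ^ d * N0 := by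
    intro j
    rw [iota_apply, hw0, norm_sq_toLp, hN0, ← integral_scaled (fun x => f x ^ 2) s hs0 (z j)]
    refine integral_congr_ae (Eventually.of_forall fun x => ?_)
    simp only [bump]
    rw [Complex.norm_real, Real.norm_eq_abs, sq_abs]
  have hnorm : ∀ j, ‖w j‖ ^ 2 = s ^ d * N0 + h ^ 2 * (s⁻¹) ^ 2 * (s ^ d * D0) := by
    intro j
    have h1 := hnorm0 j
    rw [iota_apply] at h1
    rw [norm_sq_Kc, h1, hw1, norm_zero, zero_pow two_ne_zero, zero_add]
    congr 1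
    rw [hD0, Finset.mul_sum, Finset.mul_sum]
    refine Finset.sum_congr rfl fun k _ => ?_
    have hk : ∫ x, ‖pd k (bump f s (z j)) x‖ ^ 2 = (s⁻¹) ^ 2 * (s ^ d * ∫ x, pr k f x ^ 2) := by
      rw [← integral_scaled (fun x => pr k f x ^ 2) s hs0 (z j), ← integral_const_mul]
      refine integral_congr_ae (Eventually.of_forall fun x => ?_)
      simp only
      rw [pd_bump f hf, Complex.norm_real, Real.norm_eq_abs, sq_abs, mul_pow]
    rw [hw2, norm_smul, mul_pow, Complex.norm_real, Real.norm_of_nonneg hh.le, norm_sq_toLp, hk]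
    ring
  have hbound : ∀ j, (1 + Λ)⁻¹ * ‖w j‖ ^ 2 ≤ ‖iota h m (w j)‖ ^ 2 := by
    intro j
    rw [hnorm, hnorm0, inv_mul_le_iff₀ (by positivity)]
    have h1 : h ^ 2 * (s⁻¹) ^ 2 * (s ^ d * D0) ≤ Λ * (s ^ d * N0) := by
      calc h ^ 2 * (s⁻¹) ^ 2 * (s ^ d * D0) = s ^ d * (h ^ 2 * (s⁻¹) ^ 2 * D0) := by ring
        _ ≤ s ^ d * (Λ * N0) := mul_le_mul_of_nonneg_left hs2 (by positivity)
        _ = _ := by ring
    linarith
  set F : Submodule ℂ (Kc h m) := Submodule.span ℂ (Set.range w) with hF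
  have hli : LinearIndependent ℂ w := by
    rw [Fintype.linearIndependent_iff]
    intro g hg i
    have h1 := norm_sq_sum_orth w horth g
    rw [hg, norm_zero, zero_pow two_ne_zero] at h1
    have h2 := (Finset.sum_eq_zero_iff_of_nonneg (fun i _ => by positivity)).1 h1.symm i
      (Finset.mem_univ i)
    have h3 : 0 < ‖w i‖ ^ 2 := by
      rw [hnorm]
      positivity
    rcases mul_eq_zero.1 h2 with h4 | h4
    · exact norm_eq_zero.1 (pow_eq_zero_iff two_ne_zero |>.1 h4)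
    · exact absurd h4 h3.ne'
  refine ⟨F, FiniteDimensional.span_of_finite ℂ (Set.finite_range w), ?_, ?_⟩
  · intro v hv
    rw [hF] at hv
    obtain ⟨g, rfl⟩ := (Submodule.mem_span_range_iff_exists_fun ℂ).1 hv
    rw [map_sum]
    simp only [map_smul]
    rw [norm_sq_sum_orth w horth g, norm_sq_sum_orth (fun i => iota h m (w i)) horth0 g,
      Finset.mul_sum]
    refine Finset.sum_le_sum fun i _ => ?_
    calc (1 + Λ)⁻¹ * (‖g i‖ ^ 2 * ‖w i‖ ^ 2) = ‖g i‖ ^ 2 * ((1 + Λ)⁻¹ * ‖w i‖ ^ 2) := by ring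
      _ ≤ _ := mul_le_mul_of_nonneg_left (hbound i) (by positivity)
  · have h1 : Module.finrank ℂ F = n ^ d := by
      rw [hF, finrank_span_eq_card hli]
      simp
    rw [h1]
    push_cast
    have h2 : c ≤ (6 * √d * √C0)⁻¹ ^ d := min_le_left _ _
    have h3 : (6 * √d * √C0)⁻¹ ^ d * (√Λ / h) ^ d = ((6 * √d * s)⁻¹) ^ d := by
      rw [← mul_pow]
      congr 1
      rw [hs]
      field_simp
    calc c * (√Λ / h) ^ d ≤ (6 * √d * √C0)⁻¹ ^ d * (√Λ / h) ^ d :=
          mul_le_mul_of_nonneg_right h2 (by positivity)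
      _ = ((6 * √d * s)⁻¹) ^ d := h3
      _ ≤ (n : ℝ) ^ d := pow_le_pow_left₀ (by positivity) hn3 d

end Pool.Agent.R993.CE
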