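import Mathlib
import Pool.Agent.R993.CE.Abs4
import Pool.Agent.R993.CE.Pot
import Pool.Agent.R993.CE.Trial
import Pool.Agent.R993.CE.Agmon2

set_option autoImplicit false

namespace Pool.Agent.R993.CE

open MeasureTheory Complex Filter Topology
open scoped ENNReal ContDiff

variable {d : ℕ}

/-- `u` is a generalised eigenvector for `E` (or `0`): `(H - E)ⁿ u = 0` for some `n` -/
def IsGen (h : ℝ) (V : Rd d → ℂ) (E : ℂ) (u : L2 d) : Prop :=
  ∃ (n : ℕ) (c : ℕ → L2 d), c 0 = u ∧ c n = 0 ∧ ∀ i < n, IsHu h V (c i) (c (i + 1) + E • c i)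

/-- the generalised eigenspace of `E` -/
noncomputable def genSpace (h : ℝ) (V : Rd d → ℂ) (E : ℂ) : Submodule ℂ (L2 d) :=
  Submodule.span ℂ {u | IsGen h V E u}

/-- the algebraic multiplicity of `E` -/
noncomputable def algMult (h : ℝ) (V : Rd d → ℂ) (E : ℂ) : ℕ∞ :=
  Cardinal.toENat (Module.rank ℂ (genSpace h V E))

/-- absorbing mass of an eigenfunction -/
lemma absorb_le (n : ℕ) (hn : 1 ≤ n) : ∃ C : ℝ, 0 ≤ C ∧ ∀ (d : ℕ) (h : ℝ), 0 < h → h ≤ 1 →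
    ∀ (m : Rd d → ℝ) (e : Kc h m) (r : ℝ), 0 < r →
    (∀ v : Kc h m, inner ℂ (iota h m v) (iota h m e) = (r : ℂ) * inner ℂ v e) →
    ∀ M : ℝ, (∀ x, 1 < ‖x‖ → M ≤ m x ^ 2) → r⁻¹ ≤ M →
    ∫ x, BB x * ‖(e : HH d) none x‖ ^ 2 ≤ C * h ^ n * ‖e‖ ^ 2 := by
  obtain ⟨L, hL0, hL⟩ := agmon n hn
  refine ⟨L + (2 * n).factorial, by positivity, ?_⟩
  intro d h hh hh1 m e r hr he M hM hMr
  have h1 := hL d h hh hh1 m e r hr he M hM hMr
  set u : L2 d := (e : HH d) none with hu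
  have hs : 0 < √h := Real.sqrt_pos.2 hh
  have hs1 : √h ≤ 1 := Real.sqrt_le_one.2 hh1
  have hSm : MeasurableSet {x : Rd d | 1 + √h ≤ ‖x‖ ^ 2} :=
    measurableSet_le measurable_const (by fun_prop)
  have h2 : ∫ x, BB x * ‖u x‖ ^ 2 ≤ ∫ x, (({x : Rd d | 1 + √h ≤ ‖x‖ ^ 2}.indicator
      (fun x => ‖u x‖ ^ 2) x) + (2 * n).factorial * h ^ n * ‖u x‖ ^ 2) := by
    refine integral_mono (integrable_mul_norm_sq u BB measurable_BB 1 (fun x => by
      have h0 : 0 ≤ BB x := th_nonneg _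
      rw [abs_of_nonneg h0]; exact th_le_one _))
      (((integrable_norm_sq u).indicator hSm).add ((integrable_norm_sq u).const_mul _))
      (fun x => ?_)
    have h3 : 0 ≤ ‖u x‖ ^ 2 := by positivity
    by_cases hx : x ∈ {x : Rd d | 1 + √h ≤ ‖x‖ ^ 2}
    · simp only
      rw [Set.indicator_of_mem hx]
      have h4 : BB x ≤ 1 := th_le_one _
      have h5 : 0 ≤ (2 * n).factorial * h ^ n * ‖u x‖ ^ 2 := by positivity
      nlinarith
    · simp only
      rw [Set.indicator_of_notMem hx, zero_add]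
      have h4 : ‖x‖ ^ 2 ≤ 1 + √h := by
        have : ¬ (1 + √h ≤ ‖x‖ ^ 2) := hx
        linarith
      have h5 := BB_le (2 * n) (√h) hs hs1 x h4
      rw [pow_mul, Real.sq_sqrt hh.le] at h5
      exact mul_le_mul_of_nonneg_right h5 h3
  rw [integral_add ((integrable_norm_sq u).indicator hSm) ((integrable_norm_sq u).const_mul _),
    integral_indicator hSm, integral_const_mul, ← norm_sq_L2] at h2
  refine h2.trans ?_
  have h6 : ‖u‖ ^ 2 ≤ ‖e‖ ^ 2 := pow_le_pow_left₀ (norm_nonneg _) (norm_iota_le h m e) 2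
  have h7 : (2 * n).factorial * h ^ n * ‖u‖ ^ 2 ≤ (2 * n).factorial * h ^ n * ‖e‖ ^ 2 :=
    mul_le_mul_of_nonneg_left h6 (by positivity)
  calc _ ≤ L * h ^ n * ‖e‖ ^ 2 + (2 * n).factorial * h ^ n * ‖e‖ ^ 2 := add_le_add h1 h7
    _ = _ := by ring

/-- counting eigenvalues near `i + [0, 2Λ]` -/
theorem count (hd : 1 ≤ d) (a : ℝ) (ha : 0 < a) : ∃ c : ℝ, 0 < c ∧ ∀ Λ : ℝ, 1 ≤ Λ →
    ∃ h0 : ℝ, 0 < h0 ∧ ∀ h : ℝ, 0 < h → h ≤ h0 → ∀ f : ℂ → ℝ≥0∞,
    (∀ (E : ℂ) (t : ℝ), 0 ≤ t → t ≤ 2 * Λ → ‖E - ((t : ℂ) + I)‖ ≤ 1 / 4 → 1 ≤ f E) →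
    ENNReal.ofReal (c * (√Λ / h) ^ d) ≤
      ∑' E : ℂ, ((algMult h (VV (UU (d := d) a) BB) E : ℕ∞) : ℝ≥0∞) * f E := by
  obtain ⟨c, hc, htrial⟩ := trial (d := d) hd
  refine ⟨c, hc, fun Λ hΛ => ?_⟩
  have hΛ0 : 0 < Λ := by linarith
  have hd' : (0 : ℝ) < d := by exact_mod_cast hd
  obtain ⟨M', hM'0, hM'⟩ := exists_M' a ha (8 * Λ + 1)
  obtain ⟨C3, hC3, habs⟩ := absorb_le (4 * d + 2) (by omega)
  set κ : ℂ := (M' : ℂ) + I with hκ
  set ρa : ℝ := (1 + 2 * Λ)⁻¹ with hρa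
  set ρb : ℝ := (1 + Λ)⁻¹ with hρb
  have hρa0 : 0 < ρa := by positivity
  have hρab : ρa < ρb := by
    rw [hρa, hρb]
    apply inv_strictAnti₀ (by positivity)
    linarith
  have hρb1 : ρb ≤ 1 := by
    rw [hρb]
    apply inv_le_one_of_one_le₀
    linarith
  set C1 : ℝ := √(2 ^ (d + 5) * d * Λ) + 1 with hC1
  have hC1' : 1 ≤ C1 := by
    have := Real.sqrt_nonneg (2 ^ (d + 5) * d * Λ)
    linarith
  set C2 : ℝ := (3 * C1) ^ d with hC2
  have hC2' : 1 ≤ C2 := one_le_pow₀ (by linarith)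
  set C4 : ℝ := ‖κ‖ * (2 * C2) / (ρb - ρa) * (‖κ‖ * √C3 * (4 * C2 / ρa)) with hC4
  set C5 : ℝ := C2 * (2 * ‖κ‖ * √C3 / ρa) with hC5
  have hsub : 0 < ρb - ρa := by linarith
  have hC4' : 0 ≤ C4 := by positivity
  have hC5' : 0 ≤ C5 := by positivity
  set h0 : ℝ := min (min c 1) (min (1 / (4 * C4 + 4)) (1 / (4 * C5 + 4))) with hh0
  have hh0pos : 0 < h0 := by
    rw [hh0]
    apply lt_min (lt_min hc one_pos)
    apply lt_min <;> positivity
  refine ⟨h0, hh0pos, fun h hh hhh0 f hf => ?_⟩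
  have hhc : h ≤ c := hhh0.trans ((min_le_left _ _).trans (min_le_left _ _))
  have hh1 : h ≤ 1 := hhh0.trans ((min_le_left _ _).trans (min_le_right _ _))
  have hh4 : C4 * h ≤ 1 / 4 := by
    have h1 : h ≤ 1 / (4 * C4 + 4) := hhh0.trans ((min_le_right _ _).trans (min_le_left _ _))
    rw [le_div_iff₀ (by positivity)] at h1
    nlinarith
  have hh5 : C5 * h ≤ 1 / 4 := by
    have h1 : h ≤ 1 / (4 * C5 + 4) := hhh0.trans ((min_le_right _ _).trans (min_le_right _ _))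
    rw [le_div_iff₀ (by positivity)] at h1
    nlinarith
  have hU : ∀ x : Rd d, 0 ≤ UU a x := fun x => ups_nonneg _ _
  have hB0 : ∀ x : Rd d, 0 ≤ BB x := fun x => th_nonneg _
  have hB1 : ∀ x : Rd d, BB x ≤ 1 := fun x => th_le_one _
  obtain ⟨m, hm⟩ : ∃ m : Rd d → ℝ, m = fun x => √(UU a x + M' * BB x) := ⟨_, rfl⟩
  have hm2 : ∀ x, m x ^ 2 = UU a x + M' * BB x := by
    intro x
    rw [hm]
    apply Real.sq_sqrt
    have := mul_nonneg hM'0 (hB0 x)
    linarith [hU x]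
  have hmwell : ∀ x, ‖x‖ ≤ 1 → m x = 0 := by
    intro x hx
    rw [hm]
    simp only
    rw [UU_zero a x hx, BB_zero x hx]
    simp
  have hmM : ∀ x, 1 < ‖x‖ → 8 * Λ + 1 ≤ m x ^ 2 := by
    intro x hx
    rw [hm2]
    exact hM' d x hx
  -- the absorbing map
  obtain ⟨T, hT, hTn⟩ := exists_mul (fun x : Rd d => √(BB x)) measurable_BB.sqrt 1 (fun x => by
    rw [abs_of_nonneg (Real.sqrt_nonneg _)]
    exact Real.sqrt_le_one.2 (hB1 x))
  set β : Kc h m →L[ℂ] L2 d := T.comp (iota h m) with hβdef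
  have hβ : ∀ v, β v =ᵐ[volume] fun x => ((√(BB x) : ℝ) : ℂ) * (v : HH d) none x :=
    fun v => hT _
  have hβn : ∀ v, ‖β v‖ ≤ ‖v‖ := by
    intro v
    have h1 := hTn (iota h m v)
    rw [one_mul] at h1
    exact h1.trans (norm_iota_le h m v)
  -- dimension bound
  set K : ℕ := ⌈√(2 ^ (d + 5) * d * Λ) / h⌉₊ with hK
  have hsq : 0 < √(2 ^ (d + 5) * d * Λ) := Real.sqrt_pos.2 (by positivity)
  have hK0 : 0 < K := Nat.ceil_pos.2 (by positivity)
  have hK1 : √(2 ^ (d + 5) * d * Λ) ≤ K * h := by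
    have := Nat.le_ceil (√(2 ^ (d + 5) * d * Λ) / h)
    rwa [div_le_iff₀ hh] at this
  have hK2 : (K : ℝ) ≤ C1 / h := by
    have h1 := (Nat.ceil_lt_add_one (by positivity : 0 ≤ √(2 ^ (d + 5) * d * Λ) / h)).le
    rw [← hK] at h1
    refine h1.trans ?_
    rw [hC1, add_div]
    have : 1 ≤ 1 / h := by
      rw [le_div_iff₀ hh]; linarith
    linarith
  have hKh : 2 ^ (d + 5) * d * Λ ≤ (K * h) ^ 2 := by
    have h1 := pow_le_pow_left₀ (Real.sqrt_nonneg _) hK1 2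
    rwa [Real.sq_sqrt (by positivity)] at h1
  have hNmax : (((2 * K + 1) ^ d : ℕ) : ℝ) ≤ C2 / h ^ d := by
    push_cast
    rw [hC2, ← div_pow]
    apply pow_le_pow_left₀ (by positivity)
    have h1 : (1 : ℝ) ≤ K := by exact_mod_cast hK0
    have h2 : 3 * C1 / h = 3 * (C1 / h) := by ring
    rw [h2]
    linarith
  have hhd : 0 < h ^ d := by positivity
  have hone : 1 ≤ C2 / h ^ d := by
    rw [le_div_iff₀ hhd, one_mul]
    exact (pow_le_one₀ hh.le hh1).trans hC2'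
  obtain ⟨F, hF, hFb, hFn⟩ := htrial Λ hΛ h hh hhc m hmwell
  set ε : ℝ := √C3 * h ^ (2 * d + 1) with hε
  have hε0 : 0 ≤ ε := by positivity
  have hmain := abstract_main (iota h m) β (norm_iota_le h m) hβn M' κ hκ
    (IsHu h (VV (UU (d := d) a) BB))
    (fun w w' H => isHu_of (UU a) BB (measurable_UU a) measurable_BB hU hB0 hB1 M' hM'0 h hh
      m hm β hβ w w' H) ρa ρb hρa0 hρab hρb1 ((2 * K + 1) ^ d)
    (fun F' hF' hFa => dim_bound hd h hh m Λ hΛ0 (fun x hx => by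
      have := hmM x hx
      linarith) K hK0 hKh F' hF' hFa) F hF hFb ε hε0
    (fun e r hr he1 her => by
      have hr0 : 0 < r := hρa0.trans_le hr
      have h1 := habs d h hh hh1 m e r hr0 her (8 * Λ + 1) hmM (by
        have h2 : r⁻¹ ≤ ρa⁻¹ := inv_anti₀ hρa0 hr
        rw [hρa, inv_inv] at h2
        linarith)
      rw [he1, one_pow, mul_one] at h1
      have h2 : ‖β e‖ ^ 2 = ∫ x, BB x * ‖(e : HH d) none x‖ ^ 2 := by
        rw [norm_sq_L2]
        refine integral_congr_ae ?_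
        filter_upwards [hβ e] with x hx
        rw [hx, norm_mul, mul_pow, Complex.norm_real, Real.norm_eq_abs, sq_abs,
          Real.sq_sqrt (hB0 x)]
      rw [← h2] at h1
      have h3 : ε ^ 2 = C3 * h ^ (4 * d + 2) := by
        rw [hε, mul_pow, Real.sq_sqrt hC3, ← pow_mul]
        congr 2
        ring
      rw [← h3] at h1
      exact le_of_sq_le_sq h1 hε0)
    (by
      have h1 : (((2 * K + 1) ^ d : ℕ) : ℝ) + 1 ≤ 2 * C2 / h ^ d := by
        have : 2 * C2 / h ^ d = C2 / h ^ d + C2 / h ^ d := by ring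
        rw [this]
        linarith
      have h2 : 1 + 3 * (((2 * K + 1) ^ d : ℕ) : ℝ) / ρa ≤ 4 * C2 / ρa / h ^ d := by
        have h3 : 1 ≤ C2 / h ^ d / ρa := by
          rw [le_div_iff₀ hρa0, one_mul]
          exact (hρab.le.trans hρb1).trans hone
        have h4 : 3 * (((2 * K + 1) ^ d : ℕ) : ℝ) / ρa ≤ 3 * (C2 / h ^ d) / ρa := by
          apply div_le_div_of_nonneg_right _ hρa0.le
          linarith
        calc _ ≤ C2 / h ^ d / ρa + 3 * (C2 / h ^ d) / ρa := add_le_add h3 h4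
          _ = _ := by ring
      have h3 : ‖κ‖ * ((((2 * K + 1) ^ d : ℕ) : ℝ) + 1) / (ρb - ρa) ≤
          ‖κ‖ * (2 * C2 / h ^ d) / (ρb - ρa) := by
        apply div_le_div_of_nonneg_right _ hsub.le
        exact mul_le_mul_of_nonneg_left h1 (norm_nonneg _)
      have h4 : ‖κ‖ * ε * (1 + 3 * (((2 * K + 1) ^ d : ℕ) : ℝ) / ρa) ≤
          ‖κ‖ * ε * (4 * C2 / ρa / h ^ d) := mul_le_mul_of_nonneg_left h2 (by positivity)
      refine (mul_le_mul h3 h4 (by positivity) (by positivity)).trans ?_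
      have h5 : ‖κ‖ * (2 * C2 / h ^ d) / (ρb - ρa) * (‖κ‖ * ε * (4 * C2 / ρa / h ^ d)) =
          C4 * h := by
        rw [hC4, hε, pow_succ, two_mul d, pow_add]
        field_simp
      rw [h5]
      exact hh4)
    (by
      have h1 : (((2 * K + 1) ^ d : ℕ) : ℝ) * (2 * ‖κ‖ * ε / ρa) ≤
          C2 / h ^ d * (2 * ‖κ‖ * ε / ρa) := mul_le_mul_of_nonneg_right hNmax (by positivity)
      refine h1.trans ?_
      have h2 : C2 / h ^ d * (2 * ‖κ‖ * ε / ρa) = C5 * h * h ^ d := by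
        rw [hC5, hε, pow_succ, two_mul d, pow_add]
        field_simp
      rw [h2]
      have h3 : h ^ d ≤ 1 := pow_le_one₀ hh.le hh1
      have h4 : 0 ≤ C5 * h := by positivity
      nlinarith)
    (genSpace h (VV (UU (d := d) a) BB))
    (fun E u hu => Submodule.subset_span hu) f
    (fun E t ht ht2 hE => by
      refine hf E t ht ?_ hE
      rw [hρa, inv_inv] at ht2
      linarith)
  refine le_trans ?_ hmain
  rw [← ENNReal.ofReal_natCast]
  exact ENNReal.ofReal_le_ofReal hFn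

end Pool.Agent.R993.CE
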