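import Mathlib
import Pool.Agent.R993.CE.Dim
import Pool.Agent.R993.CE.Pot

set_option autoImplicit false

namespace Pool.Agent.R993.CE

open MeasureTheory Complex Filter Topology
open scoped ENNReal ContDiff

variable {d : ℕ}

/-- the average trick, non-zero average -/
lemma avg_trick2 (u : L2 d) (Q : Set (Rd d)) (hQf : volume Q ≠ ⊤)
    (hQ0 : volume Q ≠ 0) (c : ℂ) :
    volume Q * ‖c‖ₑ ^ 2 ≤ ENNReal.ofReal 2 * (∫⁻ z in Q, ‖c - u z‖ₑ ^ 2) +
      ENNReal.ofReal (4 / volume.real Q * ‖∫ z in Q, u z‖ ^ 2) := by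
  have : IsFiniteMeasure (volume.restrict Q) := ⟨by
    rw [Measure.restrict_apply_univ]; exact lt_top_iff_ne_top.2 hQf⟩
  have hq : 0 < volume.real Q := by
    rw [measureReal_def]
    exact ENNReal.toReal_pos hQ0 hQf
  have hu2 : MemLp (u : Rd d → ℂ) 2 (volume.restrict Q) := (Lp.memLp u).restrict Q
  have hu1 : Integrable (u : Rd d → ℂ) (volume.restrict Q) := hu2.integrable (by norm_num)
  have hus : Integrable (fun z => ‖u z‖ ^ 2) (volume.restrict Q) :=
    hu2.integrable_norm_pow (by norm_num)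
  have hint : Integrable (fun z => ‖c - u z‖ ^ 2) (volume.restrict Q) :=
    ((memLp_const c).sub hu2).integrable_norm_pow (by norm_num)
  set J : ℂ := ∫ z in Q, u z with hJ
  have e1 : ∫ z in Q, ‖c - u z‖ ^ 2 = volume.real Q * ‖c‖ ^ 2 -
      2 * ((starRingEnd ℂ) c * J).re + ∫ z in Q, ‖u z‖ ^ 2 := by
    have e2 : ∀ z, ‖c - u z‖ ^ 2 = ‖c‖ ^ 2 - 2 * ((starRingEnd ℂ) c * u z).re + ‖u z‖ ^ 2 := by
      intro z
      have := @norm_sub_sq ℂ ℂ _ _ _ c (u z)
      rw [this]
      simp [mul_comm]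
    simp only [e2]
    have hre : Integrable (fun z => 2 * ((starRingEnd ℂ) c * u z).re) (volume.restrict Q) :=
      ((hu1.const_mul _).re).const_mul 2
    rw [integral_add (f := fun z => ‖c‖ ^ 2 - 2 * ((starRingEnd ℂ) c * u z).re)
      ((integrable_const _).sub hre) hus, integral_sub (integrable_const _) hre,
      integral_const_mul]
    have e3 : ∫ z in Q, ((starRingEnd ℂ) c * u z).re = ((starRingEnd ℂ) c * J).re := by
      have := integral_re (μ := volume.restrict Q) (hu1.const_mul ((starRingEnd ℂ) c))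
      simp only [RCLike.re_to_complex] at this
      rw [this, integral_const_mul]
    rw [e3]
    simp
  have e2 : ∫⁻ z in Q, ‖c - u z‖ₑ ^ 2 = ENNReal.ofReal (∫ z in Q, ‖c - u z‖ ^ 2) := by
    rw [ofReal_integral_eq_lintegral_ofReal hint (Eventually.of_forall fun x => by positivity)]
    refine lintegral_congr fun x => ?_
    rw [ENNReal.ofReal_pow (norm_nonneg _), ofReal_norm]
  have e3 : volume Q * ‖c‖ₑ ^ 2 = ENNReal.ofReal (volume.real Q * ‖c‖ ^ 2) := by
    rw [ENNReal.ofReal_mul measureReal_nonneg, ENNReal.ofReal_pow (norm_nonneg _),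
      ofReal_norm, ofReal_measureReal hQf]
  have hnn : 0 ≤ ∫ z in Q, ‖c - u z‖ ^ 2 := integral_nonneg fun z => by positivity
  rw [e2, e3, ← ENNReal.ofReal_mul (by norm_num), ← ENNReal.ofReal_add (by positivity)
    (by positivity)]
  apply ENNReal.ofReal_le_ofReal
  rw [e1]
  have h1 : 0 ≤ ∫ z in Q, ‖u z‖ ^ 2 := integral_nonneg fun z => by positivity
  have h2 : ((starRingEnd ℂ) c * J).re ≤ ‖c‖ * ‖J‖ := by
    refine (Complex.re_le_norm _).trans ?_
    rw [norm_mul, RCLike.norm_conj]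
  have h3 : 4 * (‖c‖ * ‖J‖) ≤ volume.real Q * ‖c‖ ^ 2 + 4 / volume.real Q * ‖J‖ ^ 2 := by
    have h4 : volume.real Q * ‖c‖ ^ 2 + 4 / volume.real Q * ‖J‖ ^ 2 - 4 * (‖c‖ * ‖J‖) =
        (volume.real Q * ‖c‖ - 2 * ‖J‖) ^ 2 / volume.real Q := by
      field_simp
      ring
    have h5 : 0 ≤ (volume.real Q * ‖c‖ - 2 * ‖J‖) ^ 2 / volume.real Q := by positivity
    linarith
  linarith

/-- mass in a covered set -/
theorem cover_bound2 {J : Type*} [Fintype J] (u : L2 d) (g : Fin d → L2 d) (hg : IsWeakGrad u g)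
    (z : J → Rd d) (r : ℝ) (hr : 0 < r)
    (S : Set (Rd d)) (hS : MeasurableSet S) (hSf : volume S ≠ ⊤)
    (hcov : ∀ x ∈ S, ∃ j, x ∈ Metric.closedBall (z j) r) :
    volume.real (Metric.closedBall (0 : Rd d) r) * ∫ x in S, ‖u x‖ ^ 2 ≤
      2 * (volume.real (Metric.closedBall (0 : Rd d) r) * (2 ^ d * ((2 * r) ^ 2 * GG g ^ 2))) +
      volume.real S * (4 / volume.real (Metric.closedBall (0 : Rd d) r) *
        ∑ j, ‖∫ x in Metric.closedBall (z j) r, u x‖ ^ 2) := by
  set q : ℝ≥0∞ := volume (Metric.closedBall (0 : Rd d) r) with hq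
  have hq0 : q ≠ 0 := (Metric.measure_closedBall_pos volume _ hr).ne'
  have hqt : q ≠ ⊤ := measure_closedBall_lt_top.ne
  have hqr : ENNReal.ofReal (volume.real (Metric.closedBall (0 : Rd d) r)) = q :=
    ofReal_measureReal hqt
  have hqpos : 0 < volume.real (Metric.closedBall (0 : Rd d) r) := by
    rw [measureReal_def]
    exact ENNReal.toReal_pos hq0 hqt
  set D : Set (Rd d) := Metric.closedBall 0 (2 * r) with hD
  have hDq : volume D = ENNReal.ofReal (2 ^ d) * q := by
    rw [hD, hq, Measure.addHaar_closedBall _ _ (by positivity),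
      Measure.addHaar_closedBall _ _ hr.le, finrank_euclideanSpace, Fintype.card_fin, mul_pow,
      ENNReal.ofReal_mul (by positivity), mul_assoc]
  have hmeas : Measurable (u : Rd d → ℂ) := (Lp.stronglyMeasurable u).measurable
  set A : ℝ := 4 / volume.real (Metric.closedBall (0 : Rd d) r) *
        ∑ j, ‖∫ x in Metric.closedBall (z j) r, u x‖ ^ 2 with hA
  have hA0 : 0 ≤ A := by positivity
  have hpt : ∀ x ∈ S, q * ‖u x‖ₑ ^ 2 ≤ ENNReal.ofReal 2 * (∫⁻ y in D, ‖u x - u (x + y)‖ₑ ^ 2) +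
      ENNReal.ofReal A := by
    intro x hx
    obtain ⟨j, hj⟩ := hcov x hx
    have h2 : volume (Metric.closedBall (z j) r) = q := by
      rw [hq, Measure.addHaar_closedBall_center]
    have h2' : volume.real (Metric.closedBall (z j) r) =
        volume.real (Metric.closedBall (0 : Rd d) r) := by
      rw [measureReal_def, measureReal_def, h2]
    have h1 := avg_trick2 u (Metric.closedBall (z j) r)
      (measure_closedBall_lt_top.ne) (by rw [h2]; exact hq0) (u x)
    rw [h2, h2'] at h1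
    refine h1.trans ?_
    have h3 : ∫⁻ y in D, ‖u x - u (x + y)‖ₑ ^ 2 =
        ∫⁻ z' in Metric.closedBall x (2 * r), ‖u x - u z'‖ₑ ^ 2 := by
      have h4 : MeasurePreserving (fun y : Rd d => x + y) volume volume :=
        measurePreserving_add_left volume x
      have h5 := h4.setLIntegral_comp_preimage (measurableSet_closedBall (x := x) (ε := 2 * r))
        (f := fun z' => ‖u x - u z'‖ₑ ^ 2) (by fun_prop)
      rw [← h5]
      congr 2
      ext y
      simp [hD]
    rw [h3]
    have h6 : ∫⁻ z' in Metric.closedBall (z j) r, ‖u x - u z'‖ₑ ^ 2 ≤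
        ∫⁻ z' in Metric.closedBall x (2 * r), ‖u x - u z'‖ₑ ^ 2 := by
      apply lintegral_mono_set
      intro w hw
      rw [Metric.mem_closedBall] at *
      have := dist_triangle_right w x (z j)
      linarith
    have h7 : ENNReal.ofReal (4 / volume.real (Metric.closedBall (0 : Rd d) r) *
        ‖∫ z' in Metric.closedBall (z j) r, u z'‖ ^ 2) ≤ ENNReal.ofReal A := by
      apply ENNReal.ofReal_le_ofReal
      rw [hA]
      apply mul_le_mul_of_nonneg_left _ (by positivity)
      exact Finset.single_le_sum (f := fun j => ‖∫ x in Metric.closedBall (z j) r, u x‖ ^ 2)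
        (fun i _ => by positivity) (Finset.mem_univ j)
    gcongr
  have h1 : q * ∫⁻ x in S, ‖u x‖ₑ ^ 2 ≤
      ENNReal.ofReal 2 * (q * ENNReal.ofReal (2 ^ d * ((2 * r) ^ 2 * GG g ^ 2))) +
        ENNReal.ofReal A * volume S := by
    calc q * ∫⁻ x in S, ‖u x‖ₑ ^ 2 = ∫⁻ x in S, q * ‖u x‖ₑ ^ 2 := by
          rw [lintegral_const_mul _ (by fun_prop)]
      _ ≤ ∫⁻ x in S, (ENNReal.ofReal 2 * (∫⁻ y in D, ‖u x - u (x + y)‖ₑ ^ 2) + ENNReal.ofReal A) :=
          setLIntegral_mono' hS hpt
      _ = ENNReal.ofReal 2 * (∫⁻ x in S, ∫⁻ y in D, ‖u x - u (x + y)‖ₑ ^ 2) + ENNReal.ofReal A * volume S := by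
          rw [lintegral_add_right _ measurable_const, setLIntegral_const]
          congr 1
          rw [lintegral_const_mul]
          have : Measurable (fun p : Rd d × Rd d => ‖u p.1 - u (p.1 + p.2)‖ₑ ^ 2) := by fun_prop
          exact this.lintegral_prod_right'
      _ ≤ ENNReal.ofReal 2 * (∫⁻ x, ∫⁻ y in D, ‖u x - u (x + y)‖ₑ ^ 2) + ENNReal.ofReal A * volume S := by
          gcongr
          exact Measure.restrict_le_self
      _ = ENNReal.ofReal 2 * (∫⁻ y in D, ∫⁻ x, ‖u x - u (x + y)‖ₑ ^ 2) + ENNReal.ofReal A * volume S := by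
          rw [lintegral_lintegral_swap]
          have : Measurable (fun p : Rd d × Rd d => ‖u p.1 - u (p.1 + p.2)‖ₑ ^ 2) := by fun_prop
          exact this.aemeasurable
      _ ≤ ENNReal.ofReal 2 * (∫⁻ y in D, ENNReal.ofReal ((2 * r) ^ 2 * GG g ^ 2)) +
            ENNReal.ofReal A * volume S := by
          have hy : ∫⁻ y in D, ∫⁻ x, ‖u x - u (x + y)‖ₑ ^ 2 ≤
              ∫⁻ y in D, ENNReal.ofReal ((2 * r) ^ 2 * GG g ^ 2) := by
            refine setLIntegral_mono' measurableSet_closedBall fun y hy => ?_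
            have h2 : ∫⁻ x, ‖u x - u (x + y)‖ₑ ^ 2 = ∫⁻ x, ‖(u - tau y u : L2 d) x‖ₑ ^ 2 := by
              refine lintegral_congr_ae ?_
              filter_upwards [Lp.coeFn_sub u (tau y u), tau_coe y u] with x h3 h4
              rw [h3, Pi.sub_apply, h4]
            rw [h2, lintegral_enorm_sq]
            apply ENNReal.ofReal_le_ofReal
            have h3 := norm_sub_tau_le u g hg y
            rw [mem_closedBall_zero_iff] at hy
            rw [← mul_pow]
            apply pow_le_pow_left₀ (norm_nonneg _)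
            exact h3.trans (mul_le_mul_of_nonneg_right hy (Real.sqrt_nonneg _))
          gcongr
      _ = _ := by
          rw [setLIntegral_const, hDq, ENNReal.ofReal_mul (p := 2 ^ d) (by positivity)]
          ring
  have h3 : ∫⁻ x in S, ‖u x‖ₑ ^ 2 = ENNReal.ofReal (∫ x in S, ‖u x‖ ^ 2) := by
    rw [ofReal_integral_eq_lintegral_ofReal (integrable_norm_sq u).integrableOn
      (Eventually.of_forall fun x => by positivity)]
    refine lintegral_congr fun x => ?_
    rw [ENNReal.ofReal_pow (norm_nonneg _), ofReal_norm]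
  rw [h3, ← hqr, ← ENNReal.ofReal_mul (by positivity), ← ENNReal.ofReal_mul (by positivity),
    ← ENNReal.ofReal_mul (by positivity), ← ofReal_measureReal hSf,
    ← ENNReal.ofReal_mul (by positivity), ← ENNReal.ofReal_add (by positivity) (by positivity)]
    at h1
  have h4 := (ENNReal.ofReal_le_ofReal_iff (by positivity)).1 h1
  linarith

/-- few orthonormal functions with bounded energy have mass in a bounded set -/
theorem trace_bound (G c ρ : ℝ) (hG : 0 ≤ G) (hc : 0 < c) : ∃ N0 : ℕ, ∀ (N : ℕ) (u : Fin N → L2 d),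
    Orthonormal ℂ u → (∀ k, ∃ g : Fin d → L2 d, IsWeakGrad (u k) g ∧ GG g ^ 2 ≤ G ∧
      c ≤ ∫ x in Metric.closedBall (0 : Rd d) ρ, ‖u k x‖ ^ 2) → N ≤ N0 := by
  obtain ⟨r, hr, hrG⟩ : ∃ r : ℝ, 0 < r ∧ 2 * (2 ^ d * ((2 * r) ^ 2 * G)) ≤ c / 2 := by
    refine ⟨√(c / (2 ^ (d + 4) * (G + 1))), by positivity, ?_⟩
    rw [mul_pow, Real.sq_sqrt (by positivity)]
    have h1 : 2 * (2 ^ d * (2 ^ 2 * (c / (2 ^ (d + 4) * (G + 1))) * G)) =
        c / 2 * (G / (G + 1)) := by
      field_simp
      ring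
    rw [h1]
    have h2 : G / (G + 1) ≤ 1 := by
      rw [div_le_one (by positivity)]; linarith
    have h3 : 0 < c / 2 := by positivity
    nlinarith
  obtain ⟨t, -, htf, htc⟩ := (isCompact_closedBall (0 : Rd d) ρ).finite_cover_balls hr
  set T : Finset (Rd d) := htf.toFinset with hT
  set q : ℝ := volume.real (Metric.closedBall (0 : Rd d) r) with hq
  have hqt : volume (Metric.closedBall (0 : Rd d) r) ≠ ⊤ := measure_closedBall_lt_top.ne
  have hqpos : 0 < q := by
    rw [hq, measureReal_def]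
    exact ENNReal.toReal_pos (Metric.measure_closedBall_pos volume _ hr).ne' hqt
  set v : ℝ := volume.real (Metric.closedBall (0 : Rd d) ρ) with hv
  refine ⟨⌈8 * v * T.card / (q * c)⌉₊, fun N u hu hk => ?_⟩
  have hcov : ∀ x ∈ Metric.closedBall (0 : Rd d) ρ, ∃ j : T, x ∈ Metric.closedBall (j : Rd d) r := by
    intro x hx
    have h1 := htc hx
    simp only [Set.mem_iUnion] at h1
    obtain ⟨y, hy, hxy⟩ := h1
    exact ⟨⟨y, by rw [hT]; simpa using hy⟩, Metric.ball_subset_closedBall hxy⟩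
  have hone : ∀ k, q * c ≤ q * (c / 2) + v * (4 / q * ∑ j : T,
      ‖∫ x in Metric.closedBall (j : Rd d) r, u k x‖ ^ 2) := by
    intro k
    obtain ⟨g, hg, hgG, hgc⟩ := hk k
    have h1 := cover_bound2 (u k) g hg (fun j : T => (j : Rd d)) r hr
      (Metric.closedBall 0 ρ) measurableSet_closedBall (measure_closedBall_lt_top.ne) hcov
    rw [← hq, ← hv] at h1
    have h2 : q * c ≤ q * ∫ x in Metric.closedBall (0 : Rd d) ρ, ‖u k x‖ ^ 2 :=
      mul_le_mul_of_nonneg_left hgc hqpos.le
    have h3 : 2 * (q * (2 ^ d * ((2 * r) ^ 2 * GG g ^ 2))) ≤ q * (c / 2) := by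
      have h4 : 2 * (2 ^ d * ((2 * r) ^ 2 * GG g ^ 2)) ≤ c / 2 := by
        refine le_trans ?_ hrG
        gcongr
      calc _ = q * (2 * (2 ^ d * ((2 * r) ^ 2 * GG g ^ 2))) := by ring
        _ ≤ _ := mul_le_mul_of_nonneg_left h4 hqpos.le
    linarith
  have hsum : ∑ k : Fin N, q * c ≤ ∑ k : Fin N, (q * (c / 2) + v * (4 / q * ∑ j : T,
      ‖∫ x in Metric.closedBall (j : Rd d) r, u k x‖ ^ 2)) := Finset.sum_le_sum fun k _ => hone k
  have hbes : ∑ k : Fin N, ∑ j : T, ‖∫ x in Metric.closedBall (j : Rd d) r, u k x‖ ^ 2 ≤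
      T.card * q := by
    rw [Finset.sum_comm]
    have h1 : ∀ j ∈ (Finset.univ : Finset T), ∑ k : Fin N,
        ‖∫ x in Metric.closedBall (j : Rd d) r, u k x‖ ^ 2 ≤ q := by
      intro j _
      set ind : L2 d := indicatorConstLp 2
        (measurableSet_closedBall (x := (j : Rd d)) (ε := r))
        (measure_closedBall_lt_top.ne) (1 : ℂ) with hind
      have h2 : ∀ k, ‖∫ x in Metric.closedBall (j : Rd d) r, u k x‖ ^ 2 =
          ‖inner ℂ (u k) ind‖ ^ 2 := by
        intro k
        rw [← L2.inner_indicatorConstLp_one (𝕜 := ℂ) measurableSet_closedBall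
          (measure_closedBall_lt_top.ne), ← hind, ← inner_conj_symm, RCLike.norm_conj]
      simp only [h2]
      refine (hu.sum_inner_products_le (s := Finset.univ) ind).trans ?_
      rw [hind, norm_indicatorConstLp (by norm_num) (by norm_num)]
      have h3 : volume.real (Metric.closedBall (j : Rd d) r) = q := by
        rw [hq, measureReal_def, measureReal_def, Measure.addHaar_closedBall_center]
      rw [h3]
      simp only [norm_one, one_mul]
      rw [← Real.rpow_natCast, ← Real.rpow_mul hqpos.le]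
      norm_num
    refine (Finset.sum_le_sum h1).trans ?_
    simp
  rw [Finset.sum_add_distrib, Finset.sum_const, Finset.sum_const, Finset.card_univ,
    Fintype.card_fin, nsmul_eq_mul, nsmul_eq_mul, ← Finset.mul_sum, ← Finset.mul_sum] at hsum
  have h4 : v * (4 / q * ∑ k : Fin N, ∑ j : T,
      ‖∫ x in Metric.closedBall (j : Rd d) r, u k x‖ ^ 2) ≤ v * (4 / q * (T.card * q)) := by
    have hv0 : 0 ≤ v := measureReal_nonneg
    gcongr
  have h5 : v * (4 / q * (T.card * q)) = 4 * v * T.card := by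
    field_simp
  rw [h5] at h4
  have h6 : (N : ℝ) * (q * c) ≤ 8 * v * T.card := by
    have h7 : (N : ℝ) * (q * c) ≤ N * (q * (c / 2)) + 4 * v * T.card := by
      refine hsum.trans ?_
      linarith
    linarith
  have h7 : (N : ℝ) ≤ 8 * v * T.card / (q * c) := by
    rw [le_div_iff₀ (by positivity)]
    exact h6
  exact_mod_cast h7.trans (Nat.le_ceil _)

end Pool.Agent.R993.CE
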