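import Mathlib
import Pool.Agent.R993.CE.Main
import Pool.Agent.R993.CE.Trace
import Pool.Agent.R993.CE.FinAbs

set_option autoImplicit false

namespace Pool.Agent.R993.CE

open MeasureTheory Complex Filter Topology
open scoped ENNReal ContDiff

variable {d : ℕ}

/-- a function orthogonal to all test functions vanishes -/
lemma eq_zero_of_test (f : L2 d) (h : ∀ φ : Rd d → ℂ, IsTest φ → ∫ x, f x * φ x = 0) : f = 0 := by
  have hdense := Lp.dense_hasCompactSupport_contDiff (E := Rd d) (F := ℂ)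
    (μ := (volume : Measure (Rd d))) (p := 2) (by norm_num)
  have hclosed : IsClosed {v : L2 d | inner ℂ v f = 0} :=
    isClosed_eq (by fun_prop) continuous_const
  have hsub : {f : L2 d | ∃ (g : Rd d → ℂ), f =ᵐ[volume] g ∧ HasCompactSupport g ∧
      ContDiff ℝ ∞ g} ⊆ {v : L2 d | inner ℂ v f = 0} := by
    rintro v ⟨φ, hv, hφ2, hφ1⟩
    have hφ : IsTest φ := ⟨hφ1, hφ2⟩
    have h1 := h _ hφ.star
    change inner ℂ v f = 0
    rw [inner_eq_integral, ← h1]
    refine integral_congr_ae ?_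
    filter_upwards [hv] with x hx
    rw [hx, mul_comm]
  have h2 := (hdense.mono hsub).closure_eq
  rw [hclosed.closure_eq] at h2
  have h3 : f ∈ (Set.univ : Set (L2 d)) := Set.mem_univ f
  rw [← h2] at h3
  exact inner_self_eq_zero.1 h3

lemma integrable_form {V : Rd d → ℂ} (hV : Measurable V) {u v : L2 d} {g γ : Fin d → L2 d}
    (hu : InDom V u g) (hv : InDom V v γ) :
    Integrable (fun x => (starRingEnd ℂ) (v x) * (V x * u x)) (volume : Measure (Rd d)) := by
  have h1 : Integrable (fun x => ‖((√‖V x‖ : ℝ) : ℂ) * v x‖ * ‖((√‖V x‖ : ℝ) : ℂ) * u x‖)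
      (volume : Measure (Rd d)) := hv.2.norm.integrable_mul hu.2.norm
  refine h1.mono' ?_ (Eventually.of_forall fun x => ?_)
  · exact (Complex.continuous_conj.comp_aestronglyMeasurable (Lp.aestronglyMeasurable v)).mul
      (hV.aestronglyMeasurable.mul (Lp.aestronglyMeasurable u))
  · rw [norm_mul, norm_mul, RCLike.norm_conj, norm_mul, norm_mul, Complex.norm_real,
      Real.norm_of_nonneg (Real.sqrt_nonneg _)]
    have := Real.mul_self_sqrt (norm_nonneg (V x))
    calc ‖v x‖ * (‖V x‖ * ‖u x‖) = (√‖V x‖ * √‖V x‖) * ‖v x‖ * ‖u x‖ := by rw [this]; ring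
      _ = √‖V x‖ * ‖v x‖ * (√‖V x‖ * ‖u x‖) := by ring
      _ ≤ _ := le_rfl

lemma isWeakGrad_add {u v : L2 d} {g γ : Fin d → L2 d} (hu : IsWeakGrad u g)
    (hv : IsWeakGrad v γ) : IsWeakGrad (u + v) (fun k => g k + γ k) := by
  intro k φ hφ
  have h1 := hu k φ hφ
  have h2 := hv k φ hφ
  rw [integral_mul_eq ((hφ.pd k).memLp 2), integral_mul_eq (hφ.memLp 2)] at *
  rw [inner_add_right, inner_add_right, h1, h2]
  ring

lemma isWeakGrad_smul (c : ℂ) {u : L2 d} {g : Fin d → L2 d} (hu : IsWeakGrad u g) :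
    IsWeakGrad (c • u) (fun k => c • g k) := by
  intro k φ hφ
  have h1 := hu k φ hφ
  rw [integral_mul_eq ((hφ.pd k).memLp 2), integral_mul_eq (hφ.memLp 2)] at *
  rw [inner_smul_right, inner_smul_right, h1]
  ring

lemma inDom_add {V : Rd d → ℂ} {u v : L2 d} {g γ : Fin d → L2 d} (hu : InDom V u g)
    (hv : InDom V v γ) : InDom V (u + v) (fun k => g k + γ k) := by
  refine ⟨isWeakGrad_add hu.1 hv.1, (hu.2.add hv.2).ae_eq ?_⟩
  filter_upwards [Lp.coeFn_add u v] with x hx
  rw [hx, Pi.add_apply, Pi.add_apply]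
  ring

lemma inDom_smul {V : Rd d → ℂ} (c : ℂ) {u : L2 d} {g : Fin d → L2 d} (hu : InDom V u g) :
    InDom V (c • u) (fun k => c • g k) := by
  refine ⟨isWeakGrad_smul c hu.1, (hu.2.const_mul c).ae_eq ?_⟩
  filter_upwards [Lp.coeFn_smul c u] with x hx
  rw [hx, Pi.smul_apply, smul_eq_mul]
  ring

lemma isHu_add (h : ℝ) {V : Rd d → ℂ} (hV : Measurable V) {u v f f' : L2 d}
    (hu : IsHu h V u f) (hv : IsHu h V v f') : IsHu h V (u + v) (f + f') := by
  obtain ⟨g, hg, h1⟩ := hu
  obtain ⟨g', hg', h2⟩ := hv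
  refine ⟨fun k => g k + g' k, inDom_add hg hg', fun w γ hw => ?_⟩
  have e1 := h1 w γ hw
  have e2 := h2 w γ hw
  have e3 : ∫ x, (starRingEnd ℂ) (w x) * (V x * (u + v : L2 d) x) =
      (∫ x, (starRingEnd ℂ) (w x) * (V x * u x)) + ∫ x, (starRingEnd ℂ) (w x) * (V x * v x) := by
    rw [← integral_add (integrable_form hV hg hw) (integrable_form hV hg' hw)]
    refine integral_congr_ae ?_
    filter_upwards [Lp.coeFn_add u v] with x hx
    rw [hx, Pi.add_apply]
    ring
  simp only [← inner_eq_integral] at e1 e2 ⊢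
  simp only [inner_add_right, Finset.sum_add_distrib]
  rw [e3]
  linear_combination e1 + e2

lemma isHu_smul (h : ℝ) {V : Rd d → ℂ} (c : ℂ) {u f : L2 d}
    (hu : IsHu h V u f) : IsHu h V (c • u) (c • f) := by
  obtain ⟨g, hg, h1⟩ := hu
  refine ⟨fun k => c • g k, inDom_smul c hg, fun w γ hw => ?_⟩
  have e1 := h1 w γ hw
  have e3 : ∫ x, (starRingEnd ℂ) (w x) * (V x * (c • u : L2 d) x) =
      c * ∫ x, (starRingEnd ℂ) (w x) * (V x * u x) := by
    rw [← integral_const_mul]
    refine integral_congr_ae ?_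
    filter_upwards [Lp.coeFn_smul c u] with x hx
    rw [hx, Pi.smul_apply, smul_eq_mul]
    ring
  simp only [← inner_eq_integral] at e1 ⊢
  simp only [inner_smul_right, ← Finset.mul_sum]
  rw [e3]
  linear_combination c * e1

lemma isHu_zero (h : ℝ) (V : Rd d → ℂ) : IsHu h V (0 : L2 d) 0 := by
  have hz : ∀ u : L2 d, u = 0 → u =ᵐ[volume] 0 := by
    rintro u rfl
    exact Lp.coeFn_zero ℂ 2 volume
  refine ⟨0, ⟨fun k φ hφ => ?_, ?_⟩, fun w γ hw => ?_⟩
  · rw [integral_mul_eq ((hφ.pd k).memLp 2), integral_mul_eq (hφ.memLp 2)]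
    simp
  · refine (MemLp.zero' : MemLp (fun _ : Rd d => (0 : ℂ)) 2 volume).ae_eq ?_
    filter_upwards [Lp.coeFn_zero ℂ 2 (volume : Measure (Rd d))] with x hx
    rw [hx]
    simp
  · have e3 : ∫ x, (starRingEnd ℂ) (w x) * (V x * (0 : L2 d) x) = 0 := by
      rw [← integral_zero (Rd d) ℂ]
      refine integral_congr_ae ?_
      filter_upwards [Lp.coeFn_zero ℂ 2 (volume : Measure (Rd d))] with x hx
      rw [hx]
      simp
    rw [e3]
    simp only [← inner_eq_integral]
    simp

lemma test_inDom {V : Rd d → ℂ} (hV : Measurable V) (hVl : LocallyIntegrable V volume)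
    {φ : Rd d → ℂ} (hφ : IsTest φ) :
    InDom V ((hφ.memLp 2).toLp φ) (fun k => ((hφ.pd k).memLp 2).toLp _) := by
  refine ⟨fun k ψ hψ => ?_, ?_⟩
  · have i1 : ∫ x, ((hφ.memLp 2).toLp φ : L2 d) x * pd k ψ x = ∫ x, φ x * pd k ψ x := by
      refine integral_congr_ae ?_
      filter_upwards [(hφ.memLp 2).coeFn_toLp] with x h1
      rw [h1]
    have i2 : ∫ x, (((hφ.pd k).memLp 2).toLp _ : L2 d) x * ψ x = ∫ x, pd k φ x * ψ x := by
      refine integral_congr_ae ?_
      filter_upwards [((hφ.pd k).memLp 2).coeFn_toLp] with x h1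
      rw [h1]
    rw [i1, i2, test_ibp hφ hψ k]
  · have h1 : MemLp (fun x => ((√‖V x‖ : ℝ) : ℂ) * φ x) 2 (volume : Measure (Rd d)) := by
      rw [memLp_two_iff_integrable_sq_norm]
      · have h2 := (hVl.integrable_smul_left_of_hasCompactSupport
          (g := fun x => ‖φ x‖ ^ 2) (by have := hφ.1.continuous; fun_prop)
          (hφ.2.comp_left (g := fun z : ℂ => ‖z‖ ^ 2) (by simp))).norm
        refine h2.congr (Eventually.of_forall fun x => ?_)
        simp only
        rw [norm_smul, Real.norm_of_nonneg (by positivity), norm_mul, mul_pow,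
          Complex.norm_real, Real.norm_of_nonneg (Real.sqrt_nonneg _),
          Real.sq_sqrt (norm_nonneg _)]
        ring
      · exact (Complex.measurable_ofReal.comp hV.norm.sqrt).aestronglyMeasurable.mul
          hφ.1.continuous.aestronglyMeasurable
    refine h1.ae_eq ?_
    filter_upwards [(hφ.memLp 2).coeFn_toLp] with x hx
    rw [hx]

lemma isHu_single (h : ℝ) {V : Rd d → ℂ} (hV : Measurable V) (hVl : LocallyIntegrable V volume)
    (f : L2 d) (hf : IsHu h V 0 f) : f = 0 := by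
  obtain ⟨g, hg, h1⟩ := hf
  have hg0 : ∀ k, g k = 0 := by
    intro k
    apply eq_zero_of_test
    intro φ hφ
    have h2 := hg.1 k φ hφ
    rw [integral_mul_eq ((hφ.pd k).memLp 2), inner_zero_right] at h2
    have h3 := congrArg Neg.neg h2
    rw [neg_neg, neg_zero] at h3
    exact h3.symm
  apply eq_zero_of_test
  intro φ hφ
  have h2 := h1 _ _ (test_inDom hV hVl hφ.star)
  have e3 : ∫ x, (starRingEnd ℂ) (((hφ.star.memLp 2).toLp _ : L2 d) x) *
      (V x * (0 : L2 d) x) = 0 := by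
    rw [← integral_zero (Rd d) ℂ]
    refine integral_congr_ae ?_
    filter_upwards [Lp.coeFn_zero ℂ 2 (volume : Measure (Rd d))] with x hx
    rw [hx]
    simp
  rw [e3] at h2
  have e4 : ∀ k, ∫ x, (starRingEnd ℂ) ((((hφ.star).pd k).memLp 2).toLp _ x) * g k x = 0 := by
    intro k
    rw [← inner_eq_integral, hg0 k, inner_zero_right]
  simp only [e4, Finset.sum_const_zero, mul_zero, add_zero] at h2
  rw [h2]
  refine integral_congr_ae ?_
  filter_upwards [(hφ.star.memLp 2).coeFn_toLp] with x hx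
  rw [hx, Complex.conj_conj, mul_comm]

/-- the graph of `H` -/
noncomputable def graphH (h : ℝ) (V : Rd d → ℂ) (hV : Measurable V) :
    Submodule ℂ (L2 d × L2 d) where
  carrier := {p | IsHu h V p.1 p.2}
  add_mem' := fun ha hb => isHu_add h hV ha hb
  zero_mem' := isHu_zero h V
  smul_mem' := fun c _ ha => isHu_smul h c ha

lemma energy (U B : Rd d → ℝ) (hUm : Measurable U) (hBm : Measurable B) (hU : ∀ x, 0 ≤ U x)
    (hB0 : ∀ x, 0 ≤ B x) (hB1 : ∀ x, B x ≤ 1) (hB2 : ∀ x, 2 < ‖x‖ → B x = 1) (h : ℝ)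
    (u f : L2 d) (hu : IsHu h (VV U B) u f) :
    ∃ g : Fin d → L2 d, IsWeakGrad u g ∧ h ^ 2 * GG g ^ 2 ≤ (inner ℂ u f).re ∧
      0 ≤ (inner ℂ u f).im ∧
      (inner ℂ u f).im ≤ ∫ x in Metric.closedBall (0 : Rd d) 2, ‖u x‖ ^ 2 := by
  obtain ⟨g, hg, h1⟩ := hu
  have h2 := h1 u g hg
  have hint := integrable_form (measurable_VV U B hUm hBm) hg hg
  have hpt : ∀ x, (starRingEnd ℂ) (u x) * (VV U B x * u x) =
      ((‖u x‖ ^ 2 * U x : ℝ) : ℂ) + I * ((‖u x‖ ^ 2 * (1 - B x) : ℝ) : ℂ) := by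
    intro x
    have : (starRingEnd ℂ) (u x) * u x = ((‖u x‖ ^ 2 : ℝ) : ℂ) := by
      rw [mul_comm, Complex.mul_conj, Complex.normSq_eq_norm_sq]
    unfold VV
    push_cast at this ⊢
    linear_combination ((U x : ℂ) + I * (1 - (B x : ℂ))) * this
  have hre : (∫ x, (starRingEnd ℂ) (u x) * (VV U B x * u x)).re = ∫ x, ‖u x‖ ^ 2 * U x := by
    have := integral_re hint
    simp only [RCLike.re_to_complex] at this
    rw [← this]
    refine integral_congr_ae (Eventually.of_forall fun x => ?_)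
    simp only
    rw [hpt, Complex.add_re, Complex.ofReal_re, Complex.I_mul_re, Complex.ofReal_im, neg_zero,
      add_zero]
  have him : (∫ x, (starRingEnd ℂ) (u x) * (VV U B x * u x)).im =
      ∫ x, ‖u x‖ ^ 2 * (1 - B x) := by
    have := integral_im hint
    simp only [RCLike.im_to_complex] at this
    rw [← this]
    refine integral_congr_ae (Eventually.of_forall fun x => ?_)
    simp only
    rw [hpt, Complex.add_im, Complex.ofReal_im, Complex.I_mul_im, Complex.ofReal_re, zero_add]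
  have hsum : (∑ k, ∫ x, (starRingEnd ℂ) (g k x) * g k x) = ((GG g ^ 2 : ℝ) : ℂ) := by
    unfold GG
    rw [Real.sq_sqrt (Finset.sum_nonneg fun k _ => by positivity)]
    push_cast
    refine Finset.sum_congr rfl fun k _ => ?_
    rw [← inner_eq_integral, inner_self_eq_norm_sq_to_K]
    rfl
  rw [hsum, ← inner_eq_integral] at h2
  have h3 : ((h : ℂ) ^ 2 * ((GG g ^ 2 : ℝ) : ℂ)) = ((h ^ 2 * GG g ^ 2 : ℝ) : ℂ) := by
    push_cast
    ring
  rw [h3] at h2
  have h4 := congrArg Complex.re h2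
  have h5 := congrArg Complex.im h2
  rw [Complex.add_re, Complex.ofReal_re, hre] at h4
  rw [Complex.add_im, Complex.ofReal_im, him, zero_add] at h5
  refine ⟨g, hg.1, ?_, ?_, ?_⟩
  · rw [← h4]
    have : 0 ≤ ∫ x, ‖u x‖ ^ 2 * U x := integral_nonneg fun x => by
      have := hU x
      positivity
    linarith
  · rw [← h5]
    refine integral_nonneg fun x => ?_
    have := hB1 x
    have h6 : 0 ≤ 1 - B x := by linarith
    positivity
  · rw [← h5, ← integral_indicator measurableSet_closedBall]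
    have hi : Integrable (fun x => ‖u x‖ ^ 2 * (1 - B x)) (volume : Measure (Rd d)) := by
      have := integrable_mul_norm_sq u (fun x => 1 - B x) (measurable_const.sub hBm) 1 (fun x => by
        rw [abs_of_nonneg (by linarith [hB1 x])]
        linarith [hB0 x])
      refine this.congr (Eventually.of_forall fun x => ?_)
      simp only
      ring
    refine integral_mono hi ((integrable_norm_sq u).indicator measurableSet_closedBall)
      (fun x => ?_)
    simp only
    by_cases hx : ‖x‖ ≤ 2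
    · rw [Set.indicator_of_mem (mem_closedBall_zero_iff.2 hx)]
      have := hB0 x
      have : 0 ≤ ‖u x‖ ^ 2 := by positivity
      nlinarith
    · rw [Set.indicator_of_notMem (fun hh => hx (mem_closedBall_zero_iff.1 hh)),
        hB2 x (not_le.1 hx)]
      simp

/-- `δ(E)` -/
noncomputable def delta (E : ℂ) : ℝ := Metric.infDist E {z : ℂ | 0 ≤ z.re ∧ z.im = 0}

theorem finite_gen (h : ℝ) (hh : 0 < h) (a q : ℝ) (hq : 1 ≤ q)
    (hV : MemLp (VV (UU (d := d) a) BB) (ENNReal.ofReal q) volume) (E : ℂ) (hE : 0 < delta E) :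
    Module.Finite ℂ (genSpace h (VV (UU (d := d) a) BB) E) := by
  set V : Rd d → ℂ := VV (UU (d := d) a) BB with hVdef
  have hVm : Measurable V := measurable_VV _ _ (measurable_UU a) measurable_BB
  have hVl : LocallyIntegrable V volume :=
    hV.locallyIntegrable (by rw [← ENNReal.ofReal_one]; exact ENNReal.ofReal_le_ofReal hq)
  have hen : ∀ u f : L2 d, IsHu h V u f → ∃ g : Fin d → L2 d, IsWeakGrad u g ∧
      h ^ 2 * GG g ^ 2 ≤ (inner ℂ u f).re ∧ 0 ≤ (inner ℂ u f).im ∧
      (inner ℂ u f).im ≤ ∫ x in Metric.closedBall (0 : Rd d) 2, ‖u x‖ ^ 2 := fun u f hu =>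
    energy (UU a) BB (measurable_UU a) measurable_BB (fun x => ups_nonneg _ _)
      (fun x => th_nonneg _) (fun x => th_le_one _) (fun x hx => by
        unfold BB th
        rw [if_neg (by nlinarith)]) h u f hu
  have key : ∃ N0 : ℕ, ∀ (N : ℕ) (b : Fin N → L2 d), Orthonormal ℂ b →
      (∀ k, ∃ f, (b k, f) ∈ graphH h V hVm ∧ inner ℂ (b k) f = E) → N ≤ N0 := by
    by_cases hpos : 0 < E.im
    · obtain ⟨N0, hN0⟩ := trace_bound (d := d) (|E.re| / h ^ 2) E.im 2 (by positivity) hpos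
      refine ⟨N0, fun N b hb hk => hN0 N b hb fun k => ?_⟩
      obtain ⟨f, hf, hfE⟩ := hk k
      obtain ⟨g, hg, h1, h2, h3⟩ := hen (b k) f hf
      rw [hfE] at h1 h3
      refine ⟨g, hg, ?_, h3⟩
      rw [le_div_iff₀ (by positivity)]
      have := le_abs_self E.re
      linarith
    · refine ⟨0, fun N b hb hk => ?_⟩
      by_contra hN
      have hN' : 0 < N := by omega
      obtain ⟨f, hf, hfE⟩ := hk ⟨0, hN'⟩
      obtain ⟨g, hg, h1, h2, h3⟩ := hen _ f hf
      rw [hfE] at h1 h2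
      have h4 : 0 ≤ E.re := le_trans (by positivity) h1
      have h5 : E.im = 0 := le_antisymm (not_lt.1 hpos) h2
      have h6 : delta E = 0 := Metric.infDist_zero_of_mem ⟨h4, h5⟩
      rw [h6] at hE
      exact lt_irrefl _ hE
  obtain ⟨N0, hN0⟩ := key
  exact fin_gen (graphH h V hVm) (fun f hf => isHu_single h hVm hVl f hf) E N0 hN0

end Pool.Agent.R993.CE
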