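import Mathlib
import Pool.Agent.R993.CE.Fin

set_option autoImplicit false

namespace Pool.Agent.R993.CE

open MeasureTheory Complex Filter Topology
open scoped ENNReal ContDiff

lemma im_le_delta (E : ℂ) : |E.im| ≤ delta E := by
  unfold delta
  refine (Metric.le_infDist ⟨0, by simp⟩).2 ?_
  rintro z ⟨-, hz⟩
  rw [dist_eq_norm]
  have := Complex.abs_im_le_norm (E - z)
  rwa [Complex.sub_im, hz, sub_zero] at this

lemma delta_le_norm (E : ℂ) : delta E ≤ ‖E‖ := by
  have h1 : (0 : ℂ) ∈ {z : ℂ | 0 ≤ z.re ∧ z.im = 0} := by simp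
  have := Metric.infDist_le_dist_of_mem (x := E) h1
  rwa [dist_zero_right] at this

/-- telescoping bound -/
lemma geom_bound (d : ℕ) (hd : 1 ≤ d) (x : ℝ) (hx : 0 < x) (J : ℕ) :
    ∑ j ∈ Finset.range J, (if x ≤ 4 * 4 ^ j then ((2 : ℝ) ^ d)⁻¹ ^ j else 0) ≤
      2 * 2 ^ d * x ^ (-((d : ℝ) / 2)) := by
  set r : ℝ := ((2 : ℝ) ^ d)⁻¹ with hr
  have hr0 : 0 < r := by positivity
  have hr1 : r ≤ 1 / 2 := by
    rw [hr, one_div]
    apply inv_anti₀ (by norm_num)
    calc (2 : ℝ) = 2 ^ 1 := (pow_one 2).symm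
      _ ≤ 2 ^ d := pow_le_pow_right₀ (by norm_num) hd
  set X : ℝ := 2 ^ d * x ^ (-((d : ℝ) / 2)) with hX
  have hX0 : 0 < X := by positivity
  have hterm : ∀ j ∈ Finset.range J, (if x ≤ 4 * 4 ^ j then r ^ j else 0) ≤
      2 * (min (r ^ j) X - min (r ^ (j + 1)) X) := by
    intro j _
    have hdec : r ^ (j + 1) ≤ r ^ j / 2 := by
      rw [pow_succ]
      have : 0 < r ^ j := by positivity
      nlinarith
    have hpos : 0 < r ^ j := by positivity
    split_ifs with h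
    · have h1 : r ^ j ≤ X := by
        have h2 : r ^ j = (4 ^ j : ℝ) ^ (-((d : ℝ) / 2)) := by
          rw [hr, Real.rpow_neg (by positivity), inv_pow, ← pow_mul]
          congr 1
          have h3 : (4 : ℝ) ^ j = 2 ^ (2 * j) := by rw [pow_mul]; norm_num
          rw [h3, ← Real.rpow_natCast 2 (2 * j), ← Real.rpow_mul (by norm_num),
            ← Real.rpow_natCast]
          congr 1
          push_cast
          ring
        have h3 : X = (x / 4) ^ (-((d : ℝ) / 2)) := by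
          rw [hX, Real.div_rpow hx.le (by norm_num), Real.rpow_neg (by norm_num : (0 : ℝ) ≤ 4),
            div_inv_eq_mul, mul_comm]
          congr 1
          have h4 : (4 : ℝ) = 2 ^ (2 : ℝ) := by norm_num
          rw [h4, ← Real.rpow_mul (by norm_num), ← Real.rpow_natCast]
          congr 1
          ring
        rw [h2, h3]
        apply Real.rpow_le_rpow_of_nonpos (by positivity)
        · linarith
        · have : (0 : ℝ) ≤ d := by positivity
          linarith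
      have h5 : r ^ (j + 1) ≤ X := hdec.trans (by linarith)
      rw [min_eq_left h1, min_eq_left h5]
      linarith
    · have : min (r ^ (j + 1)) X ≤ min (r ^ j) X := min_le_min (by linarith) le_rfl
      linarith
  refine (Finset.sum_le_sum hterm).trans ?_
  rw [← Finset.mul_sum, Finset.sum_range_sub']
  have h1 : min (r ^ 0) X ≤ X := min_le_right _ _
  have h2 : 0 ≤ min (r ^ J) X := le_min (by positivity) hX0.le
  rw [hX] at h1
  linarith

/-- weighted eigenvalue sum -/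
noncomputable def eigSum {d : ℕ} (h : ℝ) (V : Rd d → ℂ) (γ σ : ℝ) : ℝ≥0∞ :=
  ∑' E : ℂ, ((Module.finrank ℂ (genSpace h V E) : ℕ) : ℝ≥0∞) *
    ENNReal.ofReal (‖E‖ ^ (-σ) * delta E ^ (γ + σ))

theorem final (d : ℕ) (hd : 2 ≤ d) (γ : ℝ) (hγ : 0 < γ) :
    ∃ V : Rd d → ℂ, MemLp V (ENNReal.ofReal (γ + d / 2)) volume ∧ Measurable V ∧
      HasCompactSupport V ∧ (∀ x, 0 ≤ (V x).re ∧ 0 ≤ (V x).im ∧ (V x).im ≤ 1) ∧
      (∀ h : ℝ, 0 < h → ∀ E : ℂ, 0 < delta E → Module.Finite ℂ (genSpace h V E)) ∧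
      ∀ σ : ℝ, 0 ≤ σ → σ ≤ d / 2 →
        Tendsto (fun h : ℝ => ENNReal.ofReal (h ^ d) * eigSum h V γ σ) (𝓝[>] 0) (𝓝 ⊤) := by
  have hd1 : 1 ≤ d := by omega
  have hd2 : (2 : ℝ) ≤ d := by exact_mod_cast hd
  set q : ℝ := γ + d / 2 with hq
  have hq1 : 1 ≤ q := by rw [hq]; linarith
  have hq0 : 0 < q := by linarith
  set a : ℝ := 1 / (2 * q) with ha
  have ha0 : 0 < a := by positivity
  set V : Rd d → ℂ := VV (UU (d := d) a) BB with hV
  have hVmem : MemLp V (ENNReal.ofReal q) volume := memLp_VV hd1 q hq0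
  have hfin : ∀ h : ℝ, 0 < h → ∀ E : ℂ, 0 < delta E → Module.Finite ℂ (genSpace h V E) :=
    fun h hh E hE => finite_gen h hh a q hq1 hVmem E hE
  refine ⟨V, hVmem, measurable_VV _ _ (measurable_UU a) measurable_BB, ?_, ?_, hfin, ?_⟩
  · refine HasCompactSupport.intro (isCompact_closedBall (0 : Rd d) 2) fun x hx => ?_
    rw [mem_closedBall_zero_iff, not_le] at hx
    exact VV_zero_of a x hx.le
  · intro x
    have h1 := ups_nonneg a (‖x‖ ^ 2)
    have h2 := th_nonneg (‖x‖ ^ 2)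
    have h3 := th_le_one (‖x‖ ^ 2)
    have e1 : (V x).re = ups a (‖x‖ ^ 2) := by
      rw [hV]; unfold VV UU; simp
    have e2 : (V x).im = 1 - th (‖x‖ ^ 2) := by
      rw [hV]; unfold VV BB; simp
    rw [e1, e2]
    refine ⟨h1, ?_, ?_⟩ <;> linarith
  intro σ hσ0 hσ
  obtain ⟨c, hc, hcount⟩ := count (d := d) hd1 a ha0
  -- the pointwise weight
  set c0 : ℝ := (1 / 2) ^ q * (2 * 2 ^ d)⁻¹ with hc0
  have hc0pos : 0 < c0 := by positivity
  set P : ℕ → ℂ → Prop := fun j E => ‖E‖ ≤ 4 * 4 ^ j ∧ 1 / 2 ≤ delta E with hP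
  classical
  have hweight : ∀ (J : ℕ) (E : ℂ), ∑ j ∈ Finset.range J,
      ENNReal.ofReal (c0 * ((2 : ℝ) ^ d)⁻¹ ^ j) * (if P j E then 1 else 0) ≤
      ENNReal.ofReal (‖E‖ ^ (-σ) * delta E ^ (γ + σ)) := by
    intro J E
    by_cases hE : 1 / 2 ≤ delta E
    · have hEn : 1 / 2 ≤ ‖E‖ := hE.trans (delta_le_norm E)
      have hEpos : 0 < ‖E‖ := by linarith
      have h1 : ∑ j ∈ Finset.range J,
          ENNReal.ofReal (c0 * ((2 : ℝ) ^ d)⁻¹ ^ j) * (if P j E then 1 else 0) =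
          ENNReal.ofReal (c0 * ∑ j ∈ Finset.range J,
            (if ‖E‖ ≤ 4 * 4 ^ j then ((2 : ℝ) ^ d)⁻¹ ^ j else 0)) := by
        rw [Finset.mul_sum, ENNReal.ofReal_sum_of_nonneg]
        · refine Finset.sum_congr rfl fun j _ => ?_
          by_cases hj : ‖E‖ ≤ 4 * 4 ^ j
          · have : P j E := ⟨hj, hE⟩
            rw [if_pos this, if_pos hj, mul_one]
          · have : ¬ P j E := fun h => hj h.1
            rw [if_neg this, if_neg hj]
            simp
        · intro j _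
          split_ifs
          · positivity
          · simp
      rw [h1]
      apply ENNReal.ofReal_le_ofReal
      have h2 := geom_bound d hd1 ‖E‖ hEpos J
      have h3 : c0 * ∑ j ∈ Finset.range J, (if ‖E‖ ≤ 4 * 4 ^ j then ((2 : ℝ) ^ d)⁻¹ ^ j else 0) ≤
          (1 / 2) ^ q * ‖E‖ ^ (-((d : ℝ) / 2)) := by
        calc c0 * ∑ j ∈ Finset.range J, (if ‖E‖ ≤ 4 * 4 ^ j then ((2 : ℝ) ^ d)⁻¹ ^ j else 0) ≤
              c0 * (2 * 2 ^ d * ‖E‖ ^ (-((d : ℝ) / 2))) := mul_le_mul_of_nonneg_left h2 hc0pos.le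
          _ = _ := by rw [hc0]; field_simp
      refine h3.trans ?_
      have h4 : ((1 / 2 : ℝ)) ^ ((d : ℝ) / 2 - σ) * ‖E‖ ^ (-((d : ℝ) / 2)) ≤ ‖E‖ ^ (-σ) := by
        have h5 : ‖E‖ ^ (-σ) = ‖E‖ ^ ((d : ℝ) / 2 - σ) * ‖E‖ ^ (-((d : ℝ) / 2)) := by
          rw [← Real.rpow_add hEpos]
          congr 1
          ring
        rw [h5]
        apply mul_le_mul_of_nonneg_right _ (by positivity)
        exact Real.rpow_le_rpow (by norm_num) hEn (by linarith)
      have h6 : (1 / 2 : ℝ) ^ (γ + σ) ≤ delta E ^ (γ + σ) :=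
        Real.rpow_le_rpow (by norm_num) hE (by linarith)
      have h7 : (1 / 2 : ℝ) ^ q = (1 / 2) ^ ((d : ℝ) / 2 - σ) * (1 / 2) ^ (γ + σ) := by
        rw [← Real.rpow_add (by norm_num)]
        congr 1
        rw [hq]
        ring
      calc (1 / 2 : ℝ) ^ q * ‖E‖ ^ (-((d : ℝ) / 2)) =
            ((1 / 2 : ℝ) ^ ((d : ℝ) / 2 - σ) * ‖E‖ ^ (-((d : ℝ) / 2))) * (1 / 2) ^ (γ + σ) := by
            rw [h7]; ring
        _ ≤ ‖E‖ ^ (-σ) * delta E ^ (γ + σ) :=
            mul_le_mul h4 h6 (by positivity) (by positivity)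
    · have h1 : ∑ j ∈ Finset.range J,
          ENNReal.ofReal (c0 * ((2 : ℝ) ^ d)⁻¹ ^ j) * (if P j E then (1 : ℝ≥0∞) else 0) = 0 := by
        refine Finset.sum_eq_zero fun j _ => ?_
        rw [if_neg (fun h => hE h.2), mul_zero]
      rw [h1]
      exact zero_le
  -- the two multiplicities agree where it matters
  have hmult : ∀ h : ℝ, 0 < h → ∀ E : ℂ, ∀ w : ℝ≥0∞, (delta E < 1 / 2 → w = 0) →
      ((algMult h V E : ℕ∞) : ℝ≥0∞) * w =
        ((Module.finrank ℂ (genSpace h V E) : ℕ) : ℝ≥0∞) * w := by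
    intro h hh E w hw
    by_cases hE : delta E < 1 / 2
    · rw [hw hE, mul_zero, mul_zero]
    · have := hfin h hh E (by linarith)
      have h1 : algMult h V E = (Module.finrank ℂ (genSpace h V E) : ℕ) := by
        unfold algMult
        rw [← Module.finrank_eq_rank, map_natCast]
      rw [h1]
      simp
  rw [ENNReal.tendsto_nhds_top_iff_nnreal]
  intro K
  obtain ⟨J, hJ⟩ := exists_nat_gt ((K : ℝ) / (c0 * c))
  -- thresholds
  have hthr : ∀ j : ℕ, ∃ h0 : ℝ, 0 < h0 ∧ ∀ h : ℝ, 0 < h → h ≤ h0 →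
      ENNReal.ofReal (c * (√(4 ^ j) / h) ^ d) ≤
      ∑' E : ℂ, ((algMult h V E : ℕ∞) : ℝ≥0∞) * (if P j E then 1 else 0) := by
    intro j
    have h4j : (1 : ℝ) ≤ 4 ^ j := one_le_pow₀ (by norm_num)
    obtain ⟨h0, hh0, H⟩ := hcount (4 ^ j) h4j
    refine ⟨h0, hh0, fun h hh hh1 => H h hh hh1 _ ?_⟩
    intro E t ht0 ht1 hEt
    have h1 : P j E := by
      constructor
      · have h2 : ‖E‖ ≤ ‖E - ((t : ℂ) + I)‖ + ‖(t : ℂ) + I‖ := by
          have := norm_add_le (E - ((t : ℂ) + I)) ((t : ℂ) + I)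
          rwa [sub_add_cancel] at this
        have h3 : ‖(t : ℂ) + I‖ ≤ t + 1 := by
          refine (norm_add_le _ _).trans ?_
          rw [Complex.norm_real, Real.norm_of_nonneg ht0, Complex.norm_I]
        linarith
      · have h2 := Complex.abs_im_le_norm (E - ((t : ℂ) + I))
        rw [Complex.sub_im, Complex.add_im, Complex.ofReal_im, Complex.I_im, zero_add] at h2
        have h3 := (abs_le.1 (h2.trans hEt)).1
        have h4 := (le_abs_self E.im).trans (im_le_delta E)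
        linarith
    rw [if_pos h1]
  choose h0 hh0 hcnt using hthr
  -- common threshold
  obtain ⟨h1, hh1, hh1'⟩ : ∃ h1 : ℝ, 0 < h1 ∧ ∀ j ∈ Finset.range J, h1 ≤ h0 j := by
    clear hJ
    induction J with
    | zero => exact ⟨1, one_pos, fun j hj => by simp at hj⟩
    | succ J ih =>
      obtain ⟨h1, hp, hle⟩ := ih
      refine ⟨min h1 (h0 J), lt_min hp (hh0 J), fun j hj => ?_⟩
      rcases (Finset.mem_range_succ_iff.1 hj).lt_or_eq with hlt | heq
      · exact (min_le_left _ _).trans (hle j (Finset.mem_range.2 hlt))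
      · rw [heq]; exact min_le_right _ _
  have hnear : ∀ᶠ h : ℝ in 𝓝[>] 0, 0 < h ∧ h ≤ h1 := by
    filter_upwards [Ioc_mem_nhdsGT hh1] with h hh
    exact ⟨hh.1, hh.2⟩
  filter_upwards [hnear] with h hh
  obtain ⟨hpos, hle⟩ := hh
  have hsum : ENNReal.ofReal (c0 * c * J / h ^ d) ≤ eigSum h V γ σ := by
    have e1 : ∀ j ∈ Finset.range J, ENNReal.ofReal (c0 * c / h ^ d) ≤
        ENNReal.ofReal (c0 * ((2 : ℝ) ^ d)⁻¹ ^ j) *
          ∑' E : ℂ, ((algMult h V E : ℕ∞) : ℝ≥0∞) * (if P j E then 1 else 0) := by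
      intro j hj
      have h2 := hcnt j h hpos (hle.trans (hh1' j hj))
      have h3 : c0 * c / h ^ d = c0 * ((2 : ℝ) ^ d)⁻¹ ^ j * (c * (√(4 ^ j) / h) ^ d) := by
        have h4 : √((4 : ℝ) ^ j) = 2 ^ j := by
          have : (4 : ℝ) ^ j = (2 ^ j) ^ 2 := by rw [← pow_mul, mul_comm, pow_mul]; norm_num
          rw [this, Real.sqrt_sq (by positivity)]
        rw [h4, div_pow, inv_pow, ← pow_mul, ← pow_mul, mul_comm j d]
        field_simp
      rw [h3, ENNReal.ofReal_mul (by positivity)]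
      gcongr
    have e2 : ENNReal.ofReal (c0 * c * J / h ^ d) =
        ∑ _j ∈ Finset.range J, ENNReal.ofReal (c0 * c / h ^ d) := by
      rw [Finset.sum_const, Finset.card_range, nsmul_eq_mul, ← ENNReal.ofReal_natCast,
        ← ENNReal.ofReal_mul (by positivity)]
      congr 1
      ring
    rw [e2]
    refine (Finset.sum_le_sum e1).trans ?_
    have e3 : ∑ j ∈ Finset.range J, ENNReal.ofReal (c0 * ((2 : ℝ) ^ d)⁻¹ ^ j) *
          ∑' E : ℂ, ((algMult h V E : ℕ∞) : ℝ≥0∞) * (if P j E then 1 else 0) =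
        ∑' E : ℂ, ((algMult h V E : ℕ∞) : ℝ≥0∞) * ∑ j ∈ Finset.range J,
          ENNReal.ofReal (c0 * ((2 : ℝ) ^ d)⁻¹ ^ j) * (if P j E then 1 else 0) := by
      simp only [← ENNReal.tsum_mul_left]
      rw [← Summable.tsum_finsetSum (fun _ _ => ENNReal.summable)]
      refine tsum_congr fun E => ?_
      rw [Finset.mul_sum]
      refine Finset.sum_congr rfl fun j _ => ?_
      ring
    rw [e3]
    unfold eigSum
    refine ENNReal.tsum_le_tsum fun E => ?_
    rw [hmult h hpos E _ (fun hE => Finset.sum_eq_zero fun j _ => by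
      rw [if_neg (fun hp => by have := hp.2; linarith), mul_zero])]
    gcongr
    exact hweight J E
  have hhd : 0 < h ^ d := by positivity
  have hlt : (K : ℝ) < c0 * c * J := by
    rw [div_lt_iff₀ (by positivity)] at hJ
    linarith
  calc (K : ℝ≥0∞) = ENNReal.ofReal K := (ENNReal.ofReal_coe_nnreal).symm
    _ < ENNReal.ofReal (c0 * c * J) := by
        apply (ENNReal.ofReal_lt_ofReal_iff _).2 hlt
        exact lt_of_le_of_lt K.2 hlt
    _ = ENNReal.ofReal (h ^ d) * ENNReal.ofReal (c0 * c * J / h ^ d) := by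
        rw [← ENNReal.ofReal_mul (by positivity)]
        congr 1
        field_simp
    _ ≤ ENNReal.ofReal (h ^ d) * eigSum h V γ σ := by gcongr

end Pool.Agent.R993.CE
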